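import Pool.Agent.H19.SW.Cr
import Pool.Agent.H77.Z4.Nor3

/-!
# The count with no loss

`nore_cnt0`: `S_N (1 - r') ≤ 0` at almost all good windows with a configuration at which `l` is rough
with the largest slope in the window, if the slopes of the other coordinates have the property `C`
and if there are no boxes (`VAll C`). `hc0_c`: the form for the static chains.
`NoTie`, `hc0_nt`: the case where no other coordinate has the slope of the rough one.
-/

set_option autoImplicit false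

namespace Pool.SW

open MeasureTheory Set Filter Topology
open Finset (range univ)
open Pool.Agent.H49.Ent Pool.Agent.H32.Dense Pool.STK Pool.KA Pool.KSAT Pool.K2S Pool.PB Pool.S6C
open Pool.GEN Pool.ONE Pool.EXW Pool.TOP Pool.ZCL Pool.ZLC Pool.ZFN Pool.ZCO Pool.PKG Pool.CHT
open Pool.Z4 Pool.ZL
open Pool.LBT (ThrOf)
open Pool.LEV (Law)
open Pool.ALL (RateOf)
open Pool.ZFI (MevH LF cnt ll_law ll_bd01 aff_der aff_dg right_ae zwd_of)

variable {n : ℕ} {hn : 2 ≤ n} {S : PCl n} {P : ℝ → ℝ → ℝ} {r : ℝ → ℝ}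
  {P' : ℕ → List (Fin n) × Fin n → ℝ → ℝ → ℝ} {Λ : Finset (Fin n) → Fin n → ℝ → ℝ → ℝ}
  {PB : ℕ → List (Fin n) × Fin n → ℝ → ℝ → ℝ}

/-- **The count with no loss.** -/
theorem nore_cnt0 (H : Pk hn S P r P' Λ) (hTop : Pool.TOP.TopS n) (hF1 : FZX 1)
    (hF : FZX (n - 1)) (hn4 : n ≤ 4) (hW : ∀ k, 2 ≤ k → k < n → RW k)
    {C' : (Fin (n - 1) → ℝ) → ℝ → Prop}
    (hCm : MeasurableSet {p : (Fin (n - 1) → ℝ) × ℝ | C' p.1 p.2}) (hV : VAll hn hTop hF C')
    {s : Fin n → ℝ} {d : ℕ → ℝ} {al : ℝ} {g₀ : ℝ → ℝ} {e₀ : ℝ} {K₀ : ℕ} {N : ℚ → ℚ → ℝ}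
    (hal : 0 < al) (hg₀ : ∀ ε : ℝ, 0 < ε → 0 < g₀ ε) (hC : ClX s d al g₀ e₀ K₀ N S)
    {o : Od n} {l : ℕ} (hl1 : 1 ≤ l) (hl : l < n - 1) {C : ℝ} (hC1 : 1 ≤ C)
    (hMev : MevH hn S P r P' Λ o l C) :
    ∀ᵐ g : ℝ, g ∈ Gs P r P' Λ o → (∃ la t : ℕ → ℝ, Pool.ZFI.Cfg hn P P' o l g la t ∧ la l = 1) →
      Cok C' (fun j => deriv (fun v => LL hn P P' o (ix l j + 1) v v) g)
        (deriv (fun v => LL hn P P' o (l + 1) v v) g) →
      deriv (fun v => P v v) g * (1 - deriv r (P g g)) ≤ 0 := by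
  have hmain := cnt H hTop hF hl hC1 le_rfl one_pos
    (Φ := fun g la _ => la l = 1 ∧ Cok C' (fun j => deriv (fun v => LL hn P P' o (ix l j + 1) v v) g)
      (deriv (fun v => LL hn P P' o (l + 1) v v) g)) (o := o) ?_
  · filter_upwards [hmain] with g h1 hg hcf hck
    obtain ⟨la, t, h2, h3⟩ := hcf
    have h5 := h1 hg ⟨la, t, h2, h3, hck⟩ (by
      have h4 := h2.t0
      rw [(aff_der (h2.aff l le_rfl (by omega))).deriv, h3]
      linarith)
    rwa [zero_mul] at h5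
  · intro gap lam T rho V hrho g hg
    obtain ⟨ϱ, hϱ, h1⟩ := hMev gap lam T rho V hrho g hg
    refine ⟨ϱ, hϱ, fun δ hδ => ?_⟩
    have hGm : MeasurableSet (Gs P r P' Λ o ∩ Eg (LF hn P P' o) l n lam T (epg n C gap) rho) :=
      (H.gs_meas o).inter (eg_meas (fun i _ hin => ll_law H hin) (ll_bd01 H l) (V.e0 hC1).le)
    filter_upwards [h1 δ hδ, right_ae (Gs P r P' Λ o), Pool.BSM.grid_lb hGm]
      with w₁ h2 hR hgr k1 k2 k3 k4 k5 k6 A s₀ hs₀ hA
    obtain ⟨a₀, w₀, b, B, h01, hδa, har, M, Vd, β, E₁, hβ, hMO, hnum, hVV, hE0, hE1, hVd, hME⟩ :=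
      h2 k1 k2 k3 k4 k5 k6
    have Z := zwd_of H hl1 hl V hC1 hδ B hδa.le har k1.1 k1.2 k2.1 k2.2 (hR k1.1) hβ hMO hnum hVV
    have hδ0 : (0 : ℝ) < δ := by exact_mod_cast hδ
    refine zw_c Z H hTop hF1 hF hn4 hW hCm hV hal hg₀ hC hE0 hE1 hVd hME (fun x hx => hx.1) hGm
      hgr ?_ (σ := fun x => deriv (fun v => LL hn P P' o (l + 1) v v) x) hs₀
      (fun x hx => ⟨(hA x hx).2.1, (hA x hx).1⟩) ?_ ?_
    · intro x hx0 hx1 hxG
      have hx0' : (0 : ℝ) < x := by exact_mod_cast hx0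
      have hx1' : (x : ℝ) < δ := by exact_mod_cast hx1
      have h3 := B.h1
      rw [psi_diag V hC1 (ll_bd01 H l) hxG.2 B (by linarith) (by linarith) (by linarith)
        (by linarith), mul_zero]
    · intro x hx h3 h4
      obtain ⟨m1, m2, m3, m4, m5, la, t, m6, m7, -⟩ := hA x hx
      have m8 := m6.aff l le_rfl (by omega)
      have m9 := aff_der m8
      rw [m7] at m9
      have hd : deriv (fun v => LL hn P P' o (l + 1) v v) x = 1 + t l := m9.deriv
      refine ⟨m5, m4, ?_, ?_, m9.continuousAt, m3⟩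
      · rw [hd]
        exact lu_rg V hC1 hrho m1 m6.aff m7 B h01 h3 (by linarith) (by linarith) (by linarith)
      · rw [hd, ← m7]
        exact aff_dg m8
    · intro x hx _ _
      obtain ⟨-, -, -, -, -, la, t, -, -, m8⟩ := hA x hx
      exact m8

/-- **The count with no loss** for the static chains. -/
theorem hc0_c (H : PkT hn S P r P' Λ PB) (hTop : TopS n) (hF1 : FZX 1) (hF : FZX (n - 1))
    (hn4 : n ≤ 4) (hW : ∀ k, 2 ≤ k → k < n → RW k) {C' : (Fin (n - 1) → ℝ) → ℝ → Prop}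
    (hCm : MeasurableSet {p : (Fin (n - 1) → ℝ) × ℝ | C' p.1 p.2}) (hV : VAll hn hTop hF C')
    {h : ℝ} (hh : 0 ≤ h) (hMev : ∀ (o : Od n) (l : ℕ), 1 ≤ l → l < n - 1 →
      ∃ C : ℝ, 1 ≤ C ∧ MevH hn S P r P' Λ o l C) (o : Od n) (l : ℕ) :
    ∀ᵐ g : ℝ, RwH H hTop hF h o g → Pool.Z4.Cfg hn P P' o l g →
      Cok C' (fun j => deriv (fun v => LL hn P P' o (ix l j + 1) v v) g)
        (deriv (fun v => LL hn P P' o (l + 1) v v) g) → False := by
  by_cases hl : 1 ≤ l ∧ l < n - 1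
  swap
  · exact Eventually.of_forall fun g _ hC => absurd ⟨hC.l1, hC.ln⟩ hl
  obtain ⟨hl1, hl2⟩ := hl
  obtain ⟨al, g₀, s, d, e, K₀, N, hal, hg₀, hC⟩ := H.toPk.cl
  obtain ⟨C, hC1, hMe⟩ := hMev o l hl1 hl2
  filter_upwards [nore_cnt0 H.toPk hTop hF1 hF hn4 hW hCm hV hal hg₀ hC hl1 hl2 hC1 hMe]
    with g h1 R hCf hck
  have hg := R.rwd.mem
  have g0 : 0 < g := hg.1.1.1
  have g1 : g < 1 := hg.1.1.2.1
  obtain ⟨σ, hσ⟩ : ∃ σ, σ = deriv (fun a => LL hn P P' o (l + 1) a a) g := ⟨_, rfl⟩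
  have hσ1 : 1 < σ := by rw [hσ]; exact hCf.one
  have h2 := h1 hg ⟨fun i => if i = l then 1 else deriv (fun v => LF hn P P' o i v v) g,
    fun i => if i = l then σ - 1 else 0, ⟨fun i hi hin => ?_, ?_, ?_, fun i hi hin => ?_⟩, ?_⟩ hck
  · have hdg : (H.nk hTop hF).dg o (n - 1) = fun a => P a a := (H.nk hTop hF).dg_m o
    have hone : 1 ≤ deriv (fun a => P a a) g := by
      have h3 := R.rwd.one (n - 1) le_rfl
      rwa [hdg] at h3
    have h3 := R.defi
    have h4 : 0 < deriv (fun a => P a a) g * (1 - deriv r (P g g)) :=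
      mul_pos (by linarith) (by linarith)
    linarith
  · by_cases h2 : i = l
    · rw [if_pos h2, if_pos h2, h2]
      refine aff_rg (Pool.ZFI.ll_law H.toPk (by omega)) g0 g1 (hCf.lt l hl2.le) ?_ ?_
      · rw [hσ]
        exact hCf.rg
      · rw [hσ]
        exact STR.dgLo_of (hCf.dif l hl2.le)
    · rw [if_neg h2, if_neg h2]
      exact aff_sta (Pool.ZFI.ll_law H.toPk (by omega)) g0 g1 (hCf.dif i (by omega))
        (hCf.sta i (by omega) (by omega))
  · simp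
  · simp only [if_true]
    linarith
  · simp only [if_true]
    rw [if_neg (by omega)]
    linarith
  · simp

/-- **No ties**: the slopes of the coordinates before the last one are not the slope of the target. -/
def NoTie (n : ℕ) (s : Fin (n - 1) → ℝ) (σ : ℝ) : Prop := ∀ i, s i ≠ σ

theorem noTie_meas (n : ℕ) : MeasurableSet {p : (Fin (n - 1) → ℝ) × ℝ | NoTie n p.1 p.2} := by
  have h1 : {p : (Fin (n - 1) → ℝ) × ℝ | NoTie n p.1 p.2} =
      ⋂ i : Fin (n - 1), {p : (Fin (n - 1) → ℝ) × ℝ | p.1 i = p.2}ᶜ := by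
    ext p
    simp only [NoTie, Set.mem_ofPred_eq, Set.mem_iInter, Set.mem_compl_iff, ne_eq]
  rw [h1]
  exact MeasurableSet.iInter fun i =>
    (measurableSet_eq_fun ((measurable_pi_apply i).comp measurable_fst) measurable_snd).compl

/-- **The count with no loss** for the static chains, if no other coordinate has the slope of the
rough coordinate. -/
theorem hc0_nt (H : PkT hn S P r P' Λ PB) (hTop : TopS n) (hF1 : FZX 1) (hF : FZX (n - 1))
    (hn4 : n ≤ 4) (hW : ∀ k, 2 ≤ k → k < n → RW k) (hV : VAll hn hTop hF (NoTie n))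
    {h : ℝ} (hh : 0 ≤ h) (hMev : ∀ (o : Od n) (l : ℕ), 1 ≤ l → l < n - 1 →
      ∃ C : ℝ, 1 ≤ C ∧ MevH hn S P r P' Λ o l C) (o : Od n) (l : ℕ) :
    ∀ᵐ g : ℝ, RwH H hTop hF h o g → Pool.Z4.Cfg hn P P' o l g →
      (∀ i, 1 ≤ i → i ≤ n - 1 → i ≠ l → deriv (fun v => LL hn P P' o (i + 1) v v) g ≠
        deriv (fun v => LL hn P P' o (l + 1) v v) g) → False := by
  filter_upwards [hc0_c H hTop hF1 hF hn4 hW (noTie_meas n) hV hh hMev o l] with g h1 R hCf hne
  refine h1 R hCf fun s h2 h3 i => ?_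
  have h4 := hCf.one
  have hl := hCf.ln
  rcases Nat.eq_zero_or_pos (i : ℕ) with h5 | h5
  · rw [h2 i h5]
    exact h4.ne
  · obtain ⟨j, hj1, hj2, hj3⟩ := h3 i h5
    rw [hj3]
    refine hne _ ?_ (ix_le (l := l) hj2) ?_
    · unfold ix
      split_ifs <;> omega
    · unfold ix
      split_ifs <;> omega

end Pool.SW
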