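import Pool.Agent.H52.SUM.Bsc

/-!
# The derivatives of two pairs of numbers with the same sum

`pair_deriv`: the numbers `f ≤ q₂`, `M ≥ q₁` of two coordinates in one order and `q₁`, `q₂` in the
other order have the same sum. If the exchange inequalities hold between two windows, then at almost
all windows the two derivatives of `f`, `M` are those of `q₁`, `q₂`, up to the order.
-/

set_option autoImplicit false

namespace Pool.SW

open MeasureTheory Set Filter Topology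

/-- A point of a set which is a limit from the right: equal increments give equal derivatives. -/
theorem deriv_of_incr {T : Set ℝ} {f g : ℝ → ℝ} {x δ : ℝ} (hδ : 0 < δ)
    (hx : 𝓝[T ∩ Set.Ioi x] x ≠ ⊥) (hf : DifferentiableAt ℝ f x) (hg : DifferentiableAt ℝ g x)
    (h : ∀ y ∈ T, x < y → y < x + δ → f y - f x = g y - g x) : deriv f x = deriv g x := by
  obtain ⟨s, hs⟩ : ∃ s, s = T ∩ Ioo x (x + δ) := ⟨_, rfl⟩
  have hne : 𝓝[s] x ≠ ⊥ := by
    have h1 : T ∩ Set.Ioi x ∩ Set.Iio (x + δ) = s := by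
      rw [hs, Set.inter_assoc]
      rfl
    have h2 : 𝓝[T ∩ Set.Ioi x ∩ Set.Iio (x + δ)] x = 𝓝[T ∩ Set.Ioi x] x :=
      nhdsWithin_inter_of_mem' (mem_nhdsWithin_of_mem_nhds (Iio_mem_nhds (by linarith)))
    rw [← h1, h2]
    exact hx
  have hacc : AccPt x (𝓟 s) := by
    rw [accPt_principal_iff_nhdsWithin]
    refine NeBot.mono ⟨hne⟩ (nhdsWithin_mono x ?_)
    rintro y hy
    rw [hs] at hy
    exact ⟨by rw [hs]; exact hy, (ne_of_gt hy.2.1 : y ≠ x)⟩
  have h5 := hacc.uniqueDiffWithinAt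
  have h6 : HasDerivWithinAt f (deriv f x) s x := hf.hasDerivAt.hasDerivWithinAt
  have h7 : HasDerivWithinAt (fun y => g y + (f x - g x)) (deriv g x) s x :=
    (hg.hasDerivAt.hasDerivWithinAt).add_const _
  have h8 : HasDerivWithinAt f (deriv g x) s x := by
    refine h7.congr (fun y hy => ?_) (by ring)
    rw [hs] at hy
    have := h y hy.1 hy.2.1 hy.2.2
    linarith
  exact h5.eq_deriv _ h6 h8

/-- **The derivatives of the two pairs.** -/
theorem pair_deriv {T : Set ℝ} {f M q₁ q₂ : ℝ → ℝ} (hs : ∀ x ∈ T, f x + M x = q₁ x + q₂ x)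
    (hle : ∀ x ∈ T, q₁ x ≤ M x) (hf : ∀ x ∈ T, DifferentiableAt ℝ f x)
    (hM : ∀ x ∈ T, DifferentiableAt ℝ M x) (h1 : ∀ x ∈ T, DifferentiableAt ℝ q₁ x)
    (h2 : ∀ x ∈ T, DifferentiableAt ℝ q₂ x)
    (hA : ∀ x ∈ T, ∀ y ∈ T, x < y → min (M x) (q₁ x + f y - f x) ≤ q₁ y)
    (hB : ∀ x ∈ T, ∀ y ∈ T, x < y → f x + min (q₁ y - q₁ x) (M x - q₁ x) ≤ f y) :
    ∀ᵐ x : ℝ, x ∈ T → (deriv f x = deriv q₁ x ∧ deriv M x = deriv q₂ x) ∨
      (deriv f x = deriv q₂ x ∧ deriv M x = deriv q₁ x) := by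
  have k1 : ∀ᵐ x : ℝ, x ∉ {x ∈ T | 𝓝[T ∩ Set.Ioi x] x = ⊥} :=
    countable_setOfPred_isolated_right_within.ae_notMem _
  have k2 : ∀ᵐ x : ℝ, x ∈ T → deriv (fun y => f y + M y) x = deriv (fun y => q₁ y + q₂ y) x :=
    Pool.BSM.deriv_eq_ae hs (fun x hx => (hf x hx).add (hM x hx))
      fun x hx => (h1 x hx).add (h2 x hx)
  obtain ⟨T₀, hT₀⟩ : ∃ T₀, T₀ = {x | x ∈ T ∧ q₁ x = M x} := ⟨_, rfl⟩
  have k3 : ∀ᵐ x : ℝ, x ∈ T₀ → deriv q₁ x = deriv M x := by
    refine Pool.BSM.deriv_eq_ae (fun x hx => ?_) (fun x hx => ?_) fun x hx => ?_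
    · rw [hT₀] at hx
      exact hx.2
    · rw [hT₀] at hx
      exact h1 x hx.1
    · rw [hT₀] at hx
      exact hM x hx.1
  filter_upwards [k1, k2, k3] with x k1 k2 k3 hx
  have e1 := k2 hx
  rw [deriv_fun_add (hf x hx) (hM x hx), deriv_fun_add (h1 x hx) (h2 x hx)] at e1
  rcases (hle x hx).eq_or_lt with h3 | h3
  · right
    have h4 := k3 (by rw [hT₀]; exact ⟨hx, h3⟩)
    exact ⟨by linarith, h4.symm⟩
  · left
    have hne : 𝓝[T ∩ Set.Ioi x] x ≠ ⊥ := fun h => k1 ⟨hx, h⟩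
    have h4 := (h1 x hx).continuousAt
    rw [Metric.continuousAt_iff] at h4
    obtain ⟨δ, hδ, h5⟩ := h4 (M x - q₁ x) (by linarith)
    have h6 : deriv f x = deriv q₁ x := by
      refine deriv_of_incr hδ hne (hf x hx) (h1 x hx) fun y hy hxy hyδ => ?_
      have h7 : |q₁ y - q₁ x| < M x - q₁ x := by
        have := @h5 y (by rw [Real.dist_eq, abs_lt]; constructor <;> linarith)
        rwa [Real.dist_eq] at this
      have h8 := (abs_lt.1 h7).2
      have h9 := hA x hx y hy hxy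
      have h10 := hB x hx y hy hxy
      rw [min_eq_left h8.le] at h10
      rcases min_le_iff.1 h9 with h11 | h11
      · linarith
      · linarith
    exact ⟨h6, by linarith⟩

end Pool.SW
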