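import Pool.Agent.H19.SW.Gw
import Pool.Agent.H19.SW.Pd
import Pool.Agent.H31.SW.ExB

/-!
# The base slopes are the slopes of the slots

`od_cases`: the orders of at most three coordinates before the last one which begin with the first
coordinate. `PkT.base_slots`: for `n ≤ 4`, at almost every window which is a limit from both sides of
windows with known numbers `q` of the slots, for every good order, the slopes of the coordinates
before the last one are those of the numbers `q`, up to the order.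
-/

set_option autoImplicit false

namespace Pool.PKG

open MeasureTheory Set Filter Topology
open Pool.Agent.H49.Ent Pool.Agent.H32.Dense Pool.STK Pool.KA Pool.KSAT Pool.K2S Pool.PB
open Pool.GEN Pool.S6C Pool.STAT Pool.CHT Pool.GRW Pool.ONE Pool.STA
open Pool.LBT (LSys ThrOf)
open Pool.LBN (cof)
open Pool.ALL (RateOf)
open Pool.TOP (T1c T2c TopS LbR RW)
open Pool.BSM (Cel)
open Pool.SW (LowE CelE LabE cel_low pair_deriv)
open Finset (range univ)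

variable {n : ℕ} {hn : 2 ≤ n} {S : PCl n} {P : ℝ → ℝ → ℝ} {r : ℝ → ℝ}
  {P' : ℕ → List (Fin n) × Fin n → ℝ → ℝ → ℝ} {Λ : Finset (Fin n) → Fin n → ℝ → ℝ → ℝ}
  {PB : ℕ → List (Fin n) × Fin n → ℝ → ℝ → ℝ}

/-- **The orders** for `n ≤ 4`. -/
theorem od_cases (hn4 : n ≤ 4) (o : Od n) : (∀ i : Fin (n - 1), o.1.1 i = i) ∨
    ∃ i₁ i₂ : Fin (n - 1), (i₁ : ℕ) = 1 ∧ (i₂ : ℕ) = 2 ∧ n = 4 ∧ o.1.1 i₁ = i₂ ∧ o.1.1 i₂ = i₁ := by
  obtain ⟨⟨σ, hσ⟩, k⟩ := o
  change (∀ i : Fin (n - 1), σ i = i) ∨ ∃ i₁ i₂ : Fin (n - 1), (i₁ : ℕ) = 1 ∧ (i₂ : ℕ) = 2 ∧ n = 4 ∧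
    σ i₁ = i₂ ∧ σ i₂ = i₁
  have hne : ∀ i j : Fin (n - 1), (i : ℕ) ≠ j → (σ i : ℕ) ≠ σ j := fun i j h h' =>
    h (congrArg Fin.val (σ.injective (Fin.ext h')))
  by_cases hid : ∀ i : Fin (n - 1), σ i = i
  · exact Or.inl hid
  · right
    push Not at hid
    obtain ⟨i, hi⟩ := hid
    have hi' : (σ i : ℕ) ≠ i := fun h => hi (Fin.ext h)
    have h0 : (i : ℕ) ≠ 0 := fun h => hi' ((hσ i h).trans h.symm)
    have b1 := i.2
    have b2 := (σ i).2
    have hi0 : (σ i : ℕ) ≠ 0 := by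
      have h1 := hne i ⟨0, by omega⟩ h0
      rw [hσ ⟨0, by omega⟩ rfl] at h1
      exact h1
    have hn' : n = 4 := by omega
    subst hn'
    have c1 := hσ 0 rfl
    have c2 := hne 1 2 (by decide)
    have c3 := hne 1 0 (by decide)
    have c4 := hne 2 0 (by decide)
    have c5 := (σ 1).2
    have c6 := (σ 2).2
    rw [c1] at c3 c4
    refine ⟨1, 2, rfl, rfl, rfl, Fin.ext ?_, Fin.ext ?_⟩
    · change (σ 1 : ℕ) = 2
      by_contra hcon
      have e1 : (σ 1 : ℕ) = 1 := by omega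
      have e2 : (σ 2 : ℕ) = 2 := by omega
      rcases (show (i : ℕ) = 1 ∨ (i : ℕ) = 2 by omega) with h | h
      · have : i = 1 := Fin.ext h
        rw [this] at hi'
        exact hi' e1
      · have : i = 2 := Fin.ext h
        rw [this] at hi'
        exact hi' e2
    · change (σ 2 : ℕ) = 1
      by_contra hcon
      have e2 : (σ 2 : ℕ) = 2 := by omega
      have e1 : (σ 1 : ℕ) = 1 := by omega
      rcases (show (i : ℕ) = 1 ∨ (i : ℕ) = 2 by omega) with h | h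
      · have : i = 1 := Fin.ext h
        rw [this] at hi'
        exact hi' e1
      · have : i = 2 := Fin.ext h
        rw [this] at hi'
        exact hi' e2

theorem cel_incl {m J : ℕ} {F : Fam m J} {I I' : Finset (Fin m)} {k : Fin m} {w p : ℕ}
    {A : F.Ω → Prop} (h : Cel F I k w p A) (hI : I ⊆ I') : Cel F I' k w p A := by
  obtain ⟨V, z, z', h1, h2⟩ := h
  exact ⟨V, z, z', h1, fun ω ω' a b c d e => h2 ω ω' a b c d fun i hi => e i (hI hi)⟩

theorem celE_incl {m : ℕ} {S : PCl m} {I I' : Finset (Fin m)} {k : Fin m} {w f : ℝ}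
    (h : CelE S I k w f) (hI : I ⊆ I') : CelE S I' k w f := by
  intro h₁ hh τ hτ
  refine (h h₁ hh τ hτ).mono 0 ?_
  rintro J - F A ⟨B, k1, k2, k3⟩
  exact ⟨B, k1, k2, cel_incl k3 hI⟩

/-- **The first coordinate.** -/
theorem Pk.gw_zero (H : Pk hn S P r P' Λ) (hTop : TopS n) (hF : FZX (n - 1)) {o : Od n} {g : ℝ}
    (hg : g ∈ Gs P r P' Λ o) : bet (P' o.2) (cc hn o.1.1) 0 g g = g := by
  obtain ⟨hw0, hw1, hex, hvs⟩ := H.gw hTop hF hg
  obtain ⟨al, g₀, s, d, e₀, K₀, N, hal, hg₀, hC⟩ := H.cl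
  have hp : 0 < n - 1 := by omega
  have h1 := (hvs 0 hp).1
  rw [← h1]
  have h2 : vs Λ (fun i => bse (o.1.1 i)) g (0 + 1) = vn Λ (fun i => bse (o.1.1 i))
      (⟨0, hp⟩ : Fin (n - 1)) (bse (o.1.1 ⟨0, hp⟩)) g :=
    vs_succ Λ (fun i => bse (o.1.1 i)) g (⟨0, hp⟩ : Fin (n - 1))
  rw [h2]
  unfold vn
  have h3 : (Finset.Iio (⟨0, hp⟩ : Fin (n - 1))).image (fun i => bse (o.1.1 i)) = ∅ := by
    rw [Finset.image_eq_empty]
    ext x
    simp only [Finset.mem_Iio, Finset.notMem_empty, iff_false, not_lt, Fin.le_def]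
    omega
  have h4 : vs Λ (fun i => bse (o.1.1 i)) g ((⟨0, hp⟩ : Fin (n - 1)) : ℕ) = g := rfl
  rw [h3, h4]
  have h5 : bse (o.1.1 ⟨0, hp⟩) = bse (⟨0, hp⟩ : Fin (n - 1)) := by
    congr 1
    exact Fin.ext (o.1.2 ⟨0, hp⟩ rfl)
  rw [h5]
  exact H.lam.act hC.ne hal (hC.actm.q hg₀) (hC.actb _ rfl) H.pos hw0.le hw1

/-- **The identical order**: the numbers of the base are the numbers of the slots. -/
theorem Pk.slot_id (H : Pk hn S P r P' Λ) (hTop : TopS n) (hF : FZX (n - 1))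
    (hW : ∀ k, 2 ≤ k → k < n → RW k) {o : Od n} (ho : ∀ i : Fin (n - 1), o.1.1 i = i) {g : ℝ}
    (hg : g ∈ Gs P r P' Λ o) {R b₁ : ℝ} (hR : 0 ≤ R) (hgb : g < b₁) {X : Set ℝ}
    (hXr : ∀ δ : ℝ, 0 < δ → ∃ x ∈ X, g < x ∧ x < g + δ)
    (hXl : ∀ δ : ℝ, 0 < δ → ∃ x ∈ X, g - δ < x ∧ x < g) {q : ℕ → ℝ → ℝ}
    (hQ : SlqX S R b₁ X q) {i : ℕ} (hi1 : 1 ≤ i) (hi2 : i < n - 1) (hqc : ContinuousAt (q i) g)
    (hqg : g ≤ q i g) (hq1 : q i g ≤ 1) : bet (P' o.2) (cc hn o.1.1) i g g = q i g := by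
  obtain ⟨hw0, hw1, hex, hvs⟩ := H.gw hTop hF hg
  obtain ⟨j, hj⟩ : ∃ j : Fin (n - 1), (j : ℕ) = i := ⟨⟨i, hi2⟩, rfl⟩
  subst hj
  have hfun : (fun l => bse (o.1.1 l)) = (bse (n := n)) := funext fun l => by rw [ho l]
  have hset : (Finset.Iio j).image (fun l => bse (o.1.1 l)) =
      univ.filter fun l : Fin n => (l : ℕ) < (bse j : ℕ) :=
    (congrArg (fun f => (Finset.Iio j).image f) hfun).trans (image_bse j)
  have hk : bse (o.1.1 j) = bse j := by rw [ho j]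
  have h1 := H.gw_low hTop hF hg j
  have h2 := (H.gw_lab hTop hF hg j).cel
  rw [hset, hk] at h1 h2
  have h3 := SlqX.low H hW hw0 hw1 hR hgb hXr hQ (i := bse j) hi1 hi2 hqc hqg
  have h4 := SlqX.cel hw0 hgb hXl hQ (i := bse j) hi1 hi2 hqc
  exact le_antisymm (cel_low H.ne H.pos (hvs j j.2).2.le h2 h3)
    (cel_low H.ne H.pos hq1 h4 h1)

/-- The sets of the exchanged order. -/
theorem swap_sets {o : Od n} {i₁ i₂ : Fin (n - 1)} (e1 : (i₁ : ℕ) = 1) (e2 : (i₂ : ℕ) = 2)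
    (h1 : o.1.1 i₁ = i₂) : (Finset.Iio i₁).image (fun l => bse (o.1.1 l)) =
      (univ.filter fun l : Fin n => (l : ℕ) < (bse i₁ : ℕ)) ∧
    (Finset.Iio i₂).image (fun l => bse (o.1.1 l)) =
      insert (bse i₂) (univ.filter fun l : Fin n => (l : ℕ) < (bse i₁ : ℕ)) := by
  have hb : ((bse i₁ : Fin n) : ℕ) = 1 := e1
  constructor
  · ext x
    simp only [Finset.mem_image, Finset.mem_Iio, Finset.mem_filter, Finset.mem_univ, true_and]
    rw [hb]
    constructor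
    · rintro ⟨l, hl, rfl⟩
      have hl0 : (l : ℕ) = 0 := by
        have := Fin.lt_def.1 hl
        omega
      have h3 : (bse (o.1.1 l) : ℕ) = 0 := o.1.2 l hl0
      omega
    · intro hx
      have hp : 0 < n - 1 := by
        have := i₁.2
        omega
      refine ⟨⟨0, hp⟩, Fin.lt_def.2 (by simp only; omega), Fin.ext ?_⟩
      have h3 : (bse (o.1.1 ⟨0, hp⟩) : ℕ) = 0 := o.1.2 ⟨0, hp⟩ rfl
      omega
  · ext x
    simp only [Finset.mem_image, Finset.mem_Iio, Finset.mem_insert, Finset.mem_filter,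
      Finset.mem_univ, true_and]
    rw [hb]
    constructor
    · rintro ⟨l, hl, rfl⟩
      have hl' := Fin.lt_def.1 hl
      rcases (show (l : ℕ) = 0 ∨ (l : ℕ) = 1 by omega) with hl0 | hl0
      · right
        have h3 : (bse (o.1.1 l) : ℕ) = 0 := o.1.2 l hl0
        omega
      · left
        have h3 : l = i₁ := Fin.ext (hl0.trans e1.symm)
        rw [h3, h1]
    · rintro (rfl | hx)
      · exact ⟨i₁, Fin.lt_def.2 (by omega), by rw [h1]⟩
      · have hp : 0 < n - 1 := by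
          have := i₁.2
          omega
        refine ⟨⟨0, hp⟩, Fin.lt_def.2 (by simp only; omega), Fin.ext ?_⟩
        have h3 : (bse (o.1.1 ⟨0, hp⟩) : ℕ) = 0 := o.1.2 ⟨0, hp⟩ rfl
        omega

/-- **The facts of the exchanged order.** -/
theorem Pk.gw_swap (H : Pk hn S P r P' Λ) (hTop : TopS n) (hF : FZX (n - 1)) {o : Od n}
    {i₁ i₂ : Fin (n - 1)} (e1 : (i₁ : ℕ) = 1) (e2 : (i₂ : ℕ) = 2) (h1 : o.1.1 i₁ = i₂)
    (h2 : o.1.1 i₂ = i₁) {g : ℝ} (hg : g ∈ Gs P r P' Λ o) :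
    LowE S (univ.filter fun l : Fin n => (l : ℕ) < (bse i₁ : ℕ)) (bse i₂) g
      (bet (P' o.2) (cc hn o.1.1) i₁ g g) ∧
    LabE S (univ.filter fun l : Fin n => (l : ℕ) < (bse i₁ : ℕ)) (bse i₂) g
      (bet (P' o.2) (cc hn o.1.1) i₁ g g) ∧
    LowE S (insert (bse i₂) (univ.filter fun l : Fin n => (l : ℕ) < (bse i₁ : ℕ))) (bse i₁) g
      (bet (P' o.2) (cc hn o.1.1) i₂ g g) ∧
    LabE S (insert (bse i₂) (univ.filter fun l : Fin n => (l : ℕ) < (bse i₁ : ℕ))) (bse i₁) g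
      (bet (P' o.2) (cc hn o.1.1) i₂ g g) := by
  obtain ⟨s1, s2⟩ := swap_sets (o := o) e1 e2 h1
  have k1 := H.gw_low hTop hF hg i₁
  have k2 := H.gw_lab hTop hF hg i₁
  have k3 := H.gw_low hTop hF hg i₂
  have k4 := H.gw_lab hTop hF hg i₂
  rw [s1, h1] at k1 k2
  rw [s2, h2] at k3 k4
  exact ⟨k1, k2, k3, k4⟩

/-- **The base slopes are the slopes of the slots.** -/
theorem PkT.base_slots (H : PkT hn S P r P' Λ PB) (hTop : TopS n) (hF : FZX (n - 1))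
    (hn4 : n ≤ 4) (hW : ∀ k, 2 ≤ k → k < n → RW k) {R b₁ : ℝ} (hR : 0 ≤ R) {X E : Set ℝ}
    (hE : ∀ g ∈ E, 0 < g ∧ g < b₁ ∧ (∀ δ : ℝ, 0 < δ → ∃ x ∈ X, g < x ∧ x < g + δ) ∧
      ∀ δ : ℝ, 0 < δ → ∃ x ∈ X, g - δ < x ∧ x < g) {q : ℕ → ℝ → ℝ}
    (hqd : ∀ i, 1 ≤ i → i < n - 1 → ∀ᵐ g : ℝ, g ∈ E → DifferentiableAt ℝ (q i) g)
    (hqg : ∀ i, 1 ≤ i → i < n - 1 → ∀ g ∈ E, g ≤ q i g)
    (hq1 : ∀ i, 1 ≤ i → i < n - 1 → ∀ g ∈ E, q i g ≤ 1)
    (hQ : SlqX S R b₁ X q) :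
    ∀ᵐ g : ℝ, g ∈ E → ∀ o : Od n, g ∈ Gs P r P' Λ o →
      deriv ((H.nk hTop hF).dg o 0) g = 1 ∧ ∀ l, 1 ≤ l → l < n - 1 →
        ∃ j, 1 ≤ j ∧ j < n - 1 ∧ deriv ((H.nk hTop hF).dg o l) g = deriv (q j) g := by
  have hdg : ∀ (o : Od n) (i : ℕ), i < n - 1 → (H.nk hTop hF).dg o i = Dg hn P' o i := by
    intro o i hi
    funext a
    unfold Pool.STR.NumI.dg
    exact dif_pos hi
  have hmono : ∀ (o : Od n) (i : ℕ), ∀ᵐ g : ℝ, 0 < g → g < 1 →
      DifferentiableAt ℝ (Dg hn P' o i) g := by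
    intro o i
    have h1 := (dg_mono (H.cht o.2) ((List.range i).map (cc hn o.1.1), cc hn o.1.1 i)).ae_differentiableAt
    filter_upwards [h1] with g h2 h0 h1'
    refine h2.congr_of_eventuallyEq ?_
    filter_upwards [Ioo_mem_nhds h0 h1'] with v hv
    show bet (P' o.2) (cc hn o.1.1) i v v =
      P' o.2 ((List.range i).map (cc hn o.1.1), cc hn o.1.1 i) (max 0 (min v 1)) (max 0 (min v 1))
    rw [min_eq_left hv.2.le, max_eq_right hv.1.le]
    rfl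
  have h1 : ∀ᵐ g : ℝ, ∀ o : Od n, ∀ i, 0 < g → g < 1 → DifferentiableAt ℝ (Dg hn P' o i) g :=
    ae_all_iff.2 fun o => ae_all_iff.2 fun i => hmono o i
  have h2 : ∀ᵐ g : ℝ, ∀ i, 1 ≤ i → i < n - 1 → g ∈ E → DifferentiableAt ℝ (q i) g := by
    refine ae_all_iff.2 fun i => ?_
    by_cases hi : 1 ≤ i ∧ i < n - 1
    · filter_upwards [hqd i hi.1 hi.2] with g h3 _ _
      exact h3
    · exact ae_of_all _ fun g h3 h4 => absurd ⟨h3, h4⟩ hi
  obtain ⟨T, hT⟩ : ∃ T : Od n → Set ℝ, T = fun o => {g | g ∈ Gs P r P' Λ o ∧ g ∈ E ∧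
      (∀ i, DifferentiableAt ℝ (Dg hn P' o i) g) ∧
      ∀ i, 1 ≤ i → i < n - 1 → DifferentiableAt ℝ (q i) g} := ⟨_, rfl⟩
  have hT' : ∀ o g, g ∈ T o → g ∈ Gs P r P' Λ o ∧ g ∈ E ∧
      (∀ i, DifferentiableAt ℝ (Dg hn P' o i) g) ∧
      ∀ i, 1 ≤ i → i < n - 1 → DifferentiableAt ℝ (q i) g := by
    intro o g hg
    rw [hT] at hg
    exact hg
  -- the first coordinate
  have h3 : ∀ᵐ g : ℝ, ∀ o : Od n, g ∈ T o → deriv (Dg hn P' o 0) g = deriv (fun v => v) g := by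
    refine ae_all_iff.2 fun o => Pool.BSM.deriv_eq_ae (fun g hg => ?_) (fun g hg => ?_)
      fun g hg => differentiableAt_id
    · exact H.toPk.gw_zero hTop hF (hT' o g hg).1
    · exact (hT' o g hg).2.2.1 0
  -- the identical order
  have h4 : ∀ᵐ g : ℝ, ∀ o : Od n, ∀ i : ℕ, 1 ≤ i → i < n - 1 →
      (∀ l : Fin (n - 1), o.1.1 l = l) → g ∈ T o → deriv (Dg hn P' o i) g = deriv (q i) g := by
    refine ae_all_iff.2 fun o => ae_all_iff.2 fun i => ?_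
    by_cases hi : 1 ≤ i ∧ i < n - 1 ∧ ∀ l : Fin (n - 1), o.1.1 l = l
    · have h5 : ∀ᵐ g : ℝ, g ∈ T o → deriv (Dg hn P' o i) g = deriv (q i) g := by
        refine Pool.BSM.deriv_eq_ae (fun g hg => ?_) (fun g hg => ?_) fun g hg => ?_
        · obtain ⟨k1, k2, k3, k4⟩ := hT' o g hg
          obtain ⟨-, m1, m2, m3⟩ := hE g k2
          exact H.toPk.slot_id hTop hF hW hi.2.2 k1 hR m1 m2 m3 hQ hi.1 hi.2.1
            (k4 i hi.1 hi.2.1).continuousAt (hqg i hi.1 hi.2.1 g k2) (hq1 i hi.1 hi.2.1 g k2)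
        · exact (hT' o g hg).2.2.1 i
        · exact (hT' o g hg).2.2.2 i hi.1 hi.2.1
      filter_upwards [h5] with g h6 _ _ _
      exact h6
    · exact ae_of_all _ fun g a b c => absurd ⟨a, b, c⟩ hi
  -- the exchanged order
  have h5 : ∀ᵐ g : ℝ, ∀ o : Od n, (∃ i₁ i₂ : Fin (n - 1), (i₁ : ℕ) = 1 ∧ (i₂ : ℕ) = 2 ∧ n = 4 ∧
      o.1.1 i₁ = i₂ ∧ o.1.1 i₂ = i₁) → g ∈ T o →
      (deriv (Dg hn P' o 1) g = deriv (q 1) g ∧ deriv (Dg hn P' o 2) g = deriv (q 2) g) ∨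
      (deriv (Dg hn P' o 1) g = deriv (q 2) g ∧ deriv (Dg hn P' o 2) g = deriv (q 1) g) := by
    refine ae_all_iff.2 fun o => ?_
    by_cases hi : ∃ i₁ i₂ : Fin (n - 1), (i₁ : ℕ) = 1 ∧ (i₂ : ℕ) = 2 ∧ n = 4 ∧
      o.1.1 i₁ = i₂ ∧ o.1.1 i₂ = i₁
    swap
    · exact ae_of_all _ fun g a => absurd a hi
    obtain ⟨i₁, i₂, e1, e2, hn', s1, s2⟩ := hi
    have hp1 : 1 < n - 1 := by omega
    have hp2 : 2 < n - 1 := by omega
    have hk1 : (bse i₂ : Fin n) ∉ univ.filter fun l : Fin n => (l : ℕ) < (bse i₁ : ℕ) := by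
      have a1 : ((bse i₁ : Fin n) : ℕ) = 1 := e1
      have a2 : ((bse i₂ : Fin n) : ℕ) = 2 := e2
      simp only [Finset.mem_filter, Finset.mem_univ, true_and]
      omega
    have hfac : ∀ g ∈ T o, g ∈ Gs P r P' Λ o ∧ g ∈ E ∧ 0 < g ∧ g < 1 ∧
        LowE S (univ.filter fun l : Fin n => (l : ℕ) < (bse i₁ : ℕ)) (bse i₂) g
          (Dg hn P' o 1 g) ∧
        LabE S (univ.filter fun l : Fin n => (l : ℕ) < (bse i₁ : ℕ)) (bse i₂) g
          (Dg hn P' o 1 g) ∧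
        LowE S (insert (bse i₂) (univ.filter fun l : Fin n => (l : ℕ) < (bse i₁ : ℕ))) (bse i₁) g
          (Dg hn P' o 2 g) ∧
        LabE S (insert (bse i₂) (univ.filter fun l : Fin n => (l : ℕ) < (bse i₁ : ℕ))) (bse i₁) g
          (Dg hn P' o 2 g) ∧
        LowE S (univ.filter fun l : Fin n => (l : ℕ) < (bse i₁ : ℕ)) (bse i₁) g (q 1 g) ∧
        CelE S (univ.filter fun l : Fin n => (l : ℕ) < (bse i₁ : ℕ)) (bse i₁) g (q 1 g) ∧
        Dg hn P' o 1 g < 1 ∧ Dg hn P' o 2 g < 1 ∧ g ≤ Dg hn P' o 1 g := by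
      intro g hg
      obtain ⟨k1, k2, k3, k4⟩ := hT' o g hg
      obtain ⟨m0, m1, m2, m3⟩ := hE g k2
      obtain ⟨w0, w1, hex, hvs⟩ := H.toPk.gw hTop hF k1
      obtain ⟨n1, n2, n3, n4⟩ := H.toPk.gw_swap hTop hF e1 e2 s1 s2 k1
      have l1 := SlqX.low H.toPk hW w0 w1 hR m1 m2 hQ (i := bse i₁) (show 1 ≤ (i₁ : ℕ) by omega)
        (show (i₁ : ℕ) < n - 1 by omega) (by
          have : ((bse i₁ : Fin n) : ℕ) = 1 := e1
          rw [this]
          exact (k4 1 le_rfl hp1).continuousAt) (by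
          have : ((bse i₁ : Fin n) : ℕ) = 1 := e1
          rw [this]
          exact hqg 1 le_rfl hp1 g k2)
      have l2 := SlqX.cel w0 m1 m3 hQ (i := bse i₁) (show 1 ≤ (i₁ : ℕ) by omega)
        (show (i₁ : ℕ) < n - 1 by omega) (by
          have : ((bse i₁ : Fin n) : ℕ) = 1 := e1
          rw [this]
          exact (k4 1 le_rfl hp1).continuousAt)
      have e3 : q ((bse i₁ : Fin n) : ℕ) g = q 1 g := by
        have : ((bse i₁ : Fin n) : ℕ) = 1 := e1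
        rw [this]
      rw [e3] at l1 l2
      rw [e1] at n1 n2
      rw [e2] at n3 n4
      refine ⟨k1, k2, w0, w1, n1, n2, n3, n4, l1, l2, (hvs 1 hp1).2, (hvs 2 hp2).2, ?_⟩
      have h6 := le_vs H.lam (fun i => bse (o.1.1 i)) w1.le (1 + 1)
      rw [(hvs 1 hp1).1] at h6
      exact h6
    have hpair : ∀ᵐ g : ℝ, g ∈ T o →
        (deriv (Dg hn P' o 1) g = deriv (q 1) g ∧ deriv (Dg hn P' o 2) g = deriv (q 2) g) ∨
        (deriv (Dg hn P' o 1) g = deriv (q 2) g ∧ deriv (Dg hn P' o 2) g = deriv (q 1) g) := by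
      refine pair_deriv (fun g hg => ?_) (fun g hg => ?_) (fun g hg => (hT' o g hg).2.2.1 1)
        (fun g hg => (hT' o g hg).2.2.1 2) (fun g hg => (hT' o g hg).2.2.2 1 le_rfl hp1)
        (fun g hg => (hT' o g hg).2.2.2 2 (by norm_num) hp2) (fun x hx y hy hxy => ?_)
        fun x hx y hy hxy => ?_
      · -- the sum
        obtain ⟨k1, k2, k3, k4⟩ := hT' o g hg
        obtain ⟨m0, m1, m2, m3⟩ := hE g k2
        have h6 := H.toPk.base_sumX hTop hF hW k1 hR m1 m2 m3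
          (fun i h1 h2 => (k4 i h1 h2).continuousAt) (fun i h1 h2 => hqg i h1 h2 g k2)
          (fun i h1 h2 => hq1 i h1 h2 g k2) hQ
        have e3 : Finset.range (n - 1) = Finset.range 3 := congrArg _ (by omega)
        have e4 : Finset.range (n - 2) = Finset.range 2 := congrArg _ (by omega)
        rw [e3, e4, Finset.sum_range_succ, Finset.sum_range_succ, Finset.sum_range_one,
          Finset.sum_range_succ, Finset.sum_range_one, H.toPk.gw_zero hTop hF k1] at h6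
        show bet (P' o.2) (cc hn o.1.1) 1 g g + bet (P' o.2) (cc hn o.1.1) 2 g g = q 1 g + q 2 g
        simp only [zero_add] at h6
        have e5 : (1 : ℕ) + 1 = 2 := rfl
        rw [e5] at h6
        linarith
      · -- more coordinates
        obtain ⟨k1, k2, w0, w1, n1, n2, n3, n4, l1, l2, b1, b2, b3⟩ := hfac g hg
        exact cel_low H.ne H.pos (hq1 1 le_rfl hp1 g k2)
          (celE_incl l2 (Finset.subset_insert _ _)) n3
      · obtain ⟨k1, k2, w0, w1, n1, n2, n3, n4, l1, l2, b1, b2, b3⟩ := hfac x hx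
        obtain ⟨k1', k2', w0', w1', n1', n2', n3', n4', l1', l2', b1', b2', b3'⟩ := hfac y hy
        exact Pool.SWX.exchC H.ne H.pos hk1 hxy.le w1'.le b2.le (hq1 1 le_rfl hp1 x k2) b1'.le
          n4 l2 n2'.cel n1 l1'
      · obtain ⟨k1, k2, w0, w1, n1, n2, n3, n4, l1, l2, b1, b2, b3⟩ := hfac x hx
        obtain ⟨k1', k2', w0', w1', n1', n2', n3', n4', l1', l2', b1', b2', b3'⟩ := hfac y hy
        exact Pool.SWX.exchB H.ne H.pos hk1 hxy.le w1'.le (by linarith) b1.le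
          (by linarith [hqg 1 le_rfl hp1 x k2]) b2.le (hq1 1 le_rfl hp1 y k2') n4 l2 n2.cel l2' n1
          l1 n1'
    filter_upwards [hpair] with g h6 _
    exact h6
  filter_upwards [h1, h2, h3, h4, h5] with g k1 k2 k3 k4 k5 hgE o ho
  obtain ⟨h0, hb, -⟩ := hE g hgE
  have hg1 : g < 1 := ho.1.1.2.1
  have hgT : g ∈ T o := by
    rw [hT]
    exact ⟨ho, hgE, fun i => k1 o i h0 hg1, fun i a b => k2 i a b hgE⟩
  refine ⟨?_, fun l hl1 hl2 => ?_⟩
  · rw [hdg o 0 (by omega), k3 o hgT, deriv_id'']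
  · rw [hdg o l hl2]
    rcases od_cases hn4 o with h6 | h6
    · exact ⟨l, hl1, hl2, k4 o l hl1 hl2 h6 hgT⟩
    · obtain ⟨i₁, i₂, e1, e2, hn', s1, s2⟩ := id h6
      rcases (show l = 1 ∨ l = 2 by omega) with hl | hl
      · subst hl
        rcases k5 o h6 hgT with h7 | h7
        · exact ⟨1, le_rfl, hl2, h7.1⟩
        · exact ⟨2, by norm_num, by omega, h7.1⟩
      · subst hl
        rcases k5 o h6 hgT with h7 | h7
        · exact ⟨2, by norm_num, hl2, h7.2⟩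
        · exact ⟨1, le_rfl, by omega, h7.2⟩

end Pool.PKG
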