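import Pool.Agent.H80.ZC.Zfh

/-!
# The class of the sheared zooms with further properties

`zcof_x`: the theorem `zcof_four` with countably many further properties. `thr_rough`: the thresholds
of a class in which the labels of the target are bounded by `U` and attained at `D` on the diagonal.
`zcof_fin_x`: the theorem on the sheared class; for the fullness of the rows of the class one may use
the further properties, and the slope of the target at the windows of the set.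
-/

set_option autoImplicit false

namespace Pool.SW

open MeasureTheory Set Filter Topology
open Finset (range univ)
open Pool.Agent.H49.Ent Pool.Agent.H32.Dense Pool.STK Pool.KA Pool.KSAT Pool.K2S Pool.PB Pool.S6C
open Pool.GEN Pool.ONE Pool.EXW Pool.TOP Pool.ZCL Pool.ZLC Pool.ZFN Pool.ZCO
open Pool.LEV (Law)
open Pool.LBT (ThrOf)
open Pool.ALL (RateOf)
open Pool.PKG (bse)

variable {m n : ℕ}

/-- **The four families of properties and further ones.** -/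
theorem zcof_x {S : PCl m} {C₀ : ℝ} (hC₀ : 0 ≤ C₀) (hbs : TmC S C₀) {w₁ : ℝ}
    (hw0 : 0 < w₁) (hw11 : w₁ < 1) {ε : Fin n → Fin m} {kap : Fin m}
    (hk0 : ∀ k : Fin n, (k : ℕ) = 0 → ε k = kap) {B₀ : ℝ} (hB₀ : 0 ≤ B₀) {cL : ℝ}
    {Req : Type*} {R : Req → DtP m} (hD : ZReq S w₁ kap cL R) {Rr : ℝ} {l : Fin n}
    {v : Fin (n - 1) → Fin n} {Q : ℕ → ℝ}
    (hΦ₂ : ∀ i : Fin n, 1 ≤ (i : ℕ) → (i : ℕ) < n - 1 → ∀ h : ℝ, 0 < h → Q i + h ≤ 1 →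
      ∃ d : ℝ, 0 < d ∧ ∀ K : ℕ, ∃ r : Req, ZPr S w₁ ε (R r) (fun J G B =>
        ¬ LbR Rr G (Finset.univ.filter fun j : Fin n => (j : ℕ) < i) i K ⌊d * J⌋₊
          ⌊(Q i + h) * J⌋₊ B))
    {U : ℝ → ℝ → ℝ} {D : ℝ → ℝ} {b₁ : ℝ} (hb₁ : b₁ ≤ 1)
    (hΦ₁ : ∀ a w : ℚ, 0 < w → w ≤ a → (a : ℝ) < b₁ → ∀ (K : ℕ) (h : ℝ), 0 < h →
      ∃ r : Req, ZPr S w₁ ε (R r) (fun J G B =>
        ¬ (tgs l).T () K ⌊(a : ℝ) * J⌋₊ ⌊(w : ℝ) * J⌋₊ ⌊(U a w + h) * J⌋₊ J G B))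
    (hΨ₁ : ∀ w : ℚ, 0 < w → (w : ℝ) < b₁ → ∀ h : ℝ, 0 < h → ∃ K : ℕ, ∀ τ : ℝ, 0 < τ →
      ∃ r : Req, ZPr S w₁ ε (R r) (fun J G A => ∃ B : G.Ω → Prop, Sub B A ∧
        Real.exp (-(τ * J)) * Pe G.p A ≤ Pe G.p B ∧
        (tgs l).T () K ⌊(w : ℝ) * J⌋₊ ⌊(w : ℝ) * J⌋₊ ⌊(D w - h) * J⌋₊ J G B))
    {Qb eb : ℝ} (hΨ₂ : ∀ h : ℝ, 0 < h → ∃ r : Req, ZPr S w₁ ε (R r) (fun J G A =>
      CH (cond G.p A True) (fun ω => (G.X ⌊Qb * J⌋₊ ω l, fun i : Fin (n - 1) => G.X J ω (v i)))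
        G.W ≤ (eb + h) * Real.log 2 * J))
    {X : Type} [Countable X] {Ψ : X → Stat n} (hΨu : ∀ x, UPr (Ψ x))
    (hΨ : ∀ x, ∃ r : Req, ZPr S w₁ ε (R r) (fun J G B => ¬ Ψ x J G B)) :
    ∃ S' : PCl n, ClB (NZR S kap B₀ w₁) S' ∧ (∀ x, Bas S' (fun J F A => ¬ Ψ x J F A)) ∧
      (∀ i : Fin n, 1 ≤ (i : ℕ) → (i : ℕ) < n - 1 → ∀ h : ℝ, 0 < h → Q i + h ≤ 1 →
        ∃ d : ℝ, 0 < d ∧ ∀ K : ℕ, Bas S' (fun J G B =>
          ¬ LbR Rr G (Finset.univ.filter fun j : Fin n => (j : ℕ) < i) i K ⌊d * J⌋₊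
            ⌊(Q i + h) * J⌋₊ B)) ∧
      (∀ a w : ℚ, 0 < w → w ≤ a → (a : ℝ) < b₁ → ∀ (K : ℕ) (h : ℝ), 0 < h →
        Bas S' (fun J G B =>
          ¬ (tgs l).T () K ⌊(a : ℝ) * J⌋₊ ⌊(w : ℝ) * J⌋₊ ⌊(U a w + h) * J⌋₊ J G B)) ∧
      (∀ w : ℚ, 0 < w → (w : ℝ) < b₁ → ∀ h : ℝ, 0 < h → ∃ K : ℕ, ∀ τ : ℝ, 0 < τ →
        Bas S' (fun J G A => ∃ B : G.Ω → Prop, Sub B A ∧
          Real.exp (-(τ * J)) * Pe G.p A ≤ Pe G.p B ∧
          (tgs l).T () K ⌊(w : ℝ) * J⌋₊ ⌊(w : ℝ) * J⌋₊ ⌊(D w - h) * J⌋₊ J G B)) ∧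
      ∀ h : ℝ, 0 < h → Bas S' (fun J G A =>
        CH (cond G.p A True) (fun ω => (G.X ⌊Qb * J⌋₊ ω l, fun i : Fin (n - 1) => G.X J ω (v i)))
          G.W ≤ (eb + h) * Real.log 2 * J) := by
  classical
  have hl2 : 0 < Real.log 2 := Real.log_pos one_lt_two
  have hk : ∀ k : ℕ, (0 : ℝ) < 1 / ((k : ℝ) + 1) := fun k => by positivity
  choose! d hd hΦ₂ using hΦ₂
  choose! Kf hΨ₁ using hΨ₁
  -- the indices
  let I₂ : Type := {p : Fin n × ℕ × ℕ // 1 ≤ (p.1 : ℕ) ∧ (p.1 : ℕ) < n - 1 ∧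
    Q p.1 + 1 / ((p.2.2 : ℝ) + 1) ≤ 1}
  let I₁ : Type := {p : ℚ × ℚ × ℕ × ℕ // 0 < p.2.1 ∧ p.2.1 ≤ p.1 ∧ (p.1 : ℝ) < b₁}
  let I₃ : Type := {p : ℚ × ℕ × ℕ // 0 < p.1 ∧ (p.1 : ℝ) < b₁}
  obtain ⟨Φ, hΦ⟩ : ∃ Φ : (I₂ ⊕ I₁) ⊕ (I₃ ⊕ ℕ) → Stat n, Φ = fun i => match i with
    | Sum.inl (Sum.inl p) => fun J G B =>
        LbR Rr G (Finset.univ.filter fun j : Fin n => (j : ℕ) < p.1.1) p.1.1 p.1.2.1
          ⌊d p.1.1 (1 / ((p.1.2.2 : ℝ) + 1)) * J⌋₊ ⌊(Q p.1.1 + 1 / ((p.1.2.2 : ℝ) + 1)) * J⌋₊ B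
    | Sum.inl (Sum.inr p) => fun J G B =>
        (tgs l).T () p.1.2.2.1 ⌊(p.1.1 : ℝ) * J⌋₊ ⌊(p.1.2.1 : ℝ) * J⌋₊
          ⌊(U p.1.1 p.1.2.1 + 1 / ((p.1.2.2.2 : ℝ) + 1)) * J⌋₊ J G B
    | Sum.inr (Sum.inl p) => fun J G A => ∀ B : G.Ω → Prop, Sub B A →
        Pe G.p A ≤ Real.exp (1 / ((p.1.2.2 : ℝ) + 1) * J) * Pe G.p B →
        ¬ (tgs l).T () (Kf p.1.1 (1 / ((p.1.2.1 : ℝ) + 1))) ⌊(p.1.1 : ℝ) * J⌋₊
          ⌊(p.1.1 : ℝ) * J⌋₊ ⌊(D p.1.1 - 1 / ((p.1.2.1 : ℝ) + 1)) * J⌋₊ J G B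
    | Sum.inr (Sum.inr k) => fun J G A => (eb + 1 / ((k : ℝ) + 1)) * Real.log 2 * J ≤
        CH (cond G.p A True) (fun ω => (G.X ⌊Qb * J⌋₊ ω l, fun i : Fin (n - 1) => G.X J ω (v i)))
          (fun ω => ((), G.W ω)) := ⟨_, rfl⟩
  have hexp : ∀ (x : ℝ) (a b : ℝ), a ≤ Real.exp x * b ↔ Real.exp (-x) * a ≤ b := by
    intro x a b
    rw [Real.exp_neg, inv_mul_le_iff₀ (Real.exp_pos x)]
  have hWW : ∀ {J : ℕ} (G : Fam n J) (A : G.Ω → Prop) (Y : G.Ω → ℤ × (Fin (n - 1) → ℤ)),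
      IsLaw (cond G.p A True) → CH (cond G.p A True) Y (fun ω => ((), G.W ω)) =
        CH (cond G.p A True) Y G.W := by
    intro J G A Y hq
    refine le_antisymm (CH_mono_cond hq.nonneg fun ω ω' _ _ hh => (Prod.ext_iff.mp hh).2)
      (CH_mono_cond hq.nonneg fun ω ω' _ _ hh => Prod.ext rfl hh)
  have : Countable I₂ := inferInstance
  have : Countable I₁ := inferInstance
  have : Countable I₃ := inferInstance
  have u1 : ∀ i, UPr (Φ i) := by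
    rw [hΦ]
    rintro ((p | p) | (p | k))
    · exact GPr.upr fun J => gpr_lbR _ _ _ _ _ _
    · refine upr_tgs l _ (fun J => ⌊(p.1.1 : ℝ) * J⌋₊) (fun J => ⌊(p.1.2.1 : ℝ) * J⌋₊)
        (fun J => ⌊(U p.1.1 p.1.2.1 + 1 / ((p.1.2.2.2 : ℝ) + 1)) * J⌋₊) (fun J => ?_)
      refine Nat.floor_le_of_le ?_
      have h1 : (p.1.1 : ℝ) ≤ 1 := p.2.2.2.le.trans hb₁
      calc (p.1.1 : ℝ) * J ≤ 1 * J := mul_le_mul_of_nonneg_right h1 (Nat.cast_nonneg J)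
        _ = J := one_mul _
    · exact upr_many l (fun J => Real.exp (1 / ((p.1.2.2 : ℝ) + 1) * J)) _
        (fun J => ⌊(p.1.1 : ℝ) * J⌋₊) (fun J => ⌊(p.1.1 : ℝ) * J⌋₊)
        (fun J => ⌊(D p.1.1 - 1 / ((p.1.2.1 : ℝ) + 1)) * J⌋₊)
    · exact upr_ent l v (fun J => ⌊Qb * J⌋₊) (fun J => (eb + 1 / ((k : ℝ) + 1)) * Real.log 2 * J)
  have u2 : ∀ i, ∃ r : Req, ZPr S w₁ ε (R r) (fun J G B => ¬ Φ i J G B) := by
    rw [hΦ]
    rintro ((p | p) | (p | k))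
    · exact hΦ₂ p.1.1 p.2.1 p.2.2.1 _ (hk _) p.2.2.2 p.1.2.1
    · exact hΦ₁ p.1.1 p.1.2.1 p.2.1 p.2.2.1 p.2.2.2 p.1.2.2.1 _ (hk _)
    · obtain ⟨r, hr⟩ := hΨ₁ p.1.1 p.2.1 p.2.2 _ (hk p.1.2.1) _ (hk p.1.2.2)
      refine ⟨r, hr.mono fun J G A h1 h2 => ?_⟩
      obtain ⟨B, k1, k2, k3⟩ := h1
      exact h2 B k1 ((hexp _ _ _).2 k2) k3
    · obtain ⟨r, hr⟩ := hΨ₂ (1 / ((k : ℝ) + 1) / 2) (half_pos (hk k))
      obtain ⟨ψ, hψ, τ₀, hτ₀, J₀, hr⟩ := hr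
      obtain ⟨J₁, hJ₁⟩ := lin (1 : ℝ) (show 0 < 1 - w₁ by linarith)
      refine ⟨r, ψ, hψ, min τ₀ 1, lt_min hτ₀ one_pos, max J₀ J₁, ?_⟩
      intro J hJ F A hS κ C z z' hc hd' hl J' hJ' B hBA hB h2
      have h1 := hr J ((le_max_left _ _).trans hJ) F A (S.mono (min_le_left _ _) hS) κ C z z' hc
        hd' hl J' hJ' B hBA hB
      have hJ1 := hJ₁ J ((le_max_right _ _).trans hJ)
      have hA0 := (hbs _ J F A (lt_min hτ₀ one_pos) hS).1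
      have hB0 : 0 < Pe F.p B := lt_of_lt_of_le (mul_pos (Real.exp_pos _) hA0) hB
      have hWr : (⌊w₁ * (J : ℝ)⌋₊ : ℝ) ≤ w₁ * J := Nat.floor_le (by positivity)
      have hsum : (⌊w₁ * (J : ℝ)⌋₊ : ℝ) + J' = J := by exact_mod_cast hJ'
      have hJ'1 : (1 : ℝ) ≤ J' := by nlinarith
      have hq : IsLaw (cond (zfc (F.res A True hl) ⌊w₁ * J⌋₊ J' hJ'.le C
          (fun ω => z' (slam F ⌊w₁ * J⌋₊ ω)) ε).p B True) := by
        refine isLaw_cond hl ?_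
        change 0 < Pe (cond F.p A True) B
        rw [Pe_cond]
        have e1 : (fun ω => A ω ∧ B ω) = B := by
          funext ω
          exact propext ⟨fun h => h.2, fun h => ⟨hBA ω h, h⟩⟩
        rw [e1]
        exact div_pos hB0 hA0
      dsimp only at h2
      rw [hWW _ _ _ hq] at h2
      have h3 := h2.trans h1
      have h4 : (eb + 1 / ((k : ℝ) + 1) / 2) * Real.log 2 * J' <
          (eb + 1 / ((k : ℝ) + 1)) * Real.log 2 * J' := by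
        refine mul_lt_mul_of_pos_right (mul_lt_mul_of_pos_right ?_ hl2) (by linarith)
        linarith [hk k]
      linarith
  obtain ⟨S', hS', hno'⟩ := zcof_cls hC₀ hbs hw0 hw11 (ε := ε) hk0 hB₀ hD (Φ := Sum.elim Φ Ψ)
    (by
      rintro (i | i)
      · exact u1 i
      · exact hΨu i)
    (by
      rintro (i | i)
      · exact u2 i
      · exact hΨ i)
  have hno := fun i => hno' (Sum.inl i)
  simp only [Sum.elim_inl] at hno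
  rw [hΦ] at hno
  have hpos : Bas S' (fun _ F A => 0 < Pe F.p A) :=
    ⟨1, one_pos, 0, fun J _ F A hA => lt_of_lt_of_le (Real.exp_pos _)
      (hS'.mem 1 J F A hA).2.2.2.1⟩
  have hfl : ∀ {x y : ℝ} (J : ℕ), x ≤ y → ⌊x * J⌋₊ ≤ ⌊y * J⌋₊ := fun J h =>
    Nat.floor_le_floor (mul_le_mul_of_nonneg_right h (Nat.cast_nonneg J))
  refine ⟨S', hS', fun x => hno' (Sum.inr x), ?_, ?_, ?_, ?_⟩
  · intro i hi1 hi2 h hh hQh
    obtain ⟨k, hkh⟩ := exists_inv hh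
    have h0 : Q i + 1 / ((k : ℝ) + 1) ≤ 1 := by linarith
    refine ⟨d i (1 / ((k : ℝ) + 1)), hd i hi1 hi2 _ (hk k) h0, fun K => ?_⟩
    refine (hno (Sum.inl (Sum.inl ⟨(i, K, k), hi1, hi2, h0⟩))).mono 0 fun J _ F A h1 h2 => ?_
    exact h1 (h2.wk (Finset.Subset.refl _) le_rfl (hfl J (by linarith)))
  · intro a w hw hwa ha K h hh
    obtain ⟨k, hkh⟩ := exists_inv hh
    refine (hno (Sum.inl (Sum.inr ⟨(a, w, K, k), hw, hwa, ha⟩))).mono 0 fun J _ F A h1 h2 => ?_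
    exact h1 ((tgs l).anti (hfl J (by linarith)) h2)
  · intro w hw hwb h hh
    obtain ⟨k, hkh⟩ := exists_inv hh
    refine ⟨Kf w (1 / ((k : ℝ) + 1)), fun τ hτ => ?_⟩
    obtain ⟨t, htτ⟩ := exists_inv hτ
    refine (hno (Sum.inr (Sum.inl ⟨(w, k, t), hw, hwb⟩))).mono 0 fun J _ F A h1 => ?_
    push Not at h1
    obtain ⟨B, k1, k2, k3⟩ := h1
    refine ⟨B, k1, ?_, (tgs l).anti (hfl J (by linarith)) k3⟩
    have k4 := (hexp _ _ _).1 k2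
    refine le_trans (mul_le_mul_of_nonneg_right (Real.exp_le_exp.2 (neg_le_neg ?_))
      (Pe_nonneg F.isLaw A)) k4
    exact mul_le_mul_of_nonneg_right htτ (Nat.cast_nonneg J)
  · intro h hh
    obtain ⟨k, hkh⟩ := exists_inv hh
    refine ((hno (Sum.inr (Sum.inr k))).and hpos).mono 0 ?_
    rintro J - F A ⟨h1, hA⟩
    have hq := isLaw_cond F.isLaw hA
    push Not at h1
    rw [hWW F A _ hq] at h1
    refine h1.le.trans ?_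
    exact mul_le_mul_of_nonneg_right (mul_le_mul_of_nonneg_right (by linarith) hl2.le)
      (Nat.cast_nonneg J)

/-- **The thresholds are rough** at the windows of the set. -/
theorem thr_rough (hn : 2 ≤ n) {S : PCl n} (hne : S.Ne) {P : ℝ → ℝ → ℝ}
    (hT : ThrOf (tgs (lst hn)) S (fun _ => P)) {U : ℝ → ℝ → ℝ} {D σ : ℝ → ℝ} {b₁ : ℝ}
    (hb₁ : b₁ ≤ 1)
    (hΦ₁ : ∀ a w : ℚ, 0 < w → w ≤ a → (a : ℝ) < b₁ → ∀ (K : ℕ) (h : ℝ), 0 < h →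
      Bas S (fun J F A => ¬ (tgs (lst hn)).T () K ⌊(a : ℝ) * J⌋₊ ⌊(w : ℝ) * J⌋₊
        ⌊(U a w + h) * J⌋₊ J F A))
    (hΨ₁ : ∀ w : ℚ, 0 < w → (w : ℝ) < b₁ → D w ≤ 1 ∧ ∀ h : ℝ, 0 < h → ∃ K : ℕ,
      ∀ τ : ℝ, 0 < τ → Bas S (fun J F A => ∃ B : F.Ω → Prop, Sub B A ∧
        Real.exp (-(τ * J)) * Pe F.p A ≤ Pe F.p B ∧
        (tgs (lst hn)).T () K ⌊(w : ℝ) * J⌋₊ ⌊(w : ℝ) * J⌋₊ ⌊(D w - h) * J⌋₊ J F B))
    {Qb : ℝ} {E : Set ℝ} {s₀ : ℝ} (hs : 1 < s₀)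
    (hE : ∀ w ∈ E, 0 < w ∧ w < b₁ ∧ s₀ ≤ σ w ∧ RgUp U w (D w) (σ w) ∧
      DgLo (fun _ w => D w) w (D w) (σ w) ∧ 0 < D w ∧ D w < Qb) :
    ∀ w ∈ E, 0 < w ∧ w < 1 ∧ s₀ ≤ σ w ∧ RgUp P w (D w) (σ w) ∧
      DgLo P w (D w) (σ w) ∧ 0 < D w ∧ D w < Qb := by
  have hL : Law P := hT.law ()
  -- the thresholds are rough
  have hup : ∀ a w : ℚ, 0 < w → w ≤ a → (a : ℝ) < b₁ → P a w ≤ U a w := by
    intro a w hw hwa ha
    by_contra hcon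
    push Not at hcon
    have hw' : (0 : ℝ) < w := by exact_mod_cast hw
    have hwa' : (w : ℝ) ≤ a := by exact_mod_cast hwa
    have hPa : (a : ℝ) ≤ P a w := hT.low () a w hw'.le hwa' (by linarith)
    obtain ⟨h, hh⟩ : ∃ h, h = min ((P a w - U a w) / 2) (P a w / 2) := ⟨_, rfl⟩
    have hh0 : 0 < h := by
      rw [hh]
      exact lt_min (by linarith) (by linarith)
    have hh1 : h ≤ (P a w - U a w) / 2 := by rw [hh]; exact min_le_left _ _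
    have hh2 : h ≤ P a w / 2 := by rw [hh]; exact min_le_right _ _
    obtain ⟨K, hK⟩ := hT.att () a w h hw' hwa' (by linarith) hh0 (by linarith)
    have hno := hΦ₁ a w hw hwa ha K h hh0
    refine bas_no hne ((hK.and hno).mono 0 ?_)
    rintro J - F A ⟨k1, k2⟩
    refine k2 ((tgs (lst hn)).anti (Nat.floor_le_floor (mul_le_mul_of_nonneg_right ?_
      (Nat.cast_nonneg J))) k1)
    linarith
  have hlo : ∀ w : ℚ, 0 < w → (w : ℝ) < b₁ → D w ≤ P w w := by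
    intro w hw hw1
    by_contra hcon
    push Not at hcon
    have hw' : (0 : ℝ) < w := by exact_mod_cast hw
    obtain ⟨hD1, hlab⟩ := hΨ₁ w hw hw1
    obtain ⟨h, hh⟩ : ∃ h, h = (D w - P w w) / 2 := ⟨_, rfl⟩
    have hh0 : 0 < h := by rw [hh]; linarith
    obtain ⟨K, hK⟩ := hlab h hh0
    have hno := hT.no () K w w h hw.le le_rfl (by
      have : (w : ℝ) ≤ 1 := by linarith
      exact_mod_cast this) hh0 (by linarith)
    obtain ⟨τ, hτ, hno⟩ := bas_sh hno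
    refine bas_no hne (((hK τ hτ).and hno).mono 0 ?_)
    rintro J - F A ⟨⟨B, k1, k2, k3⟩, k4⟩
    refine k4 B k1 k2 ((tgs (lst hn)).anti (Nat.floor_le_floor (mul_le_mul_of_nonneg_right ?_
      (Nat.cast_nonneg J))) k3)
    linarith
  intro g hg
  obtain ⟨h4, h5, h6, h7, h8, h9, h10⟩ := hE g hg
  have hσ : 0 < σ g := by linarith
  refine ⟨h4, by linarith, h6, fun e he => ?_, fun e he => ?_, h9, h10⟩
  · obtain ⟨r₁, hr₁, k1⟩ := h7 (e / 4) (by linarith)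
    refine ⟨min (r₁ / 2) (min (g / 4) ((b₁ - g) / 4)), lt_min (by linarith)
      (lt_min (by linarith) (by linarith)), fun r hr0 hr' a w hw hwa ha => ?_⟩
    have m1 : r < r₁ / 2 := hr'.trans_le (min_le_left _ _)
    have m2 : r < g / 4 := (hr'.trans_le (min_le_right _ _)).trans_le (min_le_left _ _)
    have m3 : r < (b₁ - g) / 4 := (hr'.trans_le (min_le_right _ _)).trans_le (min_le_right _ _)
    obtain ⟨δ, hδ⟩ : ∃ δ, δ = min (r / 2) (e * r / (4 * (σ g + 1))) := ⟨_, rfl⟩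
    have hδ0 : 0 < δ := by
      rw [hδ]
      exact lt_min (by linarith) (by positivity)
    have hδ1 : δ ≤ r / 2 := by rw [hδ]; exact min_le_left _ _
    have hδ2 : δ ≤ e * r / (4 * (σ g + 1)) := by rw [hδ]; exact min_le_right _ _
    rw [le_div_iff₀ (by linarith)] at hδ2
    obtain ⟨w', hw1, hw2⟩ := exists_rat_btwn (show w < w + δ by linarith)
    obtain ⟨a', ha1, ha2⟩ := exists_rat_btwn (show max a w' < max a w' + δ by linarith)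
    have j1 := le_max_left a (w' : ℝ)
    have j2 := le_max_right a (w' : ℝ)
    have j3 : max a (w' : ℝ) ≤ a + δ := max_le (by linarith) (by linarith)
    have hw'0 : (0 : ℝ) < w' := by linarith
    have k2 := hup a' w' (by exact_mod_cast hw'0) (by
      have : (w' : ℝ) ≤ a' := by linarith
      exact_mod_cast this) (by linarith)
    have k3 := hL.mono (a := a) (a' := a') (w := w) (w' := w') (by linarith) hwa (by linarith)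
      hw1.le (by linarith) (by linarith)
    have k4 := k1 (2 * r) (by linarith) (by linarith) a' w' (by linarith) (by linarith)
      (by linarith)
    have k5 : σ g * ((w' : ℝ) - g) ≤ σ g * (w - g) + σ g * δ := by
      have := mul_le_mul_of_nonneg_left (show (w' : ℝ) - g ≤ w - g + δ by linarith) hσ.le
      linarith
    have k6 : (a' : ℝ) - w' ≤ a - w + 2 * δ := by linarith
    have k7 : δ * (4 * (σ g + 1)) = 4 * (σ g * δ) + 4 * δ := by ring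
    rw [k7] at hδ2
    have k8 : e / 4 * (2 * r) = e * r / 2 := by ring
    have k9 : 0 ≤ σ g * δ := by positivity
    linarith
  · obtain ⟨r₁, hr₁, k1⟩ := h8 (e / 4) (by linarith)
    refine ⟨min (r₁ / 2) (min (g / 4) ((b₁ - g) / 4)), lt_min (by linarith)
      (lt_min (by linarith) (by linarith)), fun r hr0 hr' u hu1 hu2 => ?_⟩
    have m1 : r < r₁ / 2 := hr'.trans_le (min_le_left _ _)
    have m2 : r < g / 4 := (hr'.trans_le (min_le_right _ _)).trans_le (min_le_left _ _)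
    have m3 : r < (b₁ - g) / 4 := (hr'.trans_le (min_le_right _ _)).trans_le (min_le_right _ _)
    obtain ⟨δ, hδ⟩ : ∃ δ, δ = min (r / 2) (e * r / (4 * (σ g + 1))) := ⟨_, rfl⟩
    have hδ0 : 0 < δ := by
      rw [hδ]
      exact lt_min (by linarith) (by positivity)
    have hδ1 : δ ≤ r / 2 := by rw [hδ]; exact min_le_left _ _
    have hδ2 : δ ≤ e * r / (4 * (σ g + 1)) := by rw [hδ]; exact min_le_right _ _
    rw [le_div_iff₀ (by linarith)] at hδ2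
    obtain ⟨u', hv1, hv2⟩ := exists_rat_btwn (show u - δ < u by linarith)
    have hu'0 : (0 : ℝ) < u' := by linarith
    have k2 := hlo u' (by exact_mod_cast hu'0) (by linarith)
    have k3 := hL.mono (a := u') (a' := u) (w := u') (w' := u) hu'0.le le_rfl hv2.le hv2.le
      le_rfl (by linarith)
    have k4 := k1 (2 * r) (by linarith) (by linarith) u' (by linarith) (by linarith)
    simp only at k4
    have k5 : σ g * (u - g) - σ g * δ ≤ σ g * ((u' : ℝ) - g) := by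
      have := mul_le_mul_of_nonneg_left (show u - g - δ ≤ (u' : ℝ) - g by linarith) hσ.le
      linarith
    have k7 : δ * (4 * (σ g + 1)) = 4 * (σ g * δ) + 4 * δ := by ring
    rw [k7] at hδ2
    have k8 : e / 4 * (2 * r) = e * r / 2 := by ring
    have k9 : 0 < e * r := mul_pos he hr0
    linarith

/-- **The theorem on the sheared class**, with further properties. -/
theorem zcof_fin_x (hn : 2 ≤ n) (hF : FZX 1) (hW : ∀ k, 2 ≤ k → k < n → RW k) {al : ℝ} {g₀ : ℝ → ℝ}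
    (hal : 0 < al) (hg₀ : ∀ ε : ℝ, 0 < ε → 0 < g₀ ε) {N : ℚ → ℚ → ℝ} (hN : ActM N al g₀)
    {S : PCl m} {C₀ : ℝ} (hC₀ : 0 ≤ C₀) (hbs : TmC S C₀) {w₁ : ℝ} (hw0 : 0 < w₁) (hw11 : w₁ < 1)
    {e : Fin n → Fin m} {kap : Fin m} (hk0 : ∀ k : Fin n, (k : ℕ) = 0 → e k = kap)
    (hact : ActB N S kap) {cL : ℝ} {Req : Type*} {R : Req → DtP m} (hD : ZReq S w₁ kap cL R)
    {Q : ℕ → ℝ} (hQ0 : ∀ i, 0 ≤ Q i) {Rr : ℝ} (hRr : 0 ≤ Rr)
    (hΦ₂ : ∀ i : Fin n, 1 ≤ (i : ℕ) → (i : ℕ) < n - 1 → ∀ h : ℝ, 0 < h → Q i + h ≤ 1 →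
      ∃ d : ℝ, 0 < d ∧ ∀ K : ℕ, ∃ r : Req, ZPr S w₁ e (R r) (fun J G B =>
        ¬ LbR Rr G (Finset.univ.filter fun j : Fin n => (j : ℕ) < i) i K ⌊d * J⌋₊
          ⌊(Q i + h) * J⌋₊ B))
    {U : ℝ → ℝ → ℝ} {D σ : ℝ → ℝ} {b₁ : ℝ} (hb₁ : b₁ ≤ 1)
    (hΦ₁ : ∀ a w : ℚ, 0 < w → w ≤ a → (a : ℝ) < b₁ → ∀ (K : ℕ) (h : ℝ), 0 < h →
      ∃ r : Req, ZPr S w₁ e (R r) (fun J G B =>
        ¬ (tgs (lst hn)).T () K ⌊(a : ℝ) * J⌋₊ ⌊(w : ℝ) * J⌋₊ ⌊(U a w + h) * J⌋₊ J G B))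
    (hΨ₁ : ∀ w : ℚ, 0 < w → (w : ℝ) < b₁ → D w ≤ 1 ∧ ∀ h : ℝ, 0 < h → ∃ K : ℕ,
      ∀ τ : ℝ, 0 < τ → ∃ r : Req, ZPr S w₁ e (R r) (fun J G A => ∃ B : G.Ω → Prop, Sub B A ∧
        Real.exp (-(τ * J)) * Pe G.p A ≤ Pe G.p B ∧
        (tgs (lst hn)).T () K ⌊(w : ℝ) * J⌋₊ ⌊(w : ℝ) * J⌋₊ ⌊(D w - h) * J⌋₊ J G B))
    {Qb eb : ℝ} (hQb0 : 0 ≤ Qb) (hQb1 : Qb ≤ 1)
    (hΨ₂ : ∀ h : ℝ, 0 < h → ∃ r : Req, ZPr S w₁ e (R r) (fun J G A =>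
      CH (Pool.Agent.H49.Ent.cond G.p A True)
        (fun ω => (G.X ⌊Qb * J⌋₊ ω (lst hn), fun i : Fin (n - 1) => G.X J ω (bse i))) G.W ≤
        (eb + h) * Real.log 2 * J))
    {E : Set ℝ} {s₀ h₀ : ℝ} (hs : 1 < s₀) (hh₀ : h₀ ≤ 1)
    (hE : ∀ w ∈ E, 0 < w ∧ w < b₁ ∧ s₀ ≤ σ w ∧ RgUp U w (D w) (σ w) ∧
      DgLo (fun _ w => D w) w (D w) (σ w) ∧ 0 < D w ∧ D w < Qb)
    {X : Type} [Countable X] {Ψ : X → Stat n} (hΨu : ∀ x, UPr (Ψ x))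
    (hΨ : ∀ x, ∃ r : Req, ZPr S w₁ e (R r) (fun J G B => ¬ Ψ x J G B))
    (hM : ∀ (S' : PCl n) (P : ℝ → ℝ → ℝ) (r : ℝ → ℝ), ClX (fun _ => 0) (fun _ => 1) al
      (fun x => min (g₀ (x / 2)) 1) 2 0 (NZR S kap (al + 1) w₁) S' →
      (∀ x, Bas S' (fun J F A => ¬ Ψ x J F A)) →
      ThrOf (tgs (lst hn)) S' (fun _ => P) → RateOf S' (lst hn) r →
      (∀ w ∈ E, 0 < w ∧ w < 1 ∧ s₀ ≤ σ w ∧ RgUp P w (D w) (σ w) ∧
        DgLo P w (D w) (σ w) ∧ 0 < D w ∧ D w < Qb) → RgFull P r h₀ E) :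
    ENNReal.ofReal ((1 - h₀) * s₀) * volume E ≤
      ENNReal.ofReal (eb - (1 + ∑ i ∈ range (n - 2), (1 - Q (i + 1)))) := by
  obtain ⟨S', hS', hX, h2, h1, h3, h4⟩ := zcof_x hC₀ hbs hw0 hw11 (ε := e) hk0
    (show 0 ≤ al + 1 by linarith) hD (l := lst hn) (v := bse) hΦ₂ hb₁ hΦ₁
    (fun w hw hwb => (hΨ₁ w hw hwb).2) hΨ₂ hΨu hΨ
  obtain ⟨v, hv⟩ : ∃ v : ℕ → Fin n, v = fun i => if h : i < n then ⟨i, h⟩ else lst hn :=
    ⟨_, rfl⟩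
  have hvi : ∀ i, (h : i < n) → v i = ⟨i, h⟩ := fun i h => by rw [hv]; exact dif_pos h
  have hlst : ((lst hn : Fin n) : ℕ) = n - 1 := rfl
  refine zfin hn hF hW hal (g₀ := fun x => min (g₀ (x / 2)) 1)
    (fun x hx => lt_min (hg₀ _ (half_pos hx)) one_pos)
    (ActM.real (fun τ J F A hτ hA => (hbs τ J F A hτ hA).1) hal.le hN hact hw0.le hw11)
    hS' (v := v) ?_ ?_ ?_ hQ0 hRr ?_ hb₁ h1 ?_ hQb0 hQb1 (eb := eb) ?_ hs hh₀ hE ?_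
  · rw [hvi 0 (by omega)]
  · intro i hi j hj h
    rw [hvi i (by omega), hvi j (by omega)] at h
    exact Fin.mk.inj h
  · intro i hi h
    rw [hvi i (by omega)] at h
    have := congrArg Fin.val h
    rw [hlst] at this
    change i = n - 1 at this
    omega
  · intro i hi1 hi2 h hh hQh
    have hin : i < n := by omega
    obtain ⟨d, hd, h5⟩ := h2 ⟨i, hin⟩ hi1 hi2 h hh hQh
    refine ⟨d, hd, fun K => ?_⟩
    rw [image_first hvi (by omega), hvi i hin]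
    exact h5 K
  · intro w hw hwb
    exact ⟨(hΨ₁ w hw hwb).1, h3 w hw hwb⟩
  · intro h hh
    refine (h4 h hh).mono 0 fun J _ F A h5 => ?_
    have e1 : (fun ω => (F.X ⌊Qb * (J : ℝ)⌋₊ ω (lst hn), fun l : Fin (n - 1) => F.X J ω (v l))) =
        (fun ω => (F.X ⌊Qb * (J : ℝ)⌋₊ ω (lst hn),
          fun i : Fin (n - 1) => F.X J ω (bse i))) := by
      funext ω
      refine Prod.ext rfl (funext fun l => ?_)
      change F.X J ω (v l) = F.X J ω (bse l)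
      rw [hvi l (by have := l.2; omega)]
      rfl
    rw [e1]
    exact h5
  · intro S₁ P r hC hsub hT hr
    refine hM S₁ P r hC (fun x => Bas.sub hsub (hX x)) hT hr (thr_rough hn hC.ne hT hb₁
      (fun a w hw hwa ha K h hh => Bas.sub hsub (h1 a w hw hwa ha K h hh))
      (fun w hw hwb => ⟨(hΨ₁ w hw hwb).1, fun h hh => ?_⟩) hs hE)
    obtain ⟨K, hK⟩ := h3 w hw hwb h hh
    exact ⟨K, fun τ hτ => Bas.sub hsub (hK τ hτ)⟩

end Pool.SW
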