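import Pool.Agent.H77.Z4.Zw
import Pool.Agent.H19.SW.Zx

/-!
# The inequality between two windows, with further properties of the class of the zooms

`zin_x`: the theorem `zin` for countably many further properties of the class of the zooms; for the
fullness of its rows one may use them, and the slope of the target at the windows of the set.
`zbun_x`: the form over `ZBun`, `zw_x`: the form over `Zwd`.
-/

set_option autoImplicit false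

namespace Pool.SW

open MeasureTheory Set Filter Topology
open Finset (range univ)
open Pool.Agent.H49.Ent Pool.Agent.H32.Dense Pool.STK Pool.KA Pool.KSAT Pool.K2S Pool.PB Pool.S6C
open Pool.GEN Pool.ONE Pool.EXW Pool.TOP Pool.ZCL Pool.ZLC Pool.ZFN Pool.ZCO Pool.PKG Pool.CHT
open Pool.Z4
open Pool.LBT (ThrOf)
open Pool.LBN (Tch)
open Pool.LEV (Law)
open Pool.ALL (RateOf)

variable {n : ℕ} {hn : 2 ≤ n} {S : PCl n} {P : ℝ → ℝ → ℝ} {r : ℝ → ℝ}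
  {P' : ℕ → List (Fin n) × Fin n → ℝ → ℝ → ℝ} {Λ : Finset (Fin n) → Fin n → ℝ → ℝ → ℝ}

/-- **The inequality between two windows**, with further properties of the class. -/
theorem zin_x (H : Pk hn S P r P' Λ) (hF : FZX 1) (hW : ∀ k, 2 ≤ k → k < n → RW k)
    {s : Fin n → ℝ} {d : ℕ → ℝ} {al : ℝ} {g₀ : ℝ → ℝ} {e₀ : ℝ} {K₀ : ℕ} {N : ℚ → ℚ → ℝ}
    (hal : 0 < al) (hg₀ : ∀ ε : ℝ, 0 < ε → 0 < g₀ ε) (hC : ClX s d al g₀ e₀ K₀ N S)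
    {o : Od n} {l : ℕ} (hl1 : 1 ≤ l) (hl : l < n - 1) {w₁ wb xs : ℝ} (hw0 : 0 < w₁)
    (hwb : w₁ < wb) (hwb1 : wb < 1) (hx0 : 0 ≤ xs) (hx1 : w₁ + xs ≤ LL hn P P' o (l + 1) w₁ w₁)
    {cL : ℝ} {Req : Type*} {R : Req → DtP n} (hD : ZReq S w₁ (cc hn o.1.1 0) cL R)
    {Nd : Set (ℝ × ℝ)} {Wd : Set ℝ} {LU : ℝ → ℝ → ℝ} (hLU0 : ∀ p ∈ Nd, 0 ≤ LU p.1 p.2)
    (hNd : ∀ a w δ : ℝ, 0 < δ → w₁ < w → w ≤ a → a < wb → ∃ p ∈ Nd, a < p.1 ∧ p.1 < a + δ ∧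
      w < p.2 ∧ p.2 < w + δ ∧ p.2 ≤ p.1)
    (hWd0 : ∀ w ∈ Wd, 0 ≤ w ∧ w ≤ 1) (hWd : w₁ ∈ Wd)
    {Rr : ℝ} (hRr : 0 ≤ Rr)
    (hΦ₂ : ∀ i : Fin n, 1 ≤ (i : ℕ) → (i : ℕ) < n - 1 → ∀ h : ℝ, 0 < h →
      Qz hn P P' o l w₁ xs i + h ≤ 1 →
      ∃ d : ℝ, 0 < d ∧ ∀ K : ℕ, ∃ q : Req, ZPr S w₁ (ez hn o.1.1 l) (R q) (fun J G B =>
        ¬ LbR Rr G (Finset.univ.filter fun j : Fin n => (j : ℕ) < i) i K ⌊d * J⌋₊
          ⌊(Qz hn P P' o l w₁ xs i + h) * J⌋₊ B))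
    (hΦ₁ : ∀ p ∈ Nd, ∀ a w : ℚ, 0 < w → w ≤ a → rho w₁ a < p.1 → rho w₁ w < p.2 →
      ∀ (K : ℕ) (U h : ℝ), 0 ≤ U → 0 < h → nmz w₁ xs (LU p.1 p.2) ≤ U + h / 4 →
      ∃ q : Req, ZPr S w₁ (ez hn o.1.1 l) (R q) (fun J G B =>
        ¬ (tgs (lst hn)).T () K ⌊(a : ℝ) * J⌋₊ ⌊(w : ℝ) * J⌋₊ ⌊(U + h) * J⌋₊ J G B))
    (hΨ₁ : ∀ v : ℚ, 0 < v → rho w₁ v < wb → ∀ D : ℝ, 0 < D → D ≤ 1 →
      (∀ h : ℝ, 0 < h → ∃ w ∈ Wd, w < rho w₁ v ∧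
        D - h < nmz w₁ xs (LL hn P P' o (l + 1) w w)) → ∀ h : ℝ, 0 < h →
      ∃ K : ℕ, ∀ τ : ℝ, 0 < τ → ∃ q : Req, ZPr S w₁ (ez hn o.1.1 l) (R q) (fun J G A =>
        ∃ B : G.Ω → Prop, Sub B A ∧ Real.exp (-(τ * J)) * Pe G.p A ≤ Pe G.p B ∧
        (tgs (lst hn)).T () K ⌊(v : ℝ) * J⌋₊ ⌊(v : ℝ) * J⌋₊ ⌊(D - h) * J⌋₊ J G B))
    (hΨ₂ : ∀ h : ℝ, 0 < h → ∃ q : Req, ZPr S w₁ (ez hn o.1.1 l) (R q) (fun J G A =>
      CH (Pool.Agent.H49.Ent.cond G.p A True)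
        (fun ω => (G.X ⌊nmz w₁ xs (LL hn P P' o (l + 1) wb wb) * J⌋₊ ω (lst hn),
          fun i : Fin (n - 1) => G.X J ω (bse i))) G.W ≤
        (ebz hn P r P' o l w₁ wb xs + h) * Real.log 2 * J))
    {A : Set ℝ} {σ : ℝ → ℝ} {s₀ h₀ : ℝ} (hs : 1 < s₀) (hh₀ : h₀ ≤ 1)
    (hA : ∀ x ∈ A, w₁ < x → x < wb → s₀ ≤ σ x ∧ LL hn P P' o (l + 1) x x < 1 ∧
      RgUp LU x (LL hn P P' o (l + 1) x x) (σ x) ∧
      DgLo (LL hn P P' o (l + 1)) x (LL hn P P' o (l + 1) x x) (σ x) ∧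
      ContinuousAt (fun v => LL hn P P' o (l + 1) v v) x ∧ Nogap Wd x)
    {X : Type} [Countable X] {Ψ : X → Stat n} (hΨu : ∀ x, UPr (Ψ x))
    (hΨ : ∀ x, ∃ q : Req, ZPr S w₁ (ez hn o.1.1 l) (R q) (fun J G B => ¬ Ψ x J G B))
    (hM : ∀ (S' : PCl n) (P : ℝ → ℝ → ℝ) (r : ℝ → ℝ), ClX (fun _ => 0) (fun _ => 1) al
      (fun x => min (g₀ (x / 2)) 1) 2 0 (NZR S (cc hn o.1.1 0) (al + 1) w₁) S' →
      (∀ x, Bas S' (fun J F A => ¬ Ψ x J F A)) →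
      ThrOf (tgs (lst hn)) S' (fun _ => P) → RateOf S' (lst hn) r →
      (∀ v : ℝ, rho w₁ v ∈ A ∩ Ioo w₁ wb → 0 < v ∧ v < 1 ∧ s₀ ≤ σ (rho w₁ v) ∧
        ∃ D : ℝ, 0 < D ∧ RgUp P v D (σ (rho w₁ v)) ∧ DgLo P v D (σ (rho w₁ v))) →
      RgFull P r h₀ {v | rho w₁ v ∈ A ∩ Ioo w₁ wb}) :
    ENNReal.ofReal ((1 - h₀) * s₀) * volume (A ∩ Ioo w₁ wb) ≤
      ENNReal.ofReal (LL hn P P' o (l + 1) wb wb - LL hn P P' o (l + 1) w₁ w₁ -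
        (P wb wb - P w₁ w₁ - (r (P wb wb) - r (P w₁ w₁)))) := by
  have h1 : w₁ < 1 := by linarith
  have h1w : 0 < 1 - w₁ := by linarith
  -- the laws
  have hlaw : ∀ i < n - 1, Law (LL hn P P' o (i + 1)) ∧
      (∀ a w : ℝ, 0 ≤ w → w ≤ a → a ≤ 1 → a ≤ LL hn P P' o (i + 1) a w ∧
        LL hn P P' o (i + 1) a w ≤ 1) := by
    intro i hi
    rw [LL_low (by omega) (by omega)]
    exact ⟨(H.cht o.2).law _, fun a w h0 h1 h2 =>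
      ⟨(H.cht o.2).low _ a w h0 h1 h2, (H.cht o.2).up _ a w h0 h1 h2⟩⟩
  obtain ⟨L, hL⟩ : ∃ L, L = LL hn P P' o (l + 1) := ⟨_, rfl⟩
  obtain ⟨hLL, hLb⟩ := hlaw l hl
  rw [← hL] at hLL hLb hx1 hA hΨ₁ hΨ₂ ⊢
  have hsl : ∀ x y : ℝ, 0 ≤ x → x < y → y ≤ 1 → L x x < 1 → L x x + (y - x) ≤ L y y ∨
      L y y = 1 := by
    intro x y h2 h3 h4 h5
    have h6 := hLL.slope x x (y - x) h2 le_rfl (by linarith) (by linarith)
    rw [add_sub_cancel] at h6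
    have h7 := hLL.mono_w y x y h2 h3.le le_rfl h4
    rcases min_choice 1 (L x x + (y - x)) with h8 | h8
    · right
      rw [h8] at h6
      exact le_antisymm (hLb y y (by linarith) le_rfl h4).2 (h6.trans h7)
    · left
      rw [h8] at h6
      exact h6.trans h7
  have hinc : ∀ x y : ℝ, 0 ≤ x → x < y → y ≤ 1 → L x x < 1 → L x x < L y y := by
    intro x y h2 h3 h4 h5
    rcases hsl x y h2 h3 h4 h5 with h6 | h6
    · linarith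
    · rw [h6]
      exact h5
  have hL1 : L w₁ w₁ < 1 ∨ A ∩ Ioo w₁ wb = ∅ := by
    by_contra hcon
    push Not at hcon
    obtain ⟨h2, x, hx, hx2⟩ := hcon
    have h3 := (hA x hx hx2.1 hx2.2).2.1
    have h4 := hLL.mono hw0.le le_rfl hx2.1.le hx2.1.le le_rfl (by linarith [hx2.2])
    linarith
  rcases hL1 with hL1 | hL1
  swap
  · rw [hL1, measure_empty, mul_zero]
    exact zero_le
  have hxpos : ∀ x : ℝ, w₁ < x → x ≤ 1 → 0 < nmz w₁ xs (L x x) := by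
    intro x h2 h3
    have h4 := hinc w₁ x hw0.le h2 h3 hL1
    unfold nmz
    exact div_pos (by linarith) h1w
  have hnm1 : ∀ y : ℝ, y ≤ 1 → nmz w₁ xs y ≤ 1 := by
    intro y hy
    unfold nmz
    rw [div_le_one h1w]
    linarith
  have hrb : ∀ a : ℝ, a < rin w₁ wb → rho w₁ a < wb := by
    intro a ha
    unfold rin at ha
    rw [lt_div_iff₀ h1w] at ha
    unfold rho
    linarith
  have hWd1 : ∀ w ∈ Wd, (fun v => L v v) w ≤ 1 := fun w hw =>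
    (hLb w w (hWd0 w hw).1 le_rfl (hWd0 w hw).2).2
  have hmain := zcof_fin_x hn hF hW hal hg₀ hC.actm (S := S) (C₀ := 6) (by norm_num) H.tmc hw0 h1
    (e := ez hn o.1.1 l) (kap := cc hn o.1.1 0) (fun k hk => ez_zero hn _ hl1 hk)
    (hC.actb _ (by
      rw [cc_lt hn _ (show 0 < n - 1 by omega)]
      exact o.1.2 _ rfl)) hD (Q := Qz hn P P' o l w₁ xs) ?_ hRr hΦ₂
    (U := upz LU Nd w₁ xs) (D := loz (fun v => L v v) Wd w₁ xs) (σ := fun v => σ (rho w₁ v))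
    (b₁ := rin w₁ wb) ?_ ?_ ?_ (Qb := nmz w₁ xs (L wb wb)) (eb := ebz hn P r P' o l w₁ wb xs)
    (hxpos wb hwb hwb1.le).le (hnm1 _ (hLb wb wb (by linarith) le_rfl hwb1.le).2) hΨ₂
    (E := {v | rho w₁ v ∈ A ∩ Ioo w₁ wb}) hs hh₀ ?_
    hΨu hΨ (fun S' P₁ r₁ hC₁ hX₁ hT₁ hr₁ hE₁ => hM S' P₁ r₁ hC₁ hX₁ hT₁ hr₁ fun v hv => by
      obtain ⟨k1, k2, k3, k4, k5, k6, -⟩ := hE₁ v hv
      exact ⟨k1, k2, k3, _, k6, k4, k5⟩)
  · -- the inequality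
    have h0 : w₁ ≤ LL hn P P' o 1 w₁ w₁ := ((hlaw 0 (by omega)).2 w₁ w₁ hw0.le le_rfl h1.le).1
    have hcnt := count_z (r := r) hl1 hl (wb := wb) (xs := xs) h1 h0
    rw [← hL] at hcnt
    rw [← vol_rin h1 (A ∩ Ioo w₁ wb)]
    calc ENNReal.ofReal ((1 - h₀) * s₀) * (ENNReal.ofReal (1 - w₁) *
          volume {v | rho w₁ v ∈ A ∩ Ioo w₁ wb}) =
        ENNReal.ofReal (1 - w₁) * (ENNReal.ofReal ((1 - h₀) * s₀) *
          volume {v | rho w₁ v ∈ A ∩ Ioo w₁ wb}) := by ring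
      _ ≤ ENNReal.ofReal (1 - w₁) * ENNReal.ofReal (ebz hn P r P' o l w₁ wb xs -
          (1 + ∑ i ∈ range (n - 2), (1 - Qz hn P P' o l w₁ xs (i + 1)))) := by gcongr
      _ = ENNReal.ofReal ((1 - w₁) * (ebz hn P r P' o l w₁ wb xs -
          (1 + ∑ i ∈ range (n - 2), (1 - Qz hn P P' o l w₁ xs (i + 1))))) :=
        (ENNReal.ofReal_mul h1w.le).symm
      _ ≤ _ := ENNReal.ofReal_le_ofReal hcnt
  · -- the numbers are not negative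
    intro i
    unfold Qz nmz
    refine div_nonneg ?_ h1w.le
    have hge : w₁ ≤ LL hn P P' o (ix l i + 1) w₁ w₁ := by
      rcases Nat.lt_trichotomy (ix l i) (n - 1) with h2 | h2 | h2
      · exact ((hlaw _ h2).2 w₁ w₁ hw0.le le_rfl h1.le).1
      · rw [h2, LL_lst]
        exact H.tgs.low () w₁ w₁ hw0.le le_rfl h1.le
      · unfold PKG.LL
        rw [if_neg (by omega), if_neg (by omega), if_neg (by omega)]
    split_ifs <;> linarith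
  · -- b₁
    unfold rin
    rw [div_le_one h1w]
    linarith
  · -- Phi1
    intro a w hw hwa ha K h hh
    have hwa' : (w : ℝ) ≤ a := by exact_mod_cast hwa
    have hw' : (0 : ℝ) < w := by exact_mod_cast hw
    have hρw : w₁ < rho w₁ w := by
      unfold rho
      have : 0 < (1 - w₁) * (w : ℝ) := by positivity
      linarith
    have hρa := hrb a ha
    obtain ⟨p, hp, p1, -, p3, -, p5⟩ := hNd (rho w₁ a) (rho w₁ w) 1 one_pos hρw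
      (rho_mono h1 hwa') hρa
    obtain ⟨q, hq, q1, q2, q3, q4⟩ := upz_ex (L := LU) (x := xs) (h := h / 4) (by linarith)
      ⟨p, hp, p1, p3, p5⟩
    exact hΦ₁ q hq a w hw hwa q1 q2 K _ h (le_max_left _ _) hh q4
  · -- Psi1
    intro v hv hvb
    have hv' : (0 : ℝ) < v := by exact_mod_cast hv
    have hρv : w₁ < rho w₁ v := by
      unfold rho
      have : 0 < (1 - w₁) * (v : ℝ) := by positivity
      linarith
    have hρb := hrb v hvb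
    have hne : ∃ w ∈ Wd, w < rho w₁ v := ⟨w₁, hWd, hρv⟩
    have hle1 : loz (fun v => L v v) Wd w₁ xs v ≤ 1 := by
      unfold loz
      refine csSup_le ⟨_, w₁, hWd, hρv, rfl⟩ ?_
      rintro _ ⟨w', hw', -, rfl⟩
      exact hnm1 _ (hWd1 w' hw')
    refine ⟨hle1, fun h hh => ?_⟩
    rcases lt_or_ge 0 (loz (fun v => L v v) Wd w₁ xs v) with hpos | hpos
    · refine hΨ₁ v hv hρb _ hpos hle1 (fun h' hh' => ?_) h hh
      obtain ⟨w', hw', k1, k2⟩ := loz_ex (D := fun v => L v v) (x := xs) (h := h' / 2)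
        (by linarith) hne
      exact ⟨w', hw', k1, by linarith⟩
    · -- trivial labels
      refine ⟨0, fun τ hτ => ?_⟩
      obtain ⟨q, ψ, hψ, τ₀, hτ₀, J₀, -⟩ := hΨ₂ 1 one_pos
      obtain ⟨J₂, hJ₂⟩ := Pool.GEN.lin (1 : ℝ) (show 0 < (1 - w₁) * (v : ℝ) by positivity)
      refine ⟨q, ψ, hψ, τ₀, hτ₀, max J₀ J₂, ?_⟩
      intro J hJ F A' hS κ C' z z' hcl hDt hlw J' hJJ B hBA hPB
      have hJ2 := hJ₂ J ((le_max_right _ _).trans hJ)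
      have hv1 : (v : ℝ) ≤ 1 := by
        by_contra hcon
        push Not at hcon
        have h3 := mul_lt_mul_of_pos_left hcon h1w
        unfold rho at hρb
        linarith
      have hWr : (⌊w₁ * (J : ℝ)⌋₊ : ℝ) ≤ w₁ * J := Nat.floor_le (by positivity)
      have hsum : (⌊w₁ * (J : ℝ)⌋₊ : ℝ) + J' = J := by exact_mod_cast hJJ
      have hvJ : 1 ≤ (v : ℝ) * J' := by
        have h3 : (1 - w₁) * (J : ℝ) ≤ J' := by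
          have : (1 - w₁) * (J : ℝ) = J - w₁ * J := by ring
          linarith
        have h4 := mul_le_mul_of_nonneg_left h3 hv'.le
        have e1 : (v : ℝ) * ((1 - w₁) * J) = (1 - w₁) * v * J := by ring
        linarith
      have htr : ∀ (G : Fam n J') (B : G.Ω → Prop), (tgs (lst hn)).T () 0 ⌊(v : ℝ) * J'⌋₊
          ⌊(v : ℝ) * J'⌋₊ ⌊(loz (fun v => L v v) Wd w₁ xs v - h) * J'⌋₊ J' G B := by
        intro G B
        refine ⟨[], List.nodup_nil, List.not_mem_nil, Tch.trivial ?_ ?_ le_rfl B⟩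
        · rw [Nat.floor_of_nonpos (mul_nonpos_of_nonpos_of_nonneg (by linarith)
            (Nat.cast_nonneg J')), zero_add]
          exact Nat.le_floor (by exact_mod_cast hvJ)
        · refine Nat.floor_le_of_le ?_
          have := mul_le_mul_of_nonneg_right hv1 (Nat.cast_nonneg (α := ℝ) J')
          linarith
      refine ⟨B, fun _ h => h, ?_, ?_⟩
      swap
      · exact htr _ _
      refine mul_le_of_le_one_left ?_ ?_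
      · exact Pe_nonneg (Fam.isLaw _) _
      rw [Real.exp_le_one_iff]
      have : 0 ≤ τ * (J' : ℝ) := by positivity
      linarith
  · -- the windows
    rintro v ⟨hvA, hv1, hv2⟩
    obtain ⟨x, hx⟩ : ∃ x, x = rho w₁ v := ⟨_, rfl⟩
    have hvx : v = rin w₁ x := by rw [hx, rin_rho h1]
    rw [← hx] at hvA hv1 hv2 ⊢
    obtain ⟨a1, a2, a3, a4, a5, a6⟩ := hA x hvA hv1 hv2
    have hσ : 0 < σ x := by linarith
    have hx0' : 0 ≤ x := by linarith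
    have hDv : loz (fun v => L v v) Wd w₁ xs v = nmz w₁ xs (L x x) := by
      rw [hvx]
      exact loz_eq (D := fun v => L v v) h1 (fun w hw hwx =>
        hLL.mono (hWd0 w hw).1 le_rfl hwx.le hwx.le le_rfl (by linarith)) hWd1 a6 a5
    have hDx := hxpos x hv1 (by linarith)
    have hxb := hinc x wb hx0' hv2 hwb1.le a2
    refine ⟨?_, ?_, a1, ?_, ?_, ?_, ?_⟩
    · rw [hvx]
      unfold rin
      exact div_pos (by linarith) h1w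
    · rw [hvx]
      unfold rin
      exact div_lt_div_of_pos_right (by linarith) h1w
    · rw [hDv, hvx]
      exact upz_rg hw0.le h1 hv1 hv2 hLU0 hNd a3 hσ hDx
    · rw [hDv, hvx]
      refine loz_dg (D := fun v => L v v) hw0.le h1 hv1 hv2 hWd1 a6 ?_ hσ
      intro e he
      exact a4 e he
    · rw [hDv]
      exact hDx
    · rw [hDv]
      unfold nmz
      exact div_lt_div_of_pos_right (by linarith) h1w

/-- **The inequality between two windows**, over `ZBun`. -/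
theorem zbun_x {o : Od n} {l : ℕ} {w₁ wb xs : ℝ} {Req : Type*} {R : Req → DtP n}
    {Nd : Set (ℝ × ℝ)} {LU : ℝ → ℝ → ℝ} (B : ZBun hn S P r P' Λ o l w₁ wb xs R Nd LU) (H : Pk hn S P r P' Λ)
    (hF : FZX 1) (hW : ∀ k, 2 ≤ k → k < n → RW k)
    {s : Fin n → ℝ} {d : ℕ → ℝ} {al : ℝ} {g₀ : ℝ → ℝ} {e₀ : ℝ} {K₀ : ℕ} {N : ℚ → ℚ → ℝ}
    (hal : 0 < al) (hg₀ : ∀ ε : ℝ, 0 < ε → 0 < g₀ ε) (hC : ClX s d al g₀ e₀ K₀ N S)
    (hl1 : 1 ≤ l) (hl : l < n - 1) (hw₁ : w₁ ∈ Gs P r P' Λ o)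
    (hwb : w₁ < wb) (hwb1 : wb < 1) (hx0 : 0 ≤ xs)
    (hc : ∀ ε : ℝ, 0 < ε → ∃ δ : ℝ, 0 < δ ∧ ∀ a w : ℝ, w₁ < w → w ≤ a → a < w₁ + δ →
      LU a w ≤ LL hn P P' o (l + 1) w₁ w₁ + ε)
    (hLU0 : ∀ p ∈ Nd, 0 ≤ LU p.1 p.2)
    (hNd : ∀ a w δ : ℝ, 0 < δ → w₁ < w → w ≤ a → a < wb → ∃ p ∈ Nd, a < p.1 ∧ p.1 < a + δ ∧
      w < p.2 ∧ p.2 < w + δ ∧ p.2 ≤ p.1)
    {A : Set ℝ} {σ : ℝ → ℝ} {s₀ h₀ : ℝ} (hs : 1 < s₀) (hh₀ : h₀ ≤ 1)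
    (hA : ∀ x ∈ A, w₁ < x → x < wb → s₀ ≤ σ x ∧ LL hn P P' o (l + 1) x x < 1 ∧
      RgUp LU x (LL hn P P' o (l + 1) x x) (σ x) ∧
      DgLo (LL hn P P' o (l + 1)) x (LL hn P P' o (l + 1) x x) (σ x) ∧
      ContinuousAt (fun v => LL hn P P' o (l + 1) v v) x ∧ Nogap (Gs P r P' Λ o) x)
    {X : Type} [Countable X] {Ψ : X → Stat n} (hΨu : ∀ x, UPr (Ψ x))
    (hΨ : ∀ x, ∃ q : Req, ZPr S w₁ (ez hn o.1.1 l) (R q) (fun J G B => ¬ Ψ x J G B))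
    (hM : ∀ (S' : PCl n) (P : ℝ → ℝ → ℝ) (r : ℝ → ℝ), ClX (fun _ => 0) (fun _ => 1) al
      (fun x => min (g₀ (x / 2)) 1) 2 0 (NZR S (cc hn o.1.1 0) (al + 1) w₁) S' →
      (∀ x, Bas S' (fun J F A => ¬ Ψ x J F A)) →
      ThrOf (tgs (lst hn)) S' (fun _ => P) → RateOf S' (lst hn) r →
      (∀ v : ℝ, rho w₁ v ∈ A ∩ Ioo w₁ wb → 0 < v ∧ v < 1 ∧ s₀ ≤ σ (rho w₁ v) ∧
        ∃ D : ℝ, 0 < D ∧ RgUp P v D (σ (rho w₁ v)) ∧ DgLo P v D (σ (rho w₁ v))) →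
      RgFull P r h₀ {v | rho w₁ v ∈ A ∩ Ioo w₁ wb}) :
    ENNReal.ofReal ((1 - h₀) * s₀) * volume (A ∩ Ioo w₁ wb) ≤
      ENNReal.ofReal (LL hn P P' o (l + 1) wb wb - LL hn P P' o (l + 1) w₁ w₁ -
        (P wb wb - P w₁ w₁ - (r (P wb wb) - r (P w₁ w₁)))) :=
  zin_x H hF hW hal hg₀ hC hl1 hl hw₁.1.1.1 hwb hwb1 hx0
    (B.xs_le H hw₁.1.1.1 hwb hwb1 hc hNd) B.req hLU0 hNd
    (fun w hw => ⟨hw.1.1.1.le, hw.1.1.2.1.le⟩) hw₁ (by norm_num) B.phi2 B.phi1 B.psi1 B.psi2 hs hh₀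
    hA hΨu hΨ hM

/-- **The inequality between the windows** `w₁` and `w₁ + δ`, from the statements on the zooms. -/
theorem zw_x {o : Od n} {l : ℕ} {w₁ : ℝ} {δ : ℚ} {M : MDat} {Vd : Rq → Prop}
    {β : ℕ → ℝ → ℝ → ℝ} {lamf LU : ℝ → ℝ → ℝ} (Z : Zwd hn P r P' Λ o l w₁ δ M Vd β lamf LU) (H : Pk hn S P r P' Λ)
    (hF : FZX 1) (hW : ∀ k, 2 ≤ k → k < n → RW k)
    {s : Fin n → ℝ} {d : ℕ → ℝ} {al : ℝ} {g₀ : ℝ → ℝ} {e₀ : ℝ} {K₀ : ℕ} {N : ℚ → ℚ → ℝ}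
    (hal : 0 < al) (hg₀ : ∀ ε : ℝ, 0 < ε → 0 < g₀ ε) (hC : ClX s d al g₀ e₀ K₀ N S) {xs : ℝ}
    (hxs : 0 ≤ xs) {Req : Type*} {R : Req → DtP n}
    (B : ZBun hn S P r P' Λ o l w₁ (w₁ + δ) xs R (Ngr w₁ δ) LU)
    {A : Set ℝ} {σ : ℝ → ℝ} {s₀ h₀ : ℝ} (hs : 1 < s₀) (hh₀ : h₀ ≤ 1)
    (hA : ∀ x ∈ A, w₁ < x → x < w₁ + δ → s₀ ≤ σ x ∧ LL hn P P' o (l + 1) x x < 1 ∧
      RgUp LU x (LL hn P P' o (l + 1) x x) (σ x) ∧
      DgLo (LL hn P P' o (l + 1)) x (LL hn P P' o (l + 1) x x) (σ x) ∧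
      ContinuousAt (fun v => LL hn P P' o (l + 1) v v) x ∧ Nogap (Gs P r P' Λ o) x)
    {X : Type} [Countable X] {Ψ : X → Stat n} (hΨu : ∀ x, UPr (Ψ x))
    (hΨ : ∀ x, ∃ q : Req, ZPr S w₁ (ez hn o.1.1 l) (R q) (fun J G B => ¬ Ψ x J G B))
    (hM : ∀ (S' : PCl n) (P : ℝ → ℝ → ℝ) (r : ℝ → ℝ), ClX (fun _ => 0) (fun _ => 1) al
      (fun x => min (g₀ (x / 2)) 1) 2 0 (NZR S (cc hn o.1.1 0) (al + 1) w₁) S' →
      (∀ x, Bas S' (fun J F A => ¬ Ψ x J F A)) →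
      ThrOf (tgs (lst hn)) S' (fun _ => P) → RateOf S' (lst hn) r →
      (∀ v : ℝ, rho w₁ v ∈ A ∩ Ioo w₁ (w₁ + δ) → 0 < v ∧ v < 1 ∧ s₀ ≤ σ (rho w₁ v) ∧
        ∃ D : ℝ, 0 < D ∧ RgUp P v D (σ (rho w₁ v)) ∧ DgLo P v D (σ (rho w₁ v))) →
      RgFull P r h₀ {v | rho w₁ v ∈ A ∩ Ioo w₁ (w₁ + δ)}) :
    ENNReal.ofReal ((1 - h₀) * s₀) * volume (A ∩ Ioo w₁ (w₁ + δ)) ≤
      ENNReal.ofReal (LL hn P P' o (l + 1) (w₁ + δ) (w₁ + δ) - LL hn P P' o (l + 1) w₁ w₁ -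
        (P (w₁ + δ) (w₁ + δ) - P w₁ w₁ - (r (P (w₁ + δ) (w₁ + δ)) - r (P w₁ w₁)))) :=
  zbun_x B H hF hW hal hg₀ hC Z.l1 Z.ln Z.g1 (by
    have : (0 : ℝ) < δ := by exact_mod_cast Z.δ0
    linarith) Z.gb.1.1.2.1 hxs Z.near Z.lu0 (fun a w ε => ngr_dense a w ε) hs hh₀ hA hΨu hΨ hM

end Pool.SW
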