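import Pool.Agent.H19.SW.Rc
import Pool.Agent.H19.SW.Nt
import Pool.Agent.H19.SW.Zi
import Pool.Agent.H52.SUM.Clh
import Pool.Agent.H52.SUM.Clg
import Pool.Agent.H82.ZF.Fin

/-!
# The rows of the zooms are full

`rows_c`: for a class in which the numbers of the slots are known at countably many windows, the rows
of the rough windows are full, if the slopes of the numbers of the slots have the property `C` and if
there are no boxes (`VNoC C`). `zw_c`: the inequality between two windows with no loss.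
-/

set_option autoImplicit false

namespace Pool.SW

open MeasureTheory Set Filter Topology Pool.LEV Pool.STR
open Pool.ZFN (RgUp DgLo RgFull)
open Pool.Z4 (rho vol_rin)

/-- **The diagonal** at a rough window. -/
theorem dia_der {P : ℝ → ℝ → ℝ} {g D σ : ℝ} (hU : RgUp P g D σ) (hL : DgLo P g D σ) :
    HasDerivAt (fun v => P v v) σ g := by
  have hD : P g g = D := by
    refine le_antisymm (le_of_forall_pos_le_add fun ε hε => ?_)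
      (le_of_forall_pos_le_add fun ε hε => ?_)
    · obtain ⟨r₁, hr₁, h1⟩ := hU 1 one_pos
      obtain ⟨r, hr⟩ : ∃ r, r = min (r₁ / 2) ε := ⟨_, rfl⟩
      have h0 : 0 < r := by rw [hr]; exact lt_min (by linarith) hε
      have h2 : r ≤ r₁ / 2 := by rw [hr]; exact min_le_left _ _
      have h3 : r ≤ ε := by rw [hr]; exact min_le_right _ _
      have h4 := h1 r h0 (by linarith) g g (by linarith) le_rfl (by linarith)
      rw [sub_self, mul_zero] at h4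
      linarith
    · obtain ⟨r₁, hr₁, h1⟩ := hL 1 one_pos
      obtain ⟨r, hr⟩ : ∃ r, r = min (r₁ / 2) ε := ⟨_, rfl⟩
      have h0 : 0 < r := by rw [hr]; exact lt_min (by linarith) hε
      have h2 : r ≤ r₁ / 2 := by rw [hr]; exact min_le_left _ _
      have h3 : r ≤ ε := by rw [hr]; exact min_le_right _ _
      have h4 := h1 r h0 (by linarith) g (by linarith) (by linarith)
      rw [sub_self, mul_zero] at h4
      linarith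
  rw [hasDerivAt_iff_isLittleO, Asymptotics.isLittleO_iff]
  intro c hc
  obtain ⟨r₁, hr₁, h1⟩ := hU c hc
  obtain ⟨r₂, hr₂, h2⟩ := hL c hc
  refine Metric.eventually_nhds_iff.2 ⟨min r₁ r₂, lt_min hr₁ hr₂, fun v hv => ?_⟩
  rw [Real.dist_eq] at hv
  simp only [smul_eq_mul, Real.norm_eq_abs]
  rcases (abs_nonneg (v - g)).eq_or_lt with h3 | h3
  · have h4 : v = g := by
      have := abs_eq_zero.1 h3.symm
      linarith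
    rw [h4]
    simp
  · obtain ⟨a1, a2⟩ := abs_le.1 (le_refl |v - g|)
    have h4 := h1 |v - g| h3 (hv.trans_le (min_le_left _ _)) v v (by linarith) le_rfl (by linarith)
    have h5 := h2 |v - g| h3 (hv.trans_le (min_le_right _ _)) v (by linarith) (by linarith)
    rw [hD, abs_le]
    have e1 : (v - g) * σ = σ * (v - g) := mul_comm _ _
    constructor <;> linarith

/-- Almost all windows, in the units of the zoom. -/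
theorem ae_rho {w₁ : ℝ} (h1 : w₁ < 1) {p : ℝ → Prop} (h : ∀ᵐ x : ℝ, p x) :
    ∀ᵐ v : ℝ, p (rho w₁ v) := by
  have h2 := vol_rin h1 {x | ¬ p x}
  rw [ae_iff.1 h] at h2
  rw [ae_iff]
  rcases mul_eq_zero.1 h2 with h3 | h3
  · exact absurd (ENNReal.ofReal_eq_zero.1 h3) (by linarith)
  · exact h3

end Pool.SW

namespace Pool.PKG

open MeasureTheory Set Filter Topology
open Pool.Agent.H49.Ent Pool.Agent.H32.Dense Pool.STK Pool.KA Pool.KSAT Pool.K2S Pool.PB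
open Pool.GEN Pool.S6C Pool.STAT Pool.CHT Pool.GRW Pool.ONE Pool.STA Pool.EXW
open Pool.LBT (LSys ThrOf)
open Pool.LEV (Law Lv)
open Pool.ALL (RateOf)
open Pool.TOP (TopS)
open Pool.STR (NumI)
open Pool.SW (Rgh rgh_of rgFull_ae dia_der)
open Pool.ZFN (RgUp DgLo RgFull)

variable {n : ℕ} {hn : 2 ≤ n} {S : PCl n} {P : ℝ → ℝ → ℝ} {r : ℝ → ℝ}
  {P' : ℕ → List (Fin n) × Fin n → ℝ → ℝ → ℝ} {Λ : Finset (Fin n) → Fin n → ℝ → ℝ → ℝ}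
  {PB : ℕ → List (Fin n) × Fin n → ℝ → ℝ → ℝ}

/-- **No boxes**, for all packages. -/
def VAll (hn : 2 ≤ n) (hTop : TopS n) (hF : FZX (n - 1)) (C : (Fin (n - 1) → ℝ) → ℝ → Prop) :
    Prop :=
  ∀ (S : PCl n) (P : ℝ → ℝ → ℝ) (r : ℝ → ℝ) (P' : ℕ → List (Fin n) × Fin n → ℝ → ℝ → ℝ)
    (Λ : Finset (Fin n) → Fin n → ℝ → ℝ → ℝ) (PB : ℕ → List (Fin n) × Fin n → ℝ → ℝ → ℝ)
    (H : PkT hn S P r P' Λ PB), VNoC C H hTop hF

/-- **The slopes of the slots** have the property `C`: every family of slopes which begins with `1`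
and continues with slopes `τ j`. -/
def Cok (C : (Fin (n - 1) → ℝ) → ℝ → Prop) (τ : ℕ → ℝ) (σ : ℝ) : Prop :=
  ∀ s : Fin (n - 1) → ℝ, (∀ i : Fin (n - 1), (i : ℕ) = 0 → s i = 1) →
    (∀ i : Fin (n - 1), 1 ≤ (i : ℕ) → ∃ j, 1 ≤ j ∧ j < n - 1 ∧ s i = τ j) → C s σ

/-- **The rows of the rough windows** of a class with known numbers of the slots. -/
theorem rows_c (hTop : TopS n) (hF : FZX (n - 1)) (hn4 : n ≤ 4)
    (hW : ∀ k, 2 ≤ k → k < n → Pool.TOP.RW k) {C : (Fin (n - 1) → ℝ) → ℝ → Prop}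
    (hCm : MeasurableSet {p : (Fin (n - 1) → ℝ) × ℝ | C p.1 p.2}) (hV : VAll hn hTop hF C)
    {s : Fin n → ℝ} {d : ℕ → ℝ} {al : ℝ} {g₀ : ℝ → ℝ} {e₀ : ℝ} {K₀ : ℕ} {N : ℚ → ℚ → ℝ}
    (hal : 0 < al) (hg₀ : ∀ ε : ℝ, 0 < ε → 0 < g₀ ε) (hC : ClX s d al g₀ e₀ K₀ N S)
    (hT : ThrOf (tgs (lst hn)) S (fun _ => P)) (hr : RateOf S (lst hn) r)
    {b₁ : ℝ} {X : Set ℝ} {q : ℕ → ℝ → ℝ}
    (hX : ∀ y : Fct n b₁ X q, Bas S (fun J F A => ¬ Bdf 8 b₁ X q y J F A))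
    {E : Set ℝ} {σ : ℝ → ℝ}
    (hE : ∀ᵐ v : ℝ, v ∈ E → (0 < v ∧ v < b₁ ∧ (∀ δ : ℝ, 0 < δ → ∃ x ∈ X, v < x ∧ x < v + δ) ∧
      ∀ δ : ℝ, 0 < δ → ∃ x ∈ X, v - δ < x ∧ x < v) ∧
      (∀ i, 1 ≤ i → i < n - 1 → DifferentiableAt ℝ (q i) v ∧ v ≤ q i v ∧ q i v ≤ 1) ∧
      Cok C (fun j => deriv (q j) v) (σ v))
    (hR : ∀ v ∈ E, ∃ D : ℝ, 0 < D ∧ RgUp P v D (σ v) ∧ DgLo P v D (σ v)) :
    RgFull P r 0 E := by
  obtain ⟨S₁, P', Λ, PB, hsub, -, H⟩ := pkT_ex hn hal hg₀ hC hT hr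
  have hQ : SlqX S₁ 8 b₁ X q := (slqX_of hX).sub hsub
  have hlaw := H.tgs.law ()
  refine rgFull_ae hlaw (PkT.rgFull_c hCm H hTop hF (hV _ _ _ _ _ _ H)) ?_
  obtain ⟨E', hE'⟩ : ∃ E' : Set ℝ, E' = {v | (0 < v ∧ v < b₁ ∧
      (∀ δ : ℝ, 0 < δ → ∃ x ∈ X, v < x ∧ x < v + δ) ∧
      ∀ δ : ℝ, 0 < δ → ∃ x ∈ X, v - δ < x ∧ x < v) ∧
      (∀ i, 1 ≤ i → i < n - 1 → DifferentiableAt ℝ (q i) v ∧ v ≤ q i v ∧ q i v ≤ 1)} := ⟨_, rfl⟩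
  have hmem : ∀ v ∈ E', (0 < v ∧ v < b₁ ∧
      (∀ δ : ℝ, 0 < δ → ∃ x ∈ X, v < x ∧ x < v + δ) ∧
      ∀ δ : ℝ, 0 < δ → ∃ x ∈ X, v - δ < x ∧ x < v) ∧
      (∀ i, 1 ≤ i → i < n - 1 → DifferentiableAt ℝ (q i) v ∧ v ≤ q i v ∧ q i v ≤ 1) := by
    intro v hv
    rw [hE'] at hv
    exact hv
  have hb := H.base_slots hTop hF hn4 hW (R := 8) (b₁ := b₁) (by norm_num) (X := X) (E := E')
    (fun v hv => (hmem v hv).1) (q := q)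
    (fun i h1 h2 => ae_of_all _ fun v hv => ((hmem v hv).2 i h1 h2).1)
    (fun i h1 h2 v hv => ((hmem v hv).2 i h1 h2).2.1)
    (fun i h1 h2 v hv => ((hmem v hv).2 i h1 h2).2.2) hQ
  filter_upwards [hE, hb] with v h1 h2 hv hDσ
  obtain ⟨k1, k2, k3⟩ := h1 hv
  obtain ⟨D, -, hU, hL⟩ := hR v hv
  refine ⟨rgh_of hU hL, fun o ho => ?_⟩
  rw [(dia_der hU hL).deriv]
  obtain ⟨h4, h5⟩ := h2 (by
    rw [hE']
    exact ⟨k1, k2⟩) o ho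
  refine k3 _ (fun i hi => ?_) fun i hi => ?_
  · unfold slo
    rw [hi]
    exact h4
  · exact h5 i hi i.2

end Pool.PKG

namespace Pool.SW

open MeasureTheory Set Filter Topology
open Finset (range univ)
open Pool.Agent.H49.Ent Pool.Agent.H32.Dense Pool.STK Pool.KA Pool.KSAT Pool.K2S Pool.PB Pool.S6C
open Pool.GEN Pool.ONE Pool.EXW Pool.TOP Pool.ZCL Pool.ZLC Pool.ZFN Pool.ZCO Pool.PKG Pool.CHT
open Pool.Z4
open Pool.LBT (ThrOf)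
open Pool.LEV (Law)
open Pool.ALL (RateOf)
open Pool.BSM (qz qz_ge qz_le qz_deriv fct_A fct_B1 qz_le1 Xz xz_cnt xz_lim Lbp lbp_ae psn_grid)
open Pool.PSI (PsN co)

variable {n : ℕ} {hn : 2 ≤ n} {S : PCl n} {P : ℝ → ℝ → ℝ} {r : ℝ → ℝ}
  {P' : ℕ → List (Fin n) × Fin n → ℝ → ℝ → ℝ} {Λ : Finset (Fin n) → Fin n → ℝ → ℝ → ℝ}
  {o : Od n} {l : ℕ} {w₁ : ℝ} {δ : ℚ} {M : MDat} {Vd : Rq → Prop} {β : ℕ → ℝ → ℝ → ℝ}
  {lamf LU : ℝ → ℝ → ℝ}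

/-- The numbers at the windows of the grid. -/
theorem Zwd_psn (Z : Zwd hn P r P' Λ o l w₁ δ M Vd β lamf LU) (H : Pk hn S P r P' Λ) {G : Set ℝ}
    (hG : G ⊆ Gs P r P' Λ o)
    (hlam : ∀ x : ℚ, 0 < x → x < δ → w₁ + x ∈ G → lamf (w₁ + x) (w₁ + x) = 0) :
    ∀ x ∈ Xz w₁ δ G, rho w₁ x ∈ Gs P r P' Λ o ∧
      PsN hn P P' o (co M (n - 1)) β Vd (rho w₁ x) := by
  rintro x ⟨r', h1, h2, h3, h4⟩
  rw [h4]
  exact ⟨hG h3, psn_grid H Z.g1.1.1.1.le Z.gb.1.1.2.1.le Z.co.bet (Z.co.num _ (Or.inr rfl)) Z.co.vd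
    h1.le h2.le (hlam r' h1 h2 h3)⟩

/-- The windows of the set, in the units of the zoom. -/
theorem ae_slots (Z : Zwd hn P r P' Λ o l w₁ δ M Vd β lamf LU) (H : Pk hn S P r P' Λ) {G : Set ℝ}
    (hGm : MeasurableSet G)
    (hgrid : ∀ x : ℝ, Lbp G x → ∀ δ : ℝ, 0 < δ → (∃ r : ℚ, w₁ + r ∈ G ∧ x < w₁ + r ∧
      w₁ + r < x + δ) ∧ ∃ r : ℚ, w₁ + r ∈ G ∧ x - δ < w₁ + r ∧ w₁ + r < x) {xs : ℝ}
    (hx0 : 0 ≤ xs) (hxE : β (n - 1) (w₁ + δ) (w₁ + δ) + xs ≤ 1) {A : Set ℝ} (hAG : A ⊆ G)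
    {C : (Fin (n - 1) → ℝ) → ℝ → Prop} {σ : ℝ → ℝ}
    (hCA : ∀ x ∈ A, w₁ < x → x < w₁ + δ →
      Cok C (fun j => deriv (fun v => LL hn P P' o (ix l j + 1) v v) x) (σ x)) :
    ∀ᵐ v : ℝ, v ∈ {v | rho w₁ v ∈ A ∩ Ioo w₁ (w₁ + δ)} → (0 < v ∧ v < rin w₁ (w₁ + δ) ∧
      (∀ ε : ℝ, 0 < ε → ∃ x ∈ Xz w₁ δ G, v < x ∧ x < v + ε) ∧
      ∀ ε : ℝ, 0 < ε → ∃ x ∈ Xz w₁ δ G, v - ε < x ∧ x < v) ∧
      (∀ i, 1 ≤ i → i < n - 1 → DifferentiableAt ℝ (qz hn P P' o l w₁ xs i) v ∧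
        v ≤ qz hn P P' o l w₁ xs i v ∧ qz hn P P' o l w₁ xs i v ≤ 1) ∧
      Cok C (fun j => deriv (qz hn P P' o l w₁ xs j) v) (σ (rho w₁ v)) := by
  have hw0 : 0 < w₁ := Z.g1.1.1.1
  have hw1 : w₁ < 1 := Z.g1.1.1.2.1
  have hb1 : w₁ + δ < 1 := Z.gb.1.1.2.1
  have h01 : 0 < 1 - w₁ := by linarith
  have hdif : ∀ᵐ x : ℝ, ∀ i : ℕ, i < n - 1 → 0 < x → x < 1 →
      DifferentiableAt ℝ (fun v => LL hn P P' o (ix l i + 1) v v) x := by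
    refine ae_all_iff.2 fun i => ?_
    by_cases hi : i < n - 1
    · filter_upwards [Pool.STR.dia_ae (Pool.PSI.ll_law (o := o) H (ix_le (l := l) hi)).1]
        with x h1 _ h2 h3
      exact h1 h2 h3
    · exact ae_of_all _ fun x h => absurd h hi
  filter_upwards [ae_rho hw1 (lbp_ae hGm), ae_rho hw1 hdif] with v h1 h2 hv
  have hvA : rho w₁ v ∈ A := hv.1
  have hv1 : w₁ < rho w₁ v := hv.2.1
  have hv2 : rho w₁ v < w₁ + δ := hv.2.2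
  have hr : rho w₁ v = w₁ + (1 - w₁) * v := rfl
  have v0 : 0 < v := by
    rw [hr] at hv1
    have h3 : 0 < (1 - w₁) * v := by linarith
    exact (mul_pos_iff_of_pos_left h01).1 h3
  have v1 : v < rin w₁ (w₁ + δ) := by
    unfold rin
    rw [lt_div_iff₀ h01]
    rw [hr] at hv2
    linarith
  have v2 : v ≤ 1 := by
    rw [hr] at hv2
    have h3 : (1 - w₁) * v < (1 - w₁) * 1 := by linarith
    exact (lt_of_mul_lt_mul_left h3 h01.le).le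
  obtain ⟨k1, k2⟩ := xz_lim hw1 hv1 hv2 (hgrid _ (h1 (hAG hvA)))
  have hder : ∀ i, i < n - 1 → HasDerivAt (qz hn P P' o l w₁ xs i)
      (deriv (fun v => LL hn P P' o (ix l i + 1) v v) (rho w₁ v)) v := fun i hi =>
    qz_deriv hw1 (h2 i hi (by linarith) (by linarith)).hasDerivAt
  refine ⟨⟨v0, v1, k1, k2⟩, fun i hi1 hi2 => ⟨(hder i hi2).differentiableAt,
    qz_ge H hw0 hw1 hx0 hi2 v0.le v2, ?_⟩, ?_⟩
  · -- the numbers are at most one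
    have e1 := Pool.BSM.qz_mul (hn := hn) (P := P) (P' := P') (o := o) (l := l) (xs := xs) hw1 i v
    have h3 := Z.num _ (Or.inr rfl) _ (ix_le (l := l) hi2)
    rw [Z.bet _ (ix_le (l := l) hi2)] at h3
    have h4 := (Pool.PSI.ll_law (o := o) H (ix_le (l := l) hi2)).1.mono (a := rho w₁ v)
      (w := rho w₁ v) (a' := w₁ + δ) (w' := w₁ + δ) (by linarith) le_rfl hv2.le hv2.le le_rfl
      hb1.le
    have h6 := Z.ok.ϱ0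
    have h7 : qz hn P P' o l w₁ xs i v * (1 - w₁) ≤ 1 * (1 - w₁) := by
      rw [e1]
      split_ifs with h8
      · have h9 : ix l i = n - 1 := by
          have := Z.ln
          unfold ix
          rw [if_neg (by omega)]
          omega
        have h10 := Z.bet (n - 1) le_rfl (w₁ + δ) (w₁ + δ)
        rw [h9] at h4 ⊢
        linarith
      · have h9 := Z.ok.E0
        linarith
    exact le_of_mul_le_mul_right h7 h01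
  · intro s hs0 hs1
    refine hCA _ hvA hv1 hv2 s hs0 fun i hi => ?_
    obtain ⟨j, hj1, hj2, hj3⟩ := hs1 i hi
    refine ⟨j, hj1, hj2, ?_⟩
    rw [hj3]
    exact (hder j hj2).deriv

/-- **The inequality between two windows** with no loss, from the data on the events of the class. -/
theorem zw_c' (Z : Zwd hn P r P' Λ o l w₁ δ M Vd β lamf LU) (H : Pk hn S P r P' Λ)
    (hTop : Pool.TOP.TopS n) (hF1 : FZX 1) (hF : FZX (n - 1)) (hn4 : n ≤ 4)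
    (hW : ∀ k, 2 ≤ k → k < n → RW k) {C : (Fin (n - 1) → ℝ) → ℝ → Prop}
    (hCm : MeasurableSet {p : (Fin (n - 1) → ℝ) × ℝ | C p.1 p.2}) (hV : VAll hn hTop hF C)
    {s : Fin n → ℝ} {d : ℕ → ℝ} {al : ℝ} {g₀ : ℝ → ℝ} {e₀ : ℝ} {K₀ : ℕ} {N : ℚ → ℚ → ℝ}
    (hal : 0 < al) (hg₀ : ∀ ε : ℝ, 0 < ε → 0 < g₀ ε) (hC : ClX s d al g₀ e₀ K₀ N S)
    {E₁ : ℝ} (hE₁ : 0 ≤ E₁) (hE : β (n - 1) (w₁ + δ) (w₁ + δ) + E₁ < 1)
    (hVd : ∀ q, Vd q → q.w ≤ q.a ∧ q.a ≤ 1)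
    (hM₀ : MEvt S M w₁ E₁ (cc hn o.1.1) (n - 1) l β Vd)
    {G : Set ℝ} (hG : G ⊆ Gs P r P' Λ o) (hGm : MeasurableSet G)
    (hgrid : ∀ x : ℝ, Lbp G x → ∀ δ : ℝ, 0 < δ → (∃ r : ℚ, w₁ + r ∈ G ∧ x < w₁ + r ∧
      w₁ + r < x + δ) ∧ ∃ r : ℚ, w₁ + r ∈ G ∧ x - δ < w₁ + r ∧ w₁ + r < x)
    (hlam : ∀ x : ℚ, 0 < x → x < δ → w₁ + x ∈ G → lamf (w₁ + x) (w₁ + x) = 0)
    {A : Set ℝ} {σ : ℝ → ℝ} {s₀ : ℝ} (hs : 1 < s₀) (hAG : A ⊆ G)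
    (hA : ∀ x ∈ A, w₁ < x → x < w₁ + δ → s₀ ≤ σ x ∧ LL hn P P' o (l + 1) x x < 1 ∧
      RgUp LU x (LL hn P P' o (l + 1) x x) (σ x) ∧
      DgLo (LL hn P P' o (l + 1)) x (LL hn P P' o (l + 1) x x) (σ x) ∧
      ContinuousAt (fun v => LL hn P P' o (l + 1) v v) x ∧ Nogap (Gs P r P' Λ o) x)
    (hCA : ∀ x ∈ A, w₁ < x → x < w₁ + δ →
      Cok C (fun j => deriv (fun v => LL hn P P' o (ix l j + 1) v v) x) (σ x)) :
    ENNReal.ofReal ((1 - 0) * s₀) * volume (A ∩ Ioo w₁ (w₁ + δ)) ≤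
      ENNReal.ofReal (LL hn P P' o (l + 1) (w₁ + δ) (w₁ + δ) - LL hn P P' o (l + 1) w₁ w₁ -
        (P (w₁ + δ) (w₁ + δ) - P w₁ w₁ - (r (P (w₁ + δ) (w₁ + δ)) - r (P w₁ w₁)))) := by
  have hw0 : 0 < w₁ := Z.g1.1.1.1
  have hw1 : w₁ < 1 := Z.g1.1.1.2.1
  have hb1 : w₁ + δ < 1 := Z.gb.1.1.2.1
  have h01 : 0 < 1 - w₁ := by linarith
  have hrin : rin w₁ (w₁ + δ) ≤ 1 := by
    unfold rin
    rw [div_le_one h01]
    linarith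
  have Z' := Z.co
  have hpsn := Zwd_psn Z H hG hlam
  have key : ∀ xs : ℝ, 0 ≤ xs → β (n - 1) (w₁ + δ) (w₁ + δ) + xs ≤ 1 → ∀ {Req : Type 1} {R : Req → DtP n},
      ZBun hn S P r P' Λ o l w₁ (w₁ + δ) xs R (Ngr w₁ δ) LU →
      (∀ y : Fct n (rin w₁ (w₁ + δ)) (Xz w₁ δ G) (qz hn P P' o l w₁ xs), ∃ q : Req,
        ZPr S w₁ (ez hn o.1.1 l) (R q)
          (fun J F B => ¬ Bdf 8 (rin w₁ (w₁ + δ)) (Xz w₁ δ G) (qz hn P P' o l w₁ xs) y J F B)) →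
      ENNReal.ofReal ((1 - 0) * s₀) * volume (A ∩ Ioo w₁ (w₁ + δ)) ≤
        ENNReal.ofReal (LL hn P P' o (l + 1) (w₁ + δ) (w₁ + δ) - LL hn P P' o (l + 1) w₁ w₁ -
          (P (w₁ + δ) (w₁ + δ) - P w₁ w₁ - (r (P (w₁ + δ) (w₁ + δ)) - r (P w₁ w₁)))) := by
    intro xs hx0 hxE Req R B hfct
    have hcnt : Countable (Fct n (rin w₁ (w₁ + δ)) (Xz w₁ δ G) (qz hn P P' o l w₁ xs)) :=
      fct_cnt _ (xz_cnt hw1 δ G) _
    refine zw_x Z H hF1 hW hal hg₀ hC hx0 B hs zero_le_one hA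
      (Ψ := Bdf 8 (rin w₁ (w₁ + δ)) (Xz w₁ δ G) (qz hn P P' o l w₁ xs))
      (fun y => bdf_upr _ _ _ _ y) hfct fun S' P₁ r₁ hC₁ hX₁ hT₁ hr₁ hE₁' => ?_
    refine rows_c (σ := fun v => σ (rho w₁ v)) hTop hF hn4 hW hCm hV hal
      (fun x hx => lt_min (hg₀ _ (half_pos hx)) one_pos) hC₁ hT₁ hr₁ hX₁
      (ae_slots Z H hGm hgrid hx0 hxE hAG hCA) fun v hv => ?_
    obtain ⟨-, -, -, D, hD, hU, hL⟩ := hE₁' v hv
    exact ⟨D, hD, hU, hL⟩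
  rcases zbun_or' Z H hTop hF hC.ne hE₁ hE hVd hM₀ with hB | ⟨xs, hx0, hx1, -, hB⟩
  · have h3 := Z.num _ (Or.inr rfl) (n - 1) le_rfl
    have h4 := Z.ok.E0
    have h5 := Z.ok.ϱ0
    refine key 0 le_rfl (by linarith) hB fun y => ?_
    exact fct_A H hF Z.ln hw0 hw1 hrin Z'.ok.E0 Z'.ok.ϱ0 Z'.ok.d0 hpsn y
  · have h3 : β (n - 1) (w₁ + δ) (w₁ + δ) + xs ≤ 1 := by linarith
    refine key xs hx0 h3 hB fun y => ?_
    refine fct_B1 (M := co M (n - 1)) H hF Z.ln hw0 hw1 hrin hx0 Z'.ok.E0 Z'.ok.ϱ0 Z'.ok.d0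
      hpsn (fun x hx i hi => ?_) y
    refine qz_le1 (M := co M (n - 1)) hw1 Z'.ok.E0 Z'.ok.ϱ0 ?_ (hpsn x hx).2 hi
    have h9 : ix l (n - 2) = n - 1 := by
      have := Z.ln
      unfold ix
      rw [if_neg (by omega)]
      omega
    obtain ⟨r', h1, h2, -, h4⟩ := hx
    have h1' : (0 : ℝ) < r' := by exact_mod_cast h1
    have h2' : (r' : ℝ) < δ := by exact_mod_cast h2
    rw [h9, h4]
    have h5 := (Pool.PSI.ll_law (o := o) H (le_refl (n - 1))).1.mono (a := w₁ + r') (w := w₁ + r')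
      (a' := w₁ + δ) (w' := w₁ + δ) (by linarith) le_rfl (by linarith) (by linarith) le_rfl hb1.le
    have h10 := Z.bet (n - 1) le_rfl (w₁ + δ) (w₁ + δ)
    linarith

/-- The inequality, if the number of the shear is at most `M.E`. -/
theorem zw_c (Z : Zwd hn P r P' Λ o l w₁ δ M Vd β lamf LU) (H : Pk hn S P r P' Λ)
    (hTop : Pool.TOP.TopS n) (hF1 : FZX 1) (hF : FZX (n - 1)) (hn4 : n ≤ 4)
    (hW : ∀ k, 2 ≤ k → k < n → RW k) {C : (Fin (n - 1) → ℝ) → ℝ → Prop}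
    (hCm : MeasurableSet {p : (Fin (n - 1) → ℝ) × ℝ | C p.1 p.2}) (hV : VAll hn hTop hF C)
    {s : Fin n → ℝ} {d : ℕ → ℝ} {al : ℝ} {g₀ : ℝ → ℝ} {e₀ : ℝ} {K₀ : ℕ} {N : ℚ → ℚ → ℝ}
    (hal : 0 < al) (hg₀ : ∀ ε : ℝ, 0 < ε → 0 < g₀ ε) (hC : ClX s d al g₀ e₀ K₀ N S)
    {E₁ : ℝ} (hE₁ : 0 ≤ E₁) (hE : E₁ ≤ M.E) (hVd : ∀ q, Vd q → q.w ≤ q.a ∧ q.a ≤ 1)
    (hM₀ : MEvt S M w₁ E₁ (cc hn o.1.1) (n - 1) l β Vd)
    {G : Set ℝ} (hG : G ⊆ Gs P r P' Λ o) (hGm : MeasurableSet G)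
    (hgrid : ∀ x : ℝ, Lbp G x → ∀ δ : ℝ, 0 < δ → (∃ r : ℚ, w₁ + r ∈ G ∧ x < w₁ + r ∧
      w₁ + r < x + δ) ∧ ∃ r : ℚ, w₁ + r ∈ G ∧ x - δ < w₁ + r ∧ w₁ + r < x)
    (hlam : ∀ x : ℚ, 0 < x → x < δ → w₁ + x ∈ G → lamf (w₁ + x) (w₁ + x) = 0)
    {A : Set ℝ} {σ : ℝ → ℝ} {s₀ : ℝ} (hs : 1 < s₀) (hAG : A ⊆ G)
    (hA : ∀ x ∈ A, w₁ < x → x < w₁ + δ → s₀ ≤ σ x ∧ LL hn P P' o (l + 1) x x < 1 ∧
      RgUp LU x (LL hn P P' o (l + 1) x x) (σ x) ∧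
      DgLo (LL hn P P' o (l + 1)) x (LL hn P P' o (l + 1) x x) (σ x) ∧
      ContinuousAt (fun v => LL hn P P' o (l + 1) v v) x ∧ Nogap (Gs P r P' Λ o) x)
    (hCA : ∀ x ∈ A, w₁ < x → x < w₁ + δ →
      Cok C (fun j => deriv (fun v => LL hn P P' o (ix l j + 1) v v) x) (σ x)) :
    ENNReal.ofReal ((1 - 0) * s₀) * volume (A ∩ Ioo w₁ (w₁ + δ)) ≤
      ENNReal.ofReal (LL hn P P' o (l + 1) (w₁ + δ) (w₁ + δ) - LL hn P P' o (l + 1) w₁ w₁ -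
        (P (w₁ + δ) (w₁ + δ) - P w₁ w₁ - (r (P (w₁ + δ) (w₁ + δ)) - r (P w₁ w₁)))) :=
  zw_c' Z H hTop hF1 hF hn4 hW hCm hV hal hg₀ hC hE₁ (Z.e1 hE) hVd hM₀ hG hGm hgrid hlam hs hAG
    hA hCA

end Pool.SW
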