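import Pool.Agent.H19.SW.Mv
import Pool.Agent.H78.MIC.ClsK

/-!
# The rows at the windows without ties are full

`Gc`: the windows at which the target has a slope larger than two and no coordinate of a good order
has the same slope. `VNo`: no boxes, if the windows of the nonfull rows have no ties.
`PkT.rgFull_nt`: the rows of the rough windows in `Gc` are full, if (`VNo`) there are no boxes
without ties and if a macroscopic gain of a target of slope larger than two is static.
-/

set_option autoImplicit false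

namespace Pool.SW

open MeasureTheory Set Filter Topology Pool.LEV Pool.STR

/-- The level of the row of a window. -/
theorem lv_dia {P : ℝ → ℝ → ℝ} (hP : Law P) {g : ℝ} (h0 : 0 < g) (h1 : g < 1) (h2 : 0 ≤ P g g)
    (h3 : P g g < 1) : Lv P (P g g, 0) = g := by
  have e1 : Lv P (P g g, 0) = lev P (P g g) 0 := Lv_eq le_rfl zero_le_one h2 h3.le
  rw [e1]
  refine le_antisymm (lev_le ⟨h0.le, h1.le, Or.inl (by rw [sub_zero])⟩) ?_
  refine le_csInf ⟨1, one_mem zero_le_one⟩ ?_
  rintro a ⟨a0, a1, h4⟩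
  by_contra hcon
  push Not at hcon
  rcases h4 with h4 | h4
  · rw [sub_zero] at h4
    have h5 := hP.slope a a (g - a) a0 le_rfl (by linarith) (by linarith)
    rw [add_sub_cancel] at h5
    have h6 := hP.mono_w g a g a0 hcon.le le_rfl h1.le
    rcases min_le_iff.1 h5 with h7 | h7 <;> linarith
  · linarith

end Pool.SW

namespace Pool.PKG

open MeasureTheory Set Filter Topology
open Pool.Agent.H49.Ent Pool.Agent.H32.Dense Pool.STK Pool.KA Pool.KSAT Pool.K2S Pool.PB
open Pool.GEN Pool.S6C Pool.STAT Pool.CHT Pool.GRW Pool.ONE Pool.STA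
open Pool.LBT (LSys ThrOf)
open Pool.LEV (Law Lv)
open Pool.ALL (RateOf)
open Pool.TOP (TopS)
open Pool.STR (NumI LeT CellD Rle RowD Mac TopW StaAt IsoAt ThinAt SteepAt ae_rowD ae_dia)
open Pool.SW (rs Er rle_rs er_meas rs_row lv_dia)

variable {n : ℕ} {hn : 2 ≤ n} {S : PCl n} {P : ℝ → ℝ → ℝ} {r : ℝ → ℝ}
  {P' : ℕ → List (Fin n) × Fin n → ℝ → ℝ → ℝ} {Λ : Finset (Fin n) → Fin n → ℝ → ℝ → ℝ}
  {PB : ℕ → List (Fin n) × Fin n → ℝ → ℝ → ℝ}

/-- **The windows without ties**, the slope of the target is larger than two. -/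
def Gc (H : PkT hn S P r P' Λ PB) (hTop : TopS n) (hF : FZX (n - 1)) : Set ℝ :=
  {g | 2 < deriv (fun a => P a a) g ∧ ∀ o : Od n, g ∈ Gs P r P' Λ o → ∀ l < n - 1,
    deriv ((H.nk hTop hF).dg o l) g ≠ deriv (fun a => P a a) g}

theorem gc_meas (H : PkT hn S P r P' Λ PB) (hTop : TopS n) (hF : FZX (n - 1)) :
    MeasurableSet (Gc H hTop hF) := by
  have h1 : MeasurableSet {g : ℝ | 2 < deriv (fun a => P a a) g} :=
    measurableSet_lt measurable_const (measurable_deriv _)
  have h2 : MeasurableSet (⋂ o : Od n, (Gs P r P' Λ o)ᶜ ∪ ⋂ l : Fin (n - 1),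
      {g : ℝ | deriv ((H.nk hTop hF).dg o l) g = deriv (fun a => P a a) g}ᶜ) :=
    MeasurableSet.iInter fun o => ((H.toPk.gs_meas o).compl).union
      (MeasurableSet.iInter fun l =>
        (measurableSet_eq_fun (measurable_deriv _) (measurable_deriv _)).compl)
  have h3 : Gc H hTop hF = {g : ℝ | 2 < deriv (fun a => P a a) g} ∩
      ⋂ o : Od n, (Gs P r P' Λ o)ᶜ ∪ ⋂ l : Fin (n - 1),
      {g : ℝ | deriv ((H.nk hTop hF).dg o l) g = deriv (fun a => P a a) g}ᶜ := by
    ext g
    simp only [Gc, Set.mem_ofPred_eq, Set.mem_inter_iff, Set.mem_iInter, Set.mem_union,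
      Set.mem_compl_iff]
    refine and_congr_right fun _ => forall_congr' fun o => ?_
    constructor
    · intro h
      by_cases hg : g ∈ Gs P r P' Λ o
      · exact Or.inr fun l => h hg l l.2
      · exact Or.inl hg
    · rintro (h | h) hg l hl
      · exact absurd hg h
      · exact h ⟨l, hl⟩
  rw [h3]
  exact h1.inter h2

/-- **No boxes**, if the windows of the nonfull rows have no ties: for all rates above the rate of
the class. -/
def VNo (H : PkT hn S P r P' Λ PB) (hTop : TopS n) (hF : FZX (n - 1)) : Prop :=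
  ∀ h : ℝ, 0 < h → h ≤ 1 → ∀ (ρ : ℝ → ℝ) (hρ : Rle r ρ),
    (∀ᵐ Q : ℝ, deriv ρ Q < 1 → h ≤ 1 - deriv r Q) →
    (∀ o : Od n, ∀ᵐ g : ℝ, ((H.nk hTop hF).chg hρ H.up).RwD o g → ∀ l < n - 1,
      deriv ((H.nk hTop hF).dg o l) g ≠ deriv (fun a => P a a) g) →
    ∃ p : ((H.nk hTop hF).chg hρ H.up).Par, p.cell.NoJS ∨ p.cell.NoBS

/-- The windows of the nonfull rows of the new rate lie in `G`. -/
theorem PkT.rwd_G (H : PkT hn S P r P' Λ PB) (hTop : TopS n) (hF : FZX (n - 1)) {G : Set ℝ}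
    (hG : MeasurableSet G) (h : ℝ) (o : Od n) : ∀ᵐ g : ℝ,
      ((H.nk hTop hF).chg (H.rleG hG h) H.up).RwD o g → g ∈ G := by
  have hlaw := H.tgs.law ()
  filter_upwards [ae_dia hlaw (rs_row H.rate.lip H.rate.mono (er_meas (h := h) (r := r) hlaw hG))]
    with g h1 R
  have hdg : ((H.nk hTop hF).chg (H.rleG hG h) H.up).dg o (n - 1) = fun a => P a a :=
    ((H.nk hTop hF).chg (H.rleG hG h) H.up).dg_m o
  have hone : 1 ≤ deriv (fun a => P a a) g := by
    have h3 := R.one (n - 1) le_rfl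
    rwa [hdg] at h3
  have hdif : DifferentiableAt ℝ (fun a => P a a) g := by
    have h3 := R.dif (n - 1) le_rfl
    rwa [hdg] at h3
  have h4 := (h1 R.g0 R.g1 hdif (by linarith) R.rlt).1.2
  have h5 := H.tgs.low () g g R.g0.le le_rfl R.g1.le
  rw [lv_dia hlaw R.g0 R.g1 (R.g0.le.trans h5) R.val] at h4
  exact h4

/-- **The rows of the rough windows without ties are full.** -/
theorem PkT.rgFull_nt (H : PkT hn S P r P' Λ PB) (hTop : TopS n) (hF : FZX (n - 1))
    (hV : VNo H hTop hF)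
    (hD2 : ∀ o : Od n, ∀ᵐ g : ℝ, (H.nk hTop hF).RwD o g → 2 < deriv (fun a => P a a) g →
      Mac (PT hn PB o) g → StaAt (PT hn PB o) g) :
    Pool.ZFN.RgFull P r 0 (Gc H hTop hF) := by
  have hlaw := H.tgs.law ()
  have hG := gc_meas H hTop hF
  refine H.rgFullG hTop hF hG (fun h h0 h1 => ?_) fun o => ?_
  · refine hV h h0 h1 _ (H.rleG hG h) ?_ fun o => ?_
    · filter_upwards [rs_row H.rate.lip H.rate.mono (er_meas (h := h) (r := r) hlaw hG)]
        with Q h2 h3
      have h4 := (h2 h3).1.1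
      linarith
    · filter_upwards [H.rwd_G hTop hF hG h o] with g h2 R
      exact (h2 R).2 o R.mem
  · filter_upwards [hD2 o] with g h1 h2 h3
    exact h1 h2 h3.1

end Pool.PKG
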