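import Pool.Agent.H52.SUM.Celp

/-!
# The facts at a good window and at a window with known numbers

`LowE`: the entropy of a coordinate given the coordinates in `I` and any function which is closed at
the window. `CelE`, `LabE`: cells and stable closed labels of a precision, on parts of the events.
`cel_low`: cells are not more precise than the number of `LowE`.
`Pk.gw_low`, `Pk.gw_lab`: the coordinates of a good order at a good window.
`SlqX.low`, `SlqX.cel`: the slots, at the windows which are limits from both sides.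
-/

set_option autoImplicit false

namespace Pool.SW

open Finset Real
open Pool.Agent.H49.Ent Pool.Agent.H32.Dense Pool.STK Pool.KA Pool.KSAT Pool.K2S Pool.PB Pool.S6C
open Pool.GEN Pool.GRW Pool.TOP
open Pool.BSM (Cel cel_ent)

variable {m : ℕ}

/-- **The entropy** of the coordinate `k`, given `I` and any closed function. -/
def LowE (S : PCl m) (I : Finset (Fin m)) (k : Fin m) (w f : ℝ) : Prop :=
  ∀ ρ : ℝ, 0 < ρ → Bas S (fun J F A => ∀ (V : Type) (z : PtT F → V) (z' : LnT F → V),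
    (∀ ω, A ω → z (ptr F J ω) = z' (slam F ⌊w * J⌋₊ ω)) →
    (1 - f - ρ) * Real.log 2 * J ≤ CH (Pool.Agent.H49.Ent.cond F.p A True)
      (fun ω => F.X J ω k) (fun ω => (ub I (F.X J ω), z' (slam F ⌊w * J⌋₊ ω), F.W ω)))

/-- **Cells** of the precision `f`, on parts of the events. -/
def CelE (S : PCl m) (I : Finset (Fin m)) (k : Fin m) (w f : ℝ) : Prop :=
  ∀ h : ℝ, 0 < h → ∀ τ : ℝ, 0 < τ → Bas S (fun J F A => ∃ B : F.Ω → Prop, Sub B A ∧
    Real.exp (-(τ * J)) * Pe F.p A ≤ Pe F.p B ∧ Cel F I k ⌊w * J⌋₊ ⌊(f - h) * J⌋₊ B)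

/-- **Stable closed labels** of the precision `f`, on parts of the events. -/
def LabE (S : PCl m) (I : Finset (Fin m)) (k : Fin m) (w f : ℝ) : Prop :=
  ∀ h : ℝ, 0 < h → ∃ K : ℕ, ∀ τ : ℝ, 0 < τ → Bas S (fun J F A => ∃ B : F.Ω → Prop, Sub B A ∧
    Real.exp (-(τ * J)) * Pe F.p A ≤ Pe F.p B ∧ LbR 1 F I k K ⌊w * J⌋₊ ⌊(f - h) * J⌋₊ B)

theorem LabE.cel {S : PCl m} {I : Finset (Fin m)} {k : Fin m} {w f : ℝ} (h : LabE S I k w f) :
    CelE S I k w f := by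
  intro h₁ hh τ hτ
  obtain ⟨K, hK⟩ := h h₁ hh
  refine (hK τ hτ).mono 0 ?_
  rintro J - F A ⟨B, k1, k2, k3⟩
  exact ⟨B, k1, k2, Pool.BSM.LbR.cel le_rfl k3⟩

/-- **Cells are not more precise** than the number of the entropy. -/
theorem cel_low {S : PCl m} (hne : S.Ne) (hpos : Bas S (fun _ F A => 0 < Pe F.p A))
    {I : Finset (Fin m)} {k : Fin m} {w f f' : ℝ} (hf : f ≤ 1) (hc : CelE S I k w f)
    (hl : LowE S I k w f') : f ≤ f' := by
  by_contra hcon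
  push Not at hcon
  obtain ⟨D, hD⟩ : ∃ D, D = f - f' := ⟨_, rfl⟩
  have hD0 : 0 < D := by rw [hD]; linarith
  have hl2 : 1 / 2 < Real.log 2 := by
    have := Real.log_two_gt_d9
    linarith only [this]
  have hl21 : Real.log 2 ≤ 1 := by
    have := Real.log_two_lt_d9
    linarith only [this]
  obtain ⟨κ, hκ, h1⟩ := Pool.ZFN.bas_sh ((hl (D / 4) (by linarith)).and hpos)
  obtain ⟨J₁, hJ₁⟩ := exists_nat_gt (3 / (D / 4))
  refine Pool.TOP.bas_no hne ((h1.and (hc (D / 4) (by linarith) κ hκ)).mono J₁ ?_)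
  rintro J hJ F A ⟨k1, B, k2, k3, V, z, z', k4, k5⟩
  have hJ0 : (0 : ℝ) ≤ J := Nat.cast_nonneg J
  have hJ1 : (J₁ : ℝ) ≤ J := by exact_mod_cast hJ
  have hJ2 := hJ₁.trans_le hJ1
  rw [div_lt_iff₀ (by linarith)] at hJ2
  obtain ⟨k6, hB⟩ := k1 B k2 k3
  have hq := isLaw_cond F.isLaw hB
  have hqA : ∀ ω, 0 < Pool.Agent.H49.Ent.cond F.p B True ω → B ω := fun ω hω =>
    of_eq_true ((cond_pos_iff F.isLaw.nonneg B True ω).1 hω).2
  have h4 := (k6 V z z' k4).trans (cel_ent k5 (Pool.GEN.fl_le (by linarith) J) hq hqA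
    fun ω ω' _ _ hc => by
      have m1 := Prod.ext_iff.mp hc
      have m2 := Prod.ext_iff.mp m1.2
      refine ⟨fun i hi => ?_, m2.1, congrArg Prod.fst m2.2⟩
      have := congrFun m1.1 i
      simp only [ub, if_pos hi] at this
      exact this)
  have a1 := Nat.lt_floor_add_one ((f - D / 4) * (J : ℝ))
  have a2 : ((J : ℝ) - ⌊(f - D / 4) * J⌋₊) ≤ (1 - f + D / 4) * J + 1 := by
    linarith only [a1]
  have a4 := mul_le_mul_of_nonneg_right a2 (show (0 : ℝ) ≤ Real.log 2 by linarith)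
  have a5 : (1 - f' - D / 4) * Real.log 2 * J = (1 - f + D / 4) * J * Real.log 2 +
      D / 2 * J * Real.log 2 := by
    rw [hD]
    ring
  have a6 : D / 2 * J * (1 / 2) ≤ D / 2 * J * Real.log 2 :=
    mul_le_mul_of_nonneg_left hl2.le (by positivity)
  linarith only [h4, a4, a5, a6, hJ2, hl21]

/-- **Labels from the attained ones**. -/
theorem lab_att {S : PCl m} {I : Finset (Fin m)} {k : Fin m} {w s f : ℝ} (hw0 : 0 < w) (hwf : w ≤ f)
    (hsf : s ≤ f) (hf1 : f < 1) (h : ∀ e : ℝ, 0 < e → ∃ K : ℕ, Bas S (fun J F A =>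
      Lb F I k K ⌊e * J⌋₊ J ⌊w * J⌋₊ ⌊min (s + e) 1 * J⌋₊ ⌊(f - e) * J⌋₊ A)) :
    LabE S I k w f := by
  intro h₁ hh
  obtain ⟨e, he⟩ : ∃ e, e = min (min (h₁ / 2) (w / 2)) ((1 - f) / 4) := ⟨_, rfl⟩
  have he0 : 0 < e := by
    rw [he]
    exact lt_min (lt_min (by linarith) (by linarith)) (by linarith)
  have he1 : e ≤ h₁ / 2 := by rw [he]; exact (min_le_left _ _).trans (min_le_left _ _)
  have he3 : e ≤ w / 2 := by rw [he]; exact (min_le_left _ _).trans (min_le_right _ _)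
  have he2 : e ≤ (1 - f) / 4 := by rw [he]; exact min_le_right _ _
  obtain ⟨K, hK⟩ := h e he0
  obtain ⟨cm, hcm⟩ := pow_unbounded_of_one_lt (8 * ((m : ℝ) + 1)) (one_lt_two : (1 : ℝ) < 2)
  obtain ⟨J₁, hJ₁⟩ := Pool.GEN.lin (4 : ℝ) (show 0 < (1 - f) / 4 by linarith)
  obtain ⟨J₂, hJ₂⟩ := Pool.GEN.lin (2 : ℝ) (show 0 < h₁ / 2 by linarith)
  obtain ⟨J₃, hJ₃⟩ := Pool.GEN.lin (2 : ℝ) (show 0 < w / 2 by linarith)
  obtain ⟨J₄, hJ₄⟩ := Pool.GEN.lin ((cm : ℝ) + 2) (show 0 < (1 - f) / 4 by linarith)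
  refine ⟨K, fun τ hτ => hK.mono (max (max J₁ J₂) (max J₃ J₄)) ?_⟩
  intro J hJ F A h2
  simp only [ge_iff_le, max_le_iff] at hJ
  obtain ⟨⟨hJ1, hJ2⟩, hJ3, hJ4⟩ := hJ
  replace hJ1 := hJ₁ J hJ1
  replace hJ2 := hJ₂ J hJ2
  replace hJ3 := hJ₃ J hJ3
  replace hJ4 := hJ₄ J hJ4
  have hJ0 : (0 : ℝ) ≤ J := Nat.cast_nonneg J
  refine ⟨A, fun _ h => h, ?_, ?_⟩
  · have h1 : Real.exp (-(τ * J)) ≤ 1 := by
      rw [Real.exp_le_one_iff]
      have : 0 ≤ τ * (J : ℝ) := by positivity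
      linarith
    calc _ ≤ 1 * Pe F.p A := mul_le_mul_of_nonneg_right h1 (Pe_nonneg F.isLaw A)
      _ = Pe F.p A := one_mul _
  · have b1 := mul_le_mul_of_nonneg_right he1 hJ0
    have b2 := mul_le_mul_of_nonneg_right he2 hJ0
    have b3 := mul_le_mul_of_nonneg_right he3 hJ0
    have hQ : ⌊(f - h₁) * (J : ℝ)⌋₊ + 1 ≤ ⌊(f - e) * (J : ℝ)⌋₊ := by
      rcases le_or_gt ((f - h₁) * (J : ℝ)) 0 with h5 | h5
      · rw [Nat.floor_of_nonpos h5, zero_add]
        refine Nat.le_floor ?_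
        push_cast
        have := mul_le_mul_of_nonneg_right hwf hJ0
        linarith
      · have a1 := Nat.floor_le h5.le
        have a2 := Nat.lt_floor_add_one ((f - e) * (J : ℝ))
        have a3 : ((⌊(f - h₁) * (J : ℝ)⌋₊ + 1 : ℕ) : ℝ) < (⌊(f - e) * (J : ℝ)⌋₊ : ℕ) + 1 := by
          push_cast
          linarith
        have a4 : ⌊(f - h₁) * (J : ℝ)⌋₊ + 1 < ⌊(f - e) * (J : ℝ)⌋₊ + 1 := by exact_mod_cast a3
        omega
    have hq8 : LbR 8 F I k K ⌊w * J⌋₊ ⌊(f - h₁) * J⌋₊ A := by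
      refine Pool.ZFW.lbr_of_lb h2 hcm.le ?_ hQ ?_
      · have a1 : ⌊min (s + e) 1 * (J : ℝ)⌋₊ ≤ ⌊(f + e) * (J : ℝ)⌋₊ :=
          Nat.floor_le_floor (mul_le_mul_of_nonneg_right ((min_le_left _ _).trans (by linarith)) hJ0)
        have a2 := Nat.floor_le (show 0 ≤ (f + e) * (J : ℝ) by
          have : 0 ≤ f := by linarith
          positivity)
        have a3 : ((⌊(f + e) * (J : ℝ)⌋₊ + 4 : ℕ) : ℝ) ≤ J := by
          push_cast
          have h6 : 0 ≤ (1 - f) * (J : ℝ) := mul_nonneg (by linarith) hJ0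
          linarith
        have a4 : ⌊(f + e) * (J : ℝ)⌋₊ + 4 ≤ J := by exact_mod_cast a3
        omega
      · have a1 : ⌊(f - h₁) * (J : ℝ)⌋₊ ≤ ⌊f * (J : ℝ)⌋₊ :=
          Nat.floor_le_floor (mul_le_mul_of_nonneg_right (by linarith) hJ0)
        have a2 := Nat.floor_le (show 0 ≤ f * (J : ℝ) by
          have : 0 ≤ f := by linarith
          positivity)
        have a2' := Nat.floor_le (show 0 ≤ e * (J : ℝ) by positivity)
        have a3 : ((⌊e * (J : ℝ)⌋₊ + cm + (⌊f * (J : ℝ)⌋₊ + 1) : ℕ) : ℝ) ≤ J := by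
          push_cast
          have h6 : 0 ≤ (1 - f) * (J : ℝ) := mul_nonneg (by linarith) hJ0
          linarith
        have a4 : ⌊e * (J : ℝ)⌋₊ + cm + (⌊f * (J : ℝ)⌋₊ + 1) ≤ J := by exact_mod_cast a3
        omega
    obtain ⟨V, z, z', G, L⟩ := hq8
    refine ⟨V, z, z', G, L.deg, L.dep, L.cls, fun ω hω b hb => L.pos ω hω b fun o => ?_⟩
    refine (hb o).trans ?_
    exact div_le_div_of_nonneg_right (by norm_num) (by positivity)

end Pool.SW

namespace Pool.PKG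

open MeasureTheory Set Filter Topology
open Pool.Agent.H49.Ent Pool.Agent.H32.Dense Pool.STK Pool.KA Pool.KSAT Pool.K2S Pool.PB
open Pool.GEN Pool.S6C Pool.STAT Pool.CHT Pool.GRW Pool.ONE Pool.STA
open Pool.LBT (LSys ThrOf)
open Pool.LBN (cof)
open Pool.ALL (RateOf)
open Pool.TOP (T1c T2c TopS LbR RW rowH ub)
open Pool.BSM (Cel)
open Pool.SW (LowE CelE LabE)
open Finset (range univ)

variable {n : ℕ} {hn : 2 ≤ n} {S : PCl n} {P : ℝ → ℝ → ℝ} {r : ℝ → ℝ}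
  {P' : ℕ → List (Fin n) × Fin n → ℝ → ℝ → ℝ} {Λ : Finset (Fin n) → Fin n → ℝ → ℝ → ℝ}
  {PB : ℕ → List (Fin n) × Fin n → ℝ → ℝ → ℝ}

/-- **Exactness and numbers** at a good window. -/
theorem Pk.gw (H : Pk hn S P r P' Λ) (hTop : TopS n) (hF : FZX (n - 1)) {o : Od n} {g : ℝ}
    (hg : g ∈ Gs P r P' Λ o) : 0 < g ∧ g < 1 ∧ VExa S Λ (fun i => bse (o.1.1 i)) g ∧
      ∀ j < n - 1, vs Λ (fun i => bse (o.1.1 i)) g (j + 1) =
        bet (P' o.2) (cc hn o.1.1) j g g ∧ bet (P' o.2) (cc hn o.1.1) j g g < 1 := by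
  obtain ⟨α, Q, c, Fc⟩ := H.fac hTop hF hg
  obtain ⟨al, g₀, s, d, e₀, K₀, N, hal, hg₀, hC⟩ := H.cl
  have hWp := hg.1
  have hw0 := hWp.1.1
  have hw1 := hWp.1.2.1
  have hth := tht_pos o.2
  have hcε : ∀ i : Fin (n - 1), cc hn o.1.1 i = bse (o.1.1 i) := fun i => cc_lt hn _ i.2
  have hinj : Function.Injective (fun i => bse (o.1.1 i) : Fin (n - 1) → Fin n) :=
    bse_inj.comp o.1.1.injective
  have hex : VExa S Λ (fun i => bse (o.1.1 i)) g := by
    intro ρ hρ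
    refine vst_exa hF hC.ne (C₀ := 6) (by norm_num) H.tmc H.lam hal hg₀ hC.actm H.pos
      hinj (fun k hk => hC.actb _ ?_) hw0 hw1 hWp.1.2.2.1 hWp.1.2.2.2 hρ
    exact o.1.2 k hk
  refine ⟨hw0, hw1, hex, fun j hj => ?_⟩
  have hbet : bet (P' o.2) (cc hn o.1.1) j g g < 1 - tht o.2 * g := by
    have h1 := Fc.le j hj g g hw0 le_rfl Fc.gα
    have h2 : tht o.2 * g ≤ tht o.2 := mul_le_of_le_one_right hth.le hw1.le
    have h3 := Fc.thc
    linarith
  have h1 := (bet_lt_iff hth hC.ne (C₀ := 6) (by norm_num) H.tmc H.lam (H.cht o.2) hinj hcε hWp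
    hex hj).1 hbet
  refine ⟨(bet_eq_vst hth hC.ne (C₀ := 6) (by norm_num) H.tmc H.lam (H.cht o.2) hinj hcε hWp hex
    hj h1).symm, hbet.trans ?_⟩
  have : 0 < tht o.2 * g := mul_pos hth hw0
  linarith

/-- **The entropy of the coordinates of a good order.** -/
theorem Pk.gw_low (H : Pk hn S P r P' Λ) (hTop : TopS n) (hF : FZX (n - 1)) {o : Od n} {g : ℝ}
    (hg : g ∈ Gs P r P' Λ o) (i : Fin (n - 1)) :
    LowE S ((Finset.Iio i).image fun l => bse (o.1.1 l)) (bse (o.1.1 i)) g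
      (bet (P' o.2) (cc hn o.1.1) i g g) := by
  obtain ⟨hw0, hw1, hex, hvs⟩ := H.gw hTop hF hg
  have hcε : ∀ i : Fin (n - 1), cc hn o.1.1 i = bse (o.1.1 i) := fun i => cc_lt hn _ i.2
  intro ρ hρ
  refine ((vst_crd H.pos H.lam hcε hw0 hw1 hg.1.1.2.2.1 hg.1.1.2.2.2 hex hρ).and H.pos).mono 0 ?_
  rintro J - F A ⟨h2, hA⟩ V z z' hz
  have hq := isLaw_cond F.isLaw hA
  have h3 := h2 V z z' hz i i.2
  rw [(hvs i i.2).1, hcε i] at h3
  refine h3.trans (CH_mono_cond hq.nonneg fun ω ω' _ _ hh => ?_)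
  have h4 := Prod.ext_iff.mp hh
  refine Prod.ext (funext fun x => ?_) h4.2
  simp only [ub]
  split_ifs with hx
  · obtain ⟨l, hl, rfl⟩ := Finset.mem_image.1 hx
    have hl' : (l : ℕ) < i := Fin.lt_def.1 (Finset.mem_Iio.1 hl)
    have h5 := congrFun h4.1 ⟨l, hl'⟩
    simp only at h5
    rw [hcε l] at h5
    exact h5
  · rfl

/-- **The labels of the coordinates of a good order.** -/
theorem Pk.gw_lab (H : Pk hn S P r P' Λ) (hTop : TopS n) (hF : FZX (n - 1)) {o : Od n} {g : ℝ}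
    (hg : g ∈ Gs P r P' Λ o) (i : Fin (n - 1)) :
    LabE S ((Finset.Iio i).image fun l => bse (o.1.1 l)) (bse (o.1.1 i)) g
      (bet (P' o.2) (cc hn o.1.1) i g g) := by
  obtain ⟨hw0, hw1, hex, hvs⟩ := H.gw hTop hF hg
  obtain ⟨e1, e2⟩ := hvs i i.2
  rw [← e1] at e2 ⊢
  refine Pool.SW.lab_att (s := vs Λ (fun i => bse (o.1.1 i)) g i) hw0
    (le_vs H.lam _ hw1.le _) (hg.1.1.2.2.1.step H.lam hw1.le i) e2 fun e he => ?_
  obtain ⟨K, hK⟩ := vst_att H.lam hw0 hw1 hg.1.1.2.2.1 hg.1.1.2.2.2 he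
  exact ⟨K, hK i i le_rfl⟩

/-- **The entropy of the slots.** -/
theorem SlqX.low (H : Pk hn S P r P' Λ) (hW : ∀ k, 2 ≤ k → k < n → RW k) {g : ℝ} (hg0 : 0 < g)
    (hg1 : g < 1) {R b₁ : ℝ} (hR : 0 ≤ R) (hgb : g < b₁) {X : Set ℝ}
    (hXr : ∀ δ : ℝ, 0 < δ → ∃ x ∈ X, g < x ∧ x < g + δ) {q : ℕ → ℝ → ℝ}
    (hQ : SlqX S R b₁ X q) {i : Fin n} (hi1 : 1 ≤ (i : ℕ)) (hi2 : (i : ℕ) < n - 1)
    (hqc : ContinuousAt (q i) g) (hqg : g ≤ q i g) :
    LowE S (univ.filter fun j : Fin n => (j : ℕ) < i) i g (q i g) := by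
  obtain ⟨al, g₀, s, d, e₀, K₀, N, hal, hg₀, hC⟩ := H.cl
  have hl2 : 0 < Real.log 2 := Real.log_pos one_lt_two
  intro e he
  rcases le_or_gt 1 (q i g + e) with hQ1 | hQ1
  · refine H.pos.mono 0 fun J _ F A hA V z z' _ => ?_
    have hq := isLaw_cond F.isLaw hA
    have hJ0 : (0 : ℝ) ≤ J := Nat.cast_nonneg J
    have h3 : (1 - q i g - e) * Real.log 2 ≤ 0 :=
      mul_nonpos_of_nonpos_of_nonneg (by linarith) hl2.le
    exact (mul_nonpos_of_nonpos_of_nonneg h3 hJ0).trans (CH_nonneg hq.nonneg _ _)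
  have h1 := hqc
  rw [Metric.continuousAt_iff] at h1
  obtain ⟨δ, hδ, h2⟩ := h1 (e / 4) (by linarith)
  obtain ⟨x, hxX, hx1, hx2⟩ := hXr (min δ (min (b₁ - g) ((1 - g) / 2)))
    (lt_min hδ (lt_min (by linarith) (by linarith)))
  have hx3 : x < g + δ := hx2.trans_le (by
    linarith [min_le_left δ (min (b₁ - g) ((1 - g) / 2))])
  have hx5 : x < g + min (b₁ - g) ((1 - g) / 2) := hx2.trans_le (by
    linarith [min_le_right δ (min (b₁ - g) ((1 - g) / 2))])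
  have hx4 : x < b₁ := hx5.trans_le (by linarith [min_le_left (b₁ - g) ((1 - g) / 2)])
  have hx6 : x < g + (1 - g) / 2 := hx5.trans_le (by
    linarith [min_le_right (b₁ - g) ((1 - g) / 2)])
  have h3 : |q i x - q i g| < e / 4 := by
    have := @h2 x (by rw [Real.dist_eq, abs_lt]; constructor <;> linarith)
    rwa [Real.dist_eq] at this
  have h4 := (abs_lt.1 h3).2
  obtain ⟨v, hv1, hv2⟩ := exists_rat_btwn hx1
  have hno := hQ.no i hi1 hi2 x hxX hx4 v (by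
    have : (0 : ℝ) < v := by linarith
    exact_mod_cast this) hv2 (e / 4) (by linarith) (by linarith)
  have hcard : (univ.filter fun j : Fin n => (j : ℕ) < i).card = i := by
    have e1 : (univ.filter fun j : Fin n => (j : ℕ) < i) = Finset.Iio i := by
      ext j
      rw [Finset.mem_filter, Finset.mem_Iio, Fin.lt_def]
      exact ⟨fun h => h.2, fun h => ⟨Finset.mem_univ _, h⟩⟩
    rw [e1, Fin.card_Iio]
  have hRW := hW (i + 1) (by omega) (by omega) al g₀ hal hg₀ N hC.actm n 6 S (by norm_num)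
    H.tmc (univ.filter fun j : Fin n => (j : ℕ) < i) i (⟨0, by omega⟩ : Fin n) (by simp)
    (by
      simp only [Finset.mem_filter, Finset.mem_univ, true_and]
      omega) (by rw [hcard]) (hC.actb _ rfl) R g (q i g + e / 2) (v - g) (e / 2) hR hg0
    (by linarith) (by linarith) (by linarith) (by linarith) (by linarith) (fun K => by
      refine (hno K).mono 0 fun J _ F A k1 k2 => k1 ?_
      have e1 : g + ((v : ℝ) - g) = v := by ring
      rw [e1] at k2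
      exact k2.wk (Finset.Subset.refl _) le_rfl (Nat.floor_le_floor
        (mul_le_mul_of_nonneg_right (by linarith) (Nat.cast_nonneg J))))
  refine (hRW.and H.pos).mono 0 ?_
  rintro J - F A ⟨h1, hA⟩ V z z' hz
  have hq := isLaw_cond F.isLaw hA
  have h2 := h1 V z z' hz
  have h4 : (1 - q i g - e) * Real.log 2 * J = (1 - (q i g + e / 2) - e / 2) * Real.log 2 * J := by
    ring
  rw [h4]
  refine h2.trans ?_
  unfold rowH
  refine CH_mono_cond hq.nonneg fun ω ω' _ _ hh => ?_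
  exact (Prod.ext_iff.mp hh).2

/-- **The cells of the slots.** -/
theorem SlqX.cel {g : ℝ} (hg0 : 0 < g) {R b₁ : ℝ} (hgb : g < b₁) {X : Set ℝ}
    (hXl : ∀ δ : ℝ, 0 < δ → ∃ x ∈ X, g - δ < x ∧ x < g) {q : ℕ → ℝ → ℝ}
    (hQ : SlqX S R b₁ X q) {i : Fin n} (hi1 : 1 ≤ (i : ℕ)) (hi2 : (i : ℕ) < n - 1)
    (hqc : ContinuousAt (q i) g) :
    CelE S (univ.filter fun j : Fin n => (j : ℕ) < i) i g (q i g) := by
  intro h hh τ hτ
  have h1 := hqc
  rw [Metric.continuousAt_iff] at h1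
  obtain ⟨δ, hδ, h2⟩ := h1 (h / 2) (half_pos hh)
  obtain ⟨x, hxX, hx1, hx2⟩ := hXl (min δ g) (lt_min hδ hg0)
  have hx3 : 0 < x := by linarith [min_le_right δ g]
  have hx4 : g - δ < x := by linarith [min_le_left δ g]
  have h3 : |q i x - q i g| < h / 2 := by
    have := @h2 x (by rw [Real.dist_eq, abs_lt]; constructor <;> linarith)
    rwa [Real.dist_eq] at this
  have h4 := (abs_lt.1 h3).1
  obtain ⟨v, hv1, hv2⟩ := exists_rat_btwn hx2
  refine (hQ.att i hi1 hi2 x hxX hx3 v hv1 (by linarith) (h / 2) (half_pos hh) τ hτ).mono 0 ?_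
  rintro J - F A ⟨B, k1, k2, k3⟩
  exact ⟨B, k1, k2, (k3.win (Nat.floor_le_floor (mul_le_mul_of_nonneg_right hv2.le
    (Nat.cast_nonneg J)))).prc (Nat.floor_le_floor
    (mul_le_mul_of_nonneg_right (by linarith) (Nat.cast_nonneg J)))⟩

end Pool.PKG
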