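import Pool.Agent.H19.SW.Rg
import Pool.Agent.H60.GEN.KpK
import Pool.Agent.H39.GEN.Zfe

/-!
# The rows of the rough windows in a set are full

`rgFull_cls`: for one class package and a measurable set `G` of windows, if there are no boxes for
the rate in which only the rows with window in `G` are not full, and if the thresholds with
macroscopic gain at such windows are static, then the rows of the rough windows in `G` are full.
-/

set_option autoImplicit false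

namespace Pool.SW

open MeasureTheory Set Filter Topology Pool.LEV Pool.STR
open Pool.ZFN (RgUp DgLo RgFull lv_eq lv_deriv not_wfu)

section

variable {P : ℝ → ℝ → ℝ} {r : ℝ → ℝ} {h : ℝ} {G : Set ℝ}

theorem rgFull_micG (hP : Law P) (hr : LipschitzWith 1 r) (hM : MicG P r G) : RgFull P r 0 G := by
  filter_upwards [hM, hr.ae_differentiableAt_real] with Q h1 h2 h3 h4 g hg σ h5 h6 h7 h8 h9
  by_contra hcon
  push Not at hcon
  rw [sub_zero] at hcon
  have hσ : 0 < σ := by linarith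
  have k1 := lv_eq hP h5 h6 hσ h3 h4 h8 h9
  have k2 := lv_deriv hP h5 h6 hσ h3 h4 h8 h9
  refine not_wfu hP h5 h6 h7 h3 h4 h8 h9 (h1 h3 h4 ?_ ?_ k2.differentiableAt ?_ h2 hcon)
  · rw [k1]
    exact h5
  · rw [k1]
    exact hg
  · rw [k2.deriv]
    positivity

/-- The nonfull rows of the new rate. -/
theorem rowD_rs (hP : Law P) (hr : LipschitzWith 1 r) (hm : Monotone r) (hG : MeasurableSet G) :
    ∀ᵐ Q : ℝ, RowD P (rs r (Er P r h G)) univ Q →
      RowD P r univ Q ∧ Lv P (Q, 0) ∈ G ∧ deriv r Q + h ≤ 1 := by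
  filter_upwards [rs_row hr hm (er_meas (r := r) (h := h) hP hG), hr.ae_differentiableAt_real]
    with Q h1 h2 hrow
  obtain ⟨h3, h4⟩ := h1 hrow.rlt
  exact ⟨{ hrow with rdif := h2, rlt := h4 }, h3.2, h3.1⟩

end

end Pool.SW

namespace Pool.PKG

open MeasureTheory Set Filter Topology
open Pool.Agent.H49.Ent Pool.Agent.H32.Dense Pool.STK Pool.KA Pool.KSAT Pool.K2S Pool.PB
open Pool.GEN Pool.S6C Pool.STAT Pool.CHT Pool.GRW Pool.ONE Pool.STA
open Pool.LBT (LSys ThrOf)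
open Pool.LEV (Law Lv)
open Pool.ALL (RateOf)
open Pool.TOP (TopS)
open Pool.STR (NumI LeT CellD Rle RowD Mac TopW StaAt IsoAt ThinAt SteepAt ae_rowD dia_ae)
open Pool.SW (rs Er rle_rs er_meas micG_of rgFull_micG rowD_rs)

variable {n : ℕ} {hn : 2 ≤ n} {S : PCl n} {P : ℝ → ℝ → ℝ} {r : ℝ → ℝ}
  {P' : ℕ → List (Fin n) × Fin n → ℝ → ℝ → ℝ} {Λ : Finset (Fin n) → Fin n → ℝ → ℝ → ℝ}
  {PB : ℕ → List (Fin n) × Fin n → ℝ → ℝ → ℝ}

/-- **The windows of the nonfull rows.** -/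
theorem PkT.rwd_ae' (H : PkT hn S P r P' Λ PB) (hTop : TopS n) (hF : FZX (n - 1)) (o : Od n) :
    ∀ᵐ Q : ℝ, RowD P r univ Q → Lv P (Q, 0) ∈ Gs P r P' Λ o →
      (H.nk hTop hF).RwD o (Lv P (Q, 0)) := by
  have hlt : ∀ᵐ g : ℝ, g ∈ (H.nk hTop hF).Gs o → 0 < g → g < 1 →
      ∀ j, (H.nk hTop hF).D o j g < 1 := by
    refine ae_of_all _ fun g hg h0 h1 j => ?_
    obtain ⟨α, Q, c, F⟩ := H.toPk.fac hTop hF hg
    have h2 := F.le j j.2 g g h0 le_rfl F.gα
    have h3 := (tht_pos o.2).trans F.thc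
    exact lt_of_le_of_lt h2 (by linarith)
  exact NumI.rwd_ae (nk := H.nk hTop hF) (H.tgs.law ())
    (fun a w h0 h1 h2 => ⟨H.tgs.low () a w h0 h1 h2, H.tgs.up () a w h0 h1 h2⟩) o hlt

/-- **The rate of the rows with window in `G`** and deficit at least `h`. -/
theorem PkT.rleG (H : PkT hn S P r P' Λ PB) {G : Set ℝ} (hG : MeasurableSet G) (h : ℝ) :
    Rle r (rs r (Er P r h G)) :=
  rle_rs H.rate.lip H.rate.mono (er_meas (H.tgs.law ()) hG)

/-- **The rows of the rough windows in `G` are full.** -/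
theorem PkT.rgFullG (H : PkT hn S P r P' Λ PB) (hTop : TopS n) (hF : FZX (n - 1)) {G : Set ℝ}
    (hG : MeasurableSet G)
    (hJ : ∀ h : ℝ, 0 < h → h ≤ 1 → ∃ p : ((H.nk hTop hF).chg (H.rleG hG h) H.up).Par,
      p.cell.NoJS ∨ p.cell.NoBS)
    (hMac : ∀ o : Od n, ∀ᵐ g : ℝ, (H.nk hTop hF).RwD o g → g ∈ G → Mac (PT hn PB o) g →
      StaAt (PT hn PB o) g) : Pool.ZFN.RgFull P r 0 G := by
  have hlaw := H.tgs.law ()
  have hP01 : ∀ a w : ℝ, 0 ≤ w → w ≤ a → a ≤ 1 → a ≤ P a w ∧ P a w ≤ 1 :=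
    fun a w h0 h1 h2 => ⟨H.tgs.low () a w h0 h1 h2, H.tgs.up () a w h0 h1 h2⟩
  refine rgFull_micG hlaw H.rate.lip (micG_of hlaw H.rate.lip H.rate.mono hG fun h h0 h1 => ?_)
  obtain ⟨p, hp⟩ := hJ h h0 h1
  refine NumI.micW_isoR hlaw hP01 (H.rleG hG h).lip' p hp (NumI.MacR.isoR hlaw fun o : Od n => ?_)
  filter_upwards [H.rwd_ae' hTop hF o,
    ae_rowD (ρ := rs r (Er P r h G)) (W := univ) hlaw (hMac o),
    rowD_rs (h := h) hlaw H.rate.lip H.rate.mono hG] with Q k1 k2 k3 hrow ho _ hmac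
  obtain ⟨k4, k5, -⟩ := k3 hrow
  exact k2 hrow (k1 k4 ho) k5 hmac

end Pool.PKG
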