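import Pool.Agent.H60.GEN.TopI

/-!
# The rate of chosen rows

`rs r E`: the function with `rs r E 0 = 0` whose derivative is `r'` on the measurable set `E` of
rows and `1` elsewhere: the rows outside `E` are full. `Wd P G`: the rows whose window lies in `G`.
`MicG P r G`: almost every row which is not full and whose window lies in `G` is uniformly free from
the window. It follows from `MicW P (rs r (Er P r h G))` for all `0 < h` (`micG_of`).
-/

set_option autoImplicit false

namespace Pool.SW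

open Set MeasureTheory Filter Topology Pool.LEV Pool.STR
open Pool.ONE (deriv_le_one)

variable {P : ℝ → ℝ → ℝ} {r : ℝ → ℝ} {h : ℝ} {E G : Set ℝ}

open Classical in
/-- The derivative of `rs r E`. -/
noncomputable def rsd (r : ℝ → ℝ) (E : Set ℝ) (t : ℝ) : ℝ := if t ∈ E then deriv r t else 1

/-- **The rate in which the rows outside `E` are full.** -/
noncomputable def rs (r : ℝ → ℝ) (E : Set ℝ) (Q : ℝ) : ℝ := ∫ t in (0 : ℝ)..Q, rsd r E t

theorem rsd_meas (hE : MeasurableSet E) : Measurable (rsd r E) :=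
  Measurable.ite hE (measurable_deriv r) measurable_const

theorem rsd_le (hr : LipschitzWith 1 r) (t : ℝ) : rsd r E t ≤ 1 := by
  unfold rsd
  split_ifs
  · exact deriv_le_one hr t
  · exact le_rfl

theorem rsd_nonneg (hm : Monotone r) (t : ℝ) : 0 ≤ rsd r E t := by
  unfold rsd
  split_ifs
  · exact hm.deriv_nonneg
  · exact zero_le_one

theorem le_rsd (hr : LipschitzWith 1 r) (t : ℝ) : deriv r t ≤ rsd r E t := by
  unfold rsd
  split_ifs
  · exact le_rfl
  · exact deriv_le_one hr t

theorem rsd_int (hr : LipschitzWith 1 r) (hm : Monotone r) (hE : MeasurableSet E) (a b : ℝ) :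
    IntervalIntegrable (rsd r E) volume a b := by
  refine (intervalIntegrable_const (c := (1 : ℝ))).mono_fun
    (rsd_meas hE).aestronglyMeasurable (Filter.Eventually.of_forall fun t => ?_)
  show ‖rsd r E t‖ ≤ ‖(1 : ℝ)‖
  rw [Real.norm_eq_abs, Real.norm_eq_abs, abs_of_nonneg (rsd_nonneg hm t), abs_one]
  exact rsd_le hr t

theorem rs_sub (hr : LipschitzWith 1 r) (hm : Monotone r) (hE : MeasurableSet E) (a b : ℝ) :
    rs r E b - rs r E a = ∫ t in a..b, rsd r E t := by
  unfold rs
  rw [intervalIntegral.integral_interval_sub_left (rsd_int hr hm hE 0 b) (rsd_int hr hm hE 0 a)]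

theorem rs_zero : rs r E 0 = 0 := by
  unfold rs
  exact intervalIntegral.integral_same

theorem rs_mono (hr : LipschitzWith 1 r) (hm : Monotone r) (hE : MeasurableSet E) :
    Monotone (rs r E) := by
  intro a b hab
  have h1 := rs_sub hr hm hE a b
  have h2 : 0 ≤ ∫ t in a..b, rsd r E t :=
    intervalIntegral.integral_nonneg hab fun t _ => rsd_nonneg hm t
  linarith

theorem rs_lip (hr : LipschitzWith 1 r) (hm : Monotone r) (hE : MeasurableSet E) :
    LipschitzWith 1 (rs r E) := by
  refine LipschitzWith.of_dist_le_mul fun a b => ?_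
  rw [Real.dist_eq, Real.dist_eq, rs_sub hr hm hE b a]
  have h1 := intervalIntegral.norm_integral_le_of_norm_le_const (a := b) (b := a)
    (f := rsd r E) (C := 1) fun t _ => by
      rw [Real.norm_eq_abs, abs_of_nonneg (rsd_nonneg hm t)]
      exact rsd_le hr t
  rw [Real.norm_eq_abs] at h1
  simpa using h1

/-- The rows are at least as large. -/
theorem le_rs (hr : LipschitzWith 1 r) (hm : Monotone r) (hE : MeasurableSet E) {a b : ℝ}
    (hab : a ≤ b) : r b - r a ≤ rs r E b - rs r E a := by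
  have h1 : ∫ t in a..b, deriv r t = r b - r a := by
    refine AbsolutelyContinuousOnInterval.integral_deriv_eq_sub ?_
    exact (hr.lipschitzOnWith (s := Set.uIcc a b)).absolutelyContinuousOnInterval
  rw [← h1, rs_sub hr hm hE a b]
  refine intervalIntegral.integral_mono_on hab ?_ (rsd_int hr hm hE a b) fun t _ => le_rsd hr t
  refine (intervalIntegrable_const (c := (1 : ℝ))).mono_fun
    (measurable_deriv r).aestronglyMeasurable (Filter.Eventually.of_forall fun t => ?_)
  show ‖deriv r t‖ ≤ ‖(1 : ℝ)‖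
  rw [Real.norm_eq_abs, Real.norm_eq_abs, abs_of_nonneg hm.deriv_nonneg, abs_one]
  exact deriv_le_one hr t

/-- The larger rate. -/
theorem rle_rs (hr : LipschitzWith 1 r) (hm : Monotone r) (hE : MeasurableSet E) :
    Rle r (rs r E) :=
  ⟨hr, rs_lip hr hm hE, fun _ _ hab => le_rs hr hm hE hab⟩

/-- The derivative. -/
theorem rs_deriv (hr : LipschitzWith 1 r) (hm : Monotone r) (hE : MeasurableSet E) :
    ∀ᵐ Q : ℝ, HasDerivAt (rs r E) (rsd r E Q) Q := by
  have h1 : LocallyIntegrable (rsd r E) volume := by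
    refine (locallyIntegrable_const (1 : ℝ)).mono (rsd_meas hE).aestronglyMeasurable
      (Filter.Eventually.of_forall fun t => ?_)
    rw [Real.norm_eq_abs, Real.norm_eq_abs, abs_of_nonneg (rsd_nonneg hm t), abs_one]
    exact rsd_le hr t
  filter_upwards [LocallyIntegrable.ae_hasDerivAt_integral h1] with Q hQ
  exact hQ 0

/-- **The nonfull rows** of the new rate are the nonfull rows in `E`. -/
theorem rs_row (hr : LipschitzWith 1 r) (hm : Monotone r) (hE : MeasurableSet E) :
    ∀ᵐ Q : ℝ, deriv (rs r E) Q < 1 → Q ∈ E ∧ deriv r Q < 1 := by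
  filter_upwards [rs_deriv hr hm hE] with Q h1 h2
  rw [h1.deriv] at h2
  unfold rsd at h2
  split_ifs at h2 with h3
  · exact ⟨h3, h2⟩
  · exact absurd h2 (lt_irrefl _)

/-! ### The rows of chosen windows -/

/-- The rows of deficit at least `h` whose window lies in `G`. -/
def Er (P : ℝ → ℝ → ℝ) (r : ℝ → ℝ) (h : ℝ) (G : Set ℝ) : Set ℝ :=
  {Q | deriv r Q + h ≤ 1 ∧ Lv P (Q, 0) ∈ G}

theorem lv_meas (hP : Law P) : Measurable fun Q : ℝ => Lv P (Q, 0) := by
  have : LipschitzWith 1 (fun Q : ℝ => Lv P (Q, 0)) := by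
    refine LipschitzWith.of_dist_le_mul fun x y => ?_
    refine ((Lv_lip hP).dist_le_mul _ _).trans ?_
    rw [Prod.dist_eq]
    simp
  exact this.continuous.measurable

theorem er_meas (hP : Law P) (hG : MeasurableSet G) : MeasurableSet (Er P r h G) :=
  (measurableSet_le ((measurable_deriv r).add_const h) measurable_const).inter
    ((lv_meas hP) hG)

/-- **(M)** for the rows whose window lies in `G`. -/
def MicG (P : ℝ → ℝ → ℝ) (r : ℝ → ℝ) (G : Set ℝ) : Prop :=
  ∀ᵐ Q : ℝ, 0 < Q → Q < 1 → 0 < Lv P (Q, 0) → Lv P (Q, 0) ∈ G →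
    DifferentiableAt ℝ (fun Q => Lv P (Q, 0)) Q → 0 < deriv (fun Q => Lv P (Q, 0)) Q →
      DifferentiableAt ℝ r Q → deriv r Q < 1 → WfU P Q

/-- **(M)** on `G` from (M) for the rates `rs`. -/
theorem micG_of (hP : Law P) (hr : LipschitzWith 1 r) (hm : Monotone r) (hG : MeasurableSet G)
    (H : ∀ h : ℝ, 0 < h → h ≤ 1 → MicW P (rs r (Er P r h G))) : MicG P r G := by
  have hn : ∀ k : ℕ, (0 : ℝ) < 1 / ((k : ℝ) + 1) := fun k => by positivity
  have hn1 : ∀ k : ℕ, 1 / ((k : ℝ) + 1) ≤ (1 : ℝ) := fun k => by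
    rw [div_le_one (by positivity)]
    have : (0 : ℝ) ≤ k := Nat.cast_nonneg k
    linarith
  filter_upwards [ae_all_iff.2 fun k : ℕ => H _ (hn k) (hn1 k),
    ae_all_iff.2 fun k : ℕ => rs_deriv hr hm (er_meas (r := r) (h := 1 / ((k : ℝ) + 1)) hP hG)]
    with Q h1 h2 a b c d e f g hlt
  obtain ⟨k, hk⟩ := exists_nat_one_div_lt (sub_pos.2 hlt)
  have hQE : Q ∈ Er P r (1 / ((k : ℝ) + 1)) G := ⟨by linarith, d⟩
  refine h1 k a b c e f (h2 k).differentiableAt ?_
  rw [(h2 k).deriv]
  unfold rsd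
  rw [if_pos hQE]
  exact hlt

theorem MicG.mono {G' : Set ℝ} (H : MicG P r G) (hG : G' ⊆ G) : MicG P r G' := by
  filter_upwards [H] with Q h1 a b c d
  exact h1 a b c (hG d)

end Pool.SW
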