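import Pool.Agent.H19.SW.Ro
import Pool.Agent.H19.SW.Rg
import Pool.Agent.H90.ISO.StA
import Pool.Agent.H77.Z4.Nor

/-!
# The rows at the rough windows with chosen slopes are full

`GcR C`: the rough windows at which the slopes of the coordinates of every good order have the
property `C`. `VNoC C`: no boxes, if the windows of the nonfull rows are of this kind.
`PkT.rgFull_c`: the rows of the rough windows in `GcR C` are full, if `VNoC C`. `PkT.rgFull_ae`: the
same for a set of windows, almost all of which are of this kind.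
-/

set_option autoImplicit false

namespace Pool.SW

open MeasureTheory Set Filter Topology Pool.LEV Pool.STR
open Pool.ZFN (RgUp DgLo RgFull lv_eq lv_deriv)

/-- Thin over its own diagonal is thin over every function with the same diagonal. -/
theorem thin_diag {P B : ℝ → ℝ → ℝ} {g : ℝ} (hd : DifferentiableAt ℝ (fun a => P a a) g)
    (hd' : DifferentiableAt ℝ (fun a => B a a) g) (heq : P g g = B g g)
    (hs : deriv (fun a => P a a) g = deriv (fun a => B a a) g) (h : ThinAt P P g) :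
    ThinAt P B g := by
  intro e he
  obtain ⟨r₁, hr₁, k1⟩ := h (e / 3) (by linarith)
  obtain ⟨r₂, hr₂, k2⟩ := Pool.QNT.affB_of hd (M := 8) (e := e / 3) (by norm_num) (by linarith)
  obtain ⟨r₃, hr₃, k3⟩ := Pool.QNT.affB_of hd' (M := 8) (e := e / 3) (by norm_num) (by linarith)
  refine ⟨min r₁ (min r₂ r₃), lt_min hr₁ (lt_min hr₂ hr₃), fun r hr hr' a w hw hwa ha => ?_⟩
  have m1 : r < r₁ := hr'.trans_le (min_le_left _ _)
  have m2 : r < r₂ := (hr'.trans_le (min_le_right _ _)).trans_le (min_le_left _ _)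
  have m3 : r < r₃ := (hr'.trans_le (min_le_right _ _)).trans_le (min_le_right _ _)
  have hwg : |w - g| ≤ 8 * r := by
    rw [abs_le]
    constructor <;> linarith
  have c1 := k1 r hr m1 a w hw hwa ha
  have c2 := (abs_le.1 (k2 r hr m2 w hwg)).2
  have c3 := (abs_le.1 (k3 r hr m3 w hwg)).1
  rw [← hs, ← heq] at c3
  linarith

/-- **Full rows** of almost all the windows of a set. -/
theorem rgFull_ae {P : ℝ → ℝ → ℝ} {ρ : ℝ → ℝ} {h : ℝ} {E G : Set ℝ} (hP : Law P)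
    (hG : RgFull P ρ h G) (hE : ∀ᵐ v : ℝ, v ∈ E → (∃ D σ : ℝ, 0 < D ∧ D < 1 ∧ 1 < σ ∧
      RgUp P v D σ ∧ DgLo P v D σ) → v ∈ G) : RgFull P ρ h E := by
  have hgm : Monotone (fun Q => Lv P (Q, 0)) := fun x y hxy => Lv_mono hP ⟨hxy, le_rfl⟩
  filter_upwards [hG, ae_notMem_of_null hgm (ae_iff.1 hE)] with Q h1 h2 h3 h4 g hg σ h5 h6 h7 h8 h9
  have hσ : 0 < σ := by linarith
  have k1 := lv_eq hP h5 h6 hσ h3 h4 h8 h9
  have k2 := lv_deriv hP h5 h6 hσ h3 h4 h8 h9
  have k3 := h2 k2.differentiableAt (by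
    rw [k2.deriv]
    positivity)
  rw [not_not] at k3
  simp only [k1] at k3
  exact h1 h3 h4 g (k3 hg ⟨Q, σ, h3, h4, h7, h8, h9⟩) σ h5 h6 h7 h8 h9

end Pool.SW

namespace Pool.PKG

open MeasureTheory Set Filter Topology
open Pool.Agent.H49.Ent Pool.Agent.H32.Dense Pool.STK Pool.KA Pool.KSAT Pool.K2S Pool.PB
open Pool.GEN Pool.S6C Pool.STAT Pool.CHT Pool.GRW Pool.ONE Pool.STA
open Pool.LBT (LSys ThrOf)
open Pool.LEV (Law Lv)
open Pool.ALL (RateOf)
open Pool.TOP (TopS)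
open Pool.STR (NumI LeT CellD Rle RowD Mac TopW StaAt IsoAt ThinAt SteepAt ae_rowD ae_dia)
open Pool.SW (rs Er rle_rs er_meas rs_row lv_dia Rgh rgh_meas rgh_thin rgh_of thin_diag micG_of
  rgFull_micG rowD_rs rgFull_ae)
open Pool.ZFN (RgUp DgLo RgFull)

variable {n : ℕ} {hn : 2 ≤ n} {S : PCl n} {P : ℝ → ℝ → ℝ} {r : ℝ → ℝ}
  {P' : ℕ → List (Fin n) × Fin n → ℝ → ℝ → ℝ} {Λ : Finset (Fin n) → Fin n → ℝ → ℝ → ℝ}
  {PB : ℕ → List (Fin n) × Fin n → ℝ → ℝ → ℝ}

/-- The slopes of the coordinates of an order. -/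
noncomputable def slo (H : PkT hn S P r P' Λ PB) (hTop : TopS n) (hF : FZX (n - 1)) (o : Od n)
    (g : ℝ) : Fin (n - 1) → ℝ := fun l => deriv ((H.nk hTop hF).dg o l) g

/-- **The rough windows with chosen slopes.** -/
def GcR (C : (Fin (n - 1) → ℝ) → ℝ → Prop) (H : PkT hn S P r P' Λ PB) (hTop : TopS n)
    (hF : FZX (n - 1)) : Set ℝ :=
  {g | g ∈ Rgh P ∧ ∀ o : Od n, g ∈ Gs P r P' Λ o →
    C (slo H hTop hF o g) (deriv (fun a => P a a) g)}

theorem gcR_meas {C : (Fin (n - 1) → ℝ) → ℝ → Prop}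
    (hC : MeasurableSet {p : (Fin (n - 1) → ℝ) × ℝ | C p.1 p.2})
    (H : PkT hn S P r P' Λ PB) (hTop : TopS n) (hF : FZX (n - 1)) :
    MeasurableSet (GcR C H hTop hF) := by
  have h1 : ∀ o : Od n, Measurable fun g : ℝ =>
      (slo H hTop hF o g, deriv (fun a => P a a) g) := fun o =>
    (measurable_pi_lambda _ fun l => measurable_deriv _).prodMk (measurable_deriv _)
  have h3 : GcR C H hTop hF = Rgh P ∩ ⋂ o : Od n, (Gs P r P' Λ o)ᶜ ∪
      (fun g : ℝ => (slo H hTop hF o g, deriv (fun a => P a a) g)) ⁻¹'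
        {p : (Fin (n - 1) → ℝ) × ℝ | C p.1 p.2} := by
    ext g
    simp only [GcR, Set.mem_ofPred_eq, Set.mem_inter_iff, Set.mem_iInter, Set.mem_union,
      Set.mem_compl_iff, Set.mem_preimage]
    exact and_congr_right fun _ => forall_congr' fun o => ⟨fun h => (em _).symm.imp id h,
      fun h hg => h.resolve_left (not_not.2 hg)⟩
  rw [h3]
  exact (rgh_meas P).inter (MeasurableSet.iInter fun o =>
    ((H.toPk.gs_meas o).compl).union (h1 o hC))

/-- **No boxes**, if the windows of the nonfull rows are rough with chosen slopes: for all rates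
above the rate of the class. -/
def VNoC (C : (Fin (n - 1) → ℝ) → ℝ → Prop) (H : PkT hn S P r P' Λ PB) (hTop : TopS n)
    (hF : FZX (n - 1)) : Prop :=
  ∀ h : ℝ, 0 < h → h ≤ 1 → ∀ (ρ : ℝ → ℝ) (hρ : Rle r ρ),
    (∀ᵐ Q : ℝ, deriv ρ Q < 1 → h ≤ 1 - deriv r Q) →
    (∀ o : Od n, ∀ᵐ g : ℝ, ((H.nk hTop hF).chg hρ H.up).RwD o g → g ∈ Rgh P ∧
      C (slo H hTop hF o g) (deriv (fun a => P a a) g)) →
    ∃ p : ((H.nk hTop hF).chg hρ H.up).Par, p.cell.NoJS ∨ p.cell.NoBS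

/-- **The threshold of the rough windows is iso.** -/
theorem PkT.iso_rgh (H : PkT hn S P r P' Λ PB) (hTop : TopS n) (hF : FZX (n - 1)) :
    ∀ᵐ g : ℝ, ∀ o : Od n, g ∈ Gs P r P' Λ o → g ∈ Rgh P → PT hn PB o g g < 1 →
      IsoAt (PT hn PB o) g := by
  filter_upwards [H.dia_all H.pble hTop hF] with g h1 o ho hg hlt
  have g0 : 0 < g := ho.1.1.1
  have g1 : g < 1 := ho.1.1.2.1
  obtain ⟨d1, d2, d3⟩ := h1 o ho (n - 1) le_rfl
  have eL : LvL hn P P' o (n - 1) = P := by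
    funext a w
    exact LvL_top o a w
  have hle := H.leAt H.pble hTop hF ho (le_refl (n - 1))
  have hsl := Pool.NMS.slope_eq (D := fun a => LvT hn PB o (n - 1) a a)
    (D' := fun a => LvL hn P P' o (n - 1) a a) d2 d1 d3
    (Pool.NMS.dia_le (H.lawT o (n - 1)) (H.lawL o (n - 1)) g0 g1 hle)
  rw [LvT_top] at d2 d3 hsl
  rw [eL] at d1 d3 hsl
  exact Pool.STR.iso_of_thin ((H.nk hTop hF).hPT o) g0 g1 hlt d2
    (fun a w h0 h2 h3 => H.le o a w h0 h2 h3) (thin_diag d1 d2 d3 hsl (rgh_thin hg))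

/-- **The rows of the rough windows with chosen slopes are full.** -/
theorem PkT.rgFull_c {C : (Fin (n - 1) → ℝ) → ℝ → Prop}
    (hC : MeasurableSet {p : (Fin (n - 1) → ℝ) × ℝ | C p.1 p.2})
    (H : PkT hn S P r P' Λ PB) (hTop : TopS n) (hF : FZX (n - 1)) (hV : VNoC C H hTop hF) :
    RgFull P r 0 (GcR C H hTop hF) := by
  have hlaw := H.tgs.law ()
  have hP01 : ∀ a w : ℝ, 0 ≤ w → w ≤ a → a ≤ 1 → a ≤ P a w ∧ P a w ≤ 1 :=
    fun a w h0 h1 h2 => ⟨H.tgs.low () a w h0 h1 h2, H.tgs.up () a w h0 h1 h2⟩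
  have hG := gcR_meas hC H hTop hF
  refine rgFull_micG hlaw H.rate.lip (micG_of hlaw H.rate.lip H.rate.mono hG fun h h0 h1 => ?_)
  obtain ⟨p, hp⟩ := hV h h0 h1 _ (H.rleG hG h) (by
    filter_upwards [rs_row H.rate.lip H.rate.mono (er_meas (h := h) (r := r) hlaw hG)]
      with Q h2 h3
    have h4 := (h2 h3).1.1
    linarith) (fun o => by
    filter_upwards [H.rwd_G hTop hF hG h o] with g h2 R
    exact ⟨(h2 R).1, (h2 R).2 o R.mem⟩)
  refine NumI.micW_isoR hlaw hP01 (H.rleG hG h).lip' p hp fun o => ?_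
  filter_upwards [ae_rowD (ρ := rs r (Er P r h (GcR C H hTop hF))) (W := univ) hlaw
      (H.iso_rgh hTop hF), rowD_rs (h := h) hlaw H.rate.lip H.rate.mono hG]
    with Q k1 k2 hrow ho hlt
  exact Or.inl (k1 hrow o ho (k2 hrow).2.1.1 hlt)

end Pool.PKG
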