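import Pool.Agent.H19.SW.Fu

/-!
# The rough windows

`Rgh P`: the windows near which the threshold is thin over its own diagonal. It is measurable, and
contains the rough windows.
-/

set_option autoImplicit false

namespace Pool.SW

open MeasureTheory Set Filter Topology Pool.LEV Pool.STR
open Pool.ZFN (RgUp DgLo)

/-- The boxes of the size `ρ` and the error `e`. -/
def Rgb (P : ℝ → ℝ → ℝ) (ρ e : ℝ) : Set ℝ :=
  {g | ∀ a w : ℝ, g - ρ < w → w ≤ a → a < g + ρ → P a w ≤ P w w + (a - w) + e * ρ}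

/-- **The rough windows.** -/
def Rgh (P : ℝ → ℝ → ℝ) : Set ℝ :=
  {g | ∀ k : ℕ, ∃ m : ℕ, ∀ j : ℕ, m ≤ j → g ∈ Rgb P (1 / 2 ^ j) (1 / ((k : ℝ) + 1))}

theorem rgb_closed (P : ℝ → ℝ → ℝ) (ρ e : ℝ) : IsClosed (Rgb P ρ e) := by
  rw [← isOpen_compl_iff]
  have h1 : (Rgb P ρ e)ᶜ = ⋃ p : {p : ℝ × ℝ // p.2 ≤ p.1 ∧ P p.2 p.2 + (p.1 - p.2) + e * ρ <
      P p.1 p.2}, Ioo ((p : ℝ × ℝ).1 - ρ) ((p : ℝ × ℝ).2 + ρ) := by
    ext g
    simp only [Rgb, Set.mem_compl_iff, Set.mem_ofPred_eq, Set.mem_iUnion, Set.mem_Ioo]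
    constructor
    · intro h
      push Not at h
      obtain ⟨a, w, h1, h2, h3, h4⟩ := h
      exact ⟨⟨(a, w), h2, h4⟩, by simp only; linarith, by simp only; linarith⟩
    · rintro ⟨⟨⟨a, w⟩, h1, h2⟩, h3, h4⟩ h
      simp only at h1 h2 h3 h4
      exact absurd (h a w (by linarith) h1 (by linarith)) (not_le.2 h2)
  rw [h1]
  exact isOpen_iUnion fun _ => isOpen_Ioo

theorem rgh_meas (P : ℝ → ℝ → ℝ) : MeasurableSet (Rgh P) := by
  have h1 : Rgh P = ⋂ k : ℕ, ⋃ m : ℕ, ⋂ j : ℕ, ⋂ _ : m ≤ j,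
      Rgb P (1 / 2 ^ j) (1 / ((k : ℝ) + 1)) := by
    ext g
    simp only [Rgh, Set.mem_ofPred_eq, Set.mem_iInter, Set.mem_iUnion]
  rw [h1]
  exact MeasurableSet.iInter fun k => MeasurableSet.iUnion fun m => MeasurableSet.iInter fun j =>
    MeasurableSet.iInter fun _ => (rgb_closed P _ _).measurableSet

/-- A scale between two powers. -/
theorem pow_btwn {r : ℝ} (hr : 0 < r) (hr1 : r < 1) : ∃ j : ℕ, r < 1 / 2 ^ j ∧
    (1 : ℝ) / 2 ^ j ≤ 2 * r := by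
  have h2 : ∃ n : ℕ, (1 : ℝ) / 2 ^ n ≤ r := by
    obtain ⟨n, hn⟩ := exists_pow_lt_of_lt_one hr (show (1 / 2 : ℝ) < 1 by norm_num)
    exact ⟨n, by rw [one_div_pow] at hn; exact hn.le⟩
  classical
  have h3 := Nat.find_spec h2
  have h4 : Nat.find h2 ≠ 0 := by
    intro h
    rw [h] at h3
    norm_num at h3
    linarith
  obtain ⟨j, hj⟩ := Nat.exists_eq_succ_of_ne_zero h4
  have h5 := Nat.find_min h2 (show j < Nat.find h2 by omega)
  push Not at h5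
  refine ⟨j, h5, ?_⟩
  rw [hj, Nat.succ_eq_add_one, pow_succ] at h3
  have e1 : (1 : ℝ) / 2 ^ j = 2 * (1 / (2 ^ j * 2)) := by field_simp
  rw [e1]
  linarith

/-- The rough windows are thin. -/
theorem rgh_thin {P : ℝ → ℝ → ℝ} {g : ℝ} (h : g ∈ Rgh P) : ThinAt P P g := by
  intro e he
  obtain ⟨k, hk⟩ := exists_nat_one_div_lt (show 0 < e / 32 by positivity)
  obtain ⟨m, hm⟩ := h k
  refine ⟨min (1 / 32) (1 / 2 ^ m / 32), lt_min (by norm_num) (by positivity),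
    fun r hr hr' a w hw hwa ha => ?_⟩
  have m1 : r < 1 / 32 := hr'.trans_le (min_le_left _ _)
  have m2 : r < 1 / 2 ^ m / 32 := hr'.trans_le (min_le_right _ _)
  obtain ⟨j, hj1, hj2⟩ := pow_btwn (r := 8 * r) (by linarith) (by linarith)
  have hmj : m ≤ j := by
    by_contra hcon
    push Not at hcon
    have h1 : (1 : ℝ) / 2 ^ m ≤ 1 / 2 ^ j :=
      one_div_le_one_div_of_le (by positivity) (pow_le_pow_right₀ (by norm_num) hcon.le)
    linarith
  have h1 := hm j hmj a w (by linarith) hwa (by linarith)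
  have hk0 : (0 : ℝ) < 1 / ((k : ℝ) + 1) := by positivity
  have h2 : 1 / ((k : ℝ) + 1) * (1 / 2 ^ j) ≤ e / 32 * (2 * (8 * r)) :=
    mul_le_mul hk.le hj2 (by positivity) (by positivity)
  have h3 : 0 < e * r := mul_pos he hr
  linarith

/-- **The rough windows** in the form of the zooms. -/
theorem rgh_of {P : ℝ → ℝ → ℝ} {g D σ : ℝ} (hU : RgUp P g D σ) (hL : DgLo P g D σ) :
    g ∈ Rgh P := by
  intro k
  have hk : (0 : ℝ) < 1 / ((k : ℝ) + 1) := by positivity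
  obtain ⟨r₁, hr₁, h1⟩ := hU (1 / ((k : ℝ) + 1) / 2) (by positivity)
  obtain ⟨r₂, hr₂, h2⟩ := hL (1 / ((k : ℝ) + 1) / 2) (by positivity)
  obtain ⟨m, hm⟩ := exists_pow_lt_of_lt_one (lt_min hr₁ hr₂) (show (1 / 2 : ℝ) < 1 by norm_num)
  refine ⟨m, fun j hj a w hw hwa ha => ?_⟩
  have h3 : (1 : ℝ) / 2 ^ j < min r₁ r₂ := by
    have h4 : (1 : ℝ) / 2 ^ j ≤ 1 / 2 ^ m :=
      one_div_le_one_div_of_le (by positivity) (pow_le_pow_right₀ (by norm_num) hj)
    rw [one_div_pow] at hm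
    linarith
  have h5 := h1 _ (by positivity) (h3.trans_le (min_le_left _ _)) a w hw.le hwa ha.le
  have h6 := h2 _ (by positivity) (h3.trans_le (min_le_right _ _)) w hw.le (by linarith)
  linarith

end Pool.SW
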