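import Pool.Agent.H19.SW.Cr
import Pool.Agent.H19.SW.Co
import Pool.Agent.H19.VAS.Mid
import Pool.Agent.H78.MIC.ClsF

/-!
# No boxes without ties, for all packages

`vAll_nt`: `VAll (NoTie n)` from the exactness on the boxes of the kind without ties.
-/

set_option autoImplicit false

namespace Pool.SW

open MeasureTheory Set Filter Topology
open Pool.Agent.H49.Ent Pool.Agent.H32.Dense Pool.STK Pool.KA Pool.KSAT Pool.K2S Pool.PB
open Pool.GEN Pool.PKG
open Pool.TOP (TopS)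
open Pool.STR (Rle)

variable {n : ℕ} {hn : 2 ≤ n}

/-- **Exactness** on the boxes of the kind without ties, for all packages and rates. -/
def ExV (hn : 2 ≤ n) (hTop : TopS n) (hF : FZX (n - 1)) : Prop :=
  ∀ (S : PCl n) (P : ℝ → ℝ → ℝ) (r : ℝ → ℝ) (P' : ℕ → List (Fin n) × Fin n → ℝ → ℝ → ℝ)
    (Λ : Finset (Fin n) → Fin n → ℝ → ℝ → ℝ) (PB : ℕ → List (Fin n) × Fin n → ℝ → ℝ → ℝ)
    (H : PkT hn S P r P' Λ PB) (h : ℝ), 0 < h → h ≤ 1 → ∀ (ρ : ℝ → ℝ) (hρ : Rle r ρ),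
    HasK H (kpV H hTop hF hρ h) (HypV _)

/-- **No boxes** without ties, for all packages. -/
theorem vAll_nt (hTop : TopS n) (hF : FZX (n - 1)) (hE : ExV hn hTop hF) :
    VAll hn hTop hF (NoTie n) := by
  intro S P r P' Λ PB H h h0 h1 ρ hρ hrow hW
  obtain ⟨p, hp⟩ := noBS_V (H := H) (hTop := hTop) (hF := hF) (hρ := hρ) Pool.VAS.micV h0 h1 hrow
    (fun o => by
      filter_upwards [hW o] with g h2 R
      refine Or.inr fun l hl => ?_
      have e1 := slN_dg H hTop hF o (le_refl (n - 1)) g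
      have e2 : (H.nk hTop hF).dg o (n - 1) = fun a => P a a := (H.nk hTop hF).dg_m o
      rw [e2] at e1
      rw [slN_dg H hTop hF o hl.le g, e1]
      exact (h2 R).2 ⟨l, hl⟩) (hE S P r P' Λ PB H h h0 h1 ρ hρ)
  exact ⟨p, Or.inr hp⟩

end Pool.SW
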