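import Pool.Agent.H19.SW.Vn

/-!
# Ties in the count with no loss

`TieO C`: for all packages and rates, there are no rough windows of nonfull rows with slopes in `C`
and a tie. `vAll_top`: `VAll C` from `TieO C` and the exactness on the boxes of the kind without
ties. `hc0_top`: the count with no loss at the windows where the rough coordinate has the top slope.
-/

set_option autoImplicit false

namespace Pool.SW

open MeasureTheory Set Filter Topology
open Pool.Agent.H49.Ent Pool.Agent.H32.Dense Pool.STK Pool.KA Pool.KSAT Pool.K2S Pool.PB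
open Pool.GEN Pool.PKG Pool.ONE Pool.ZFI Pool.ZCL Pool.ZLC Pool.ZFN Pool.ZCO
open Pool.TOP (TopS RW)
open Pool.STR (Rle)

variable {n : ℕ} {hn : 2 ≤ n}

/-- **No ties with slopes in `C`**, for all packages and rates: at almost every window of a row
which is not full, with rough target and slopes in `C`, no coordinate before the target has the
slope of the target. -/
def TieO (hn : 2 ≤ n) (hTop : TopS n) (hF : FZX (n - 1)) (C : (Fin (n - 1) → ℝ) → ℝ → Prop) :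
    Prop :=
  ∀ (S : PCl n) (P : ℝ → ℝ → ℝ) (r : ℝ → ℝ) (P' : ℕ → List (Fin n) × Fin n → ℝ → ℝ → ℝ)
    (Λ : Finset (Fin n) → Fin n → ℝ → ℝ → ℝ) (PB : ℕ → List (Fin n) × Fin n → ℝ → ℝ → ℝ)
    (H : PkT hn S P r P' Λ PB) (h : ℝ), 0 < h → h ≤ 1 → ∀ (ρ : ℝ → ℝ) (hρ : Rle r ρ),
    (∀ᵐ Q : ℝ, deriv ρ Q < 1 → h ≤ 1 - deriv r Q) →
    ∀ o : Od n, ∀ᵐ g : ℝ, ((H.nk hTop hF).chg hρ H.up).RwD o g → g ∈ Rgh P →
      C (slo H hTop hF o g) (deriv (fun a => P a a) g) →
      (∃ i, slo H hTop hF o g i = deriv (fun a => P a a) g) → False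

/-- **No boxes** with slopes in `C`, for all packages. -/
theorem vAll_top (hTop : TopS n) (hF : FZX (n - 1)) (hE : ExV hn hTop hF)
    {C : (Fin (n - 1) → ℝ) → ℝ → Prop} (hT : TieO hn hTop hF C) : VAll hn hTop hF C := by
  intro S P r P' Λ PB H h h0 h1 ρ hρ hrow hW
  obtain ⟨p, hp⟩ := noBS_V (H := H) (hTop := hTop) (hF := hF) (hρ := hρ) Pool.VAS.micV h0 h1 hrow
    (fun o => by
      filter_upwards [hW o, hT S P r P' Λ PB H h h0 h1 ρ hρ hrow o] with g h2 h3 R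
      refine Or.inr fun l hl h4 => ?_
      have e1 := slN_dg H hTop hF o (le_refl (n - 1)) g
      have e2 : (H.nk hTop hF).dg o (n - 1) = fun a => P a a := (H.nk hTop hF).dg_m o
      rw [e2] at e1
      rw [slN_dg H hTop hF o hl.le g, e1] at h4
      exact h3 R (h2 R).1 (h2 R).2 ⟨⟨l, hl⟩, h4⟩) (hE S P r P' Λ PB H h h0 h1 ρ hρ)
  exact ⟨p, Or.inr hp⟩

/-- **The target has the top slope**, larger than two, and the other slopes are at least two. -/
def TopC (n : ℕ) (s : Fin (n - 1) → ℝ) (σ : ℝ) : Prop :=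
  2 < σ ∧ ∀ i, s i ≤ σ ∧ (1 ≤ (i : ℕ) → 2 ≤ s i)

theorem topC_meas (n : ℕ) : MeasurableSet {p : (Fin (n - 1) → ℝ) × ℝ | TopC n p.1 p.2} := by
  have h1 : {p : (Fin (n - 1) → ℝ) × ℝ | TopC n p.1 p.2} =
      {p : (Fin (n - 1) → ℝ) × ℝ | 2 < p.2} ∩
      ⋂ i : Fin (n - 1), ({p : (Fin (n - 1) → ℝ) × ℝ | p.1 i ≤ p.2} ∩
        {p : (Fin (n - 1) → ℝ) × ℝ | 1 ≤ (i : ℕ) → 2 ≤ p.1 i}) := by
    ext p
    simp only [TopC, Set.mem_ofPred_eq, Set.mem_iInter, Set.mem_inter_iff]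
  rw [h1]
  refine (measurableSet_lt measurable_const measurable_snd).inter
    (MeasurableSet.iInter fun i => (measurableSet_le
      ((measurable_pi_apply i).comp measurable_fst) measurable_snd).inter ?_)
  by_cases hi : 1 ≤ (i : ℕ)
  · simp only [hi, true_imp_iff]
    exact measurableSet_le measurable_const ((measurable_pi_apply i).comp measurable_fst)
  · simp only [hi, false_imp_iff]
    exact MeasurableSet.univ

/-- The slopes of the slots are in `TopC`. -/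
theorem cok_top {l : ℕ} {τ : ℕ → ℝ} {σ : ℝ} (hσ : 2 < σ)
    (hτ : ∀ i, 1 ≤ i → i ≤ n - 1 → i ≠ l → 2 ≤ τ i ∧ τ i ≤ σ) :
    Cok (TopC n) (fun j => τ (ix l j)) σ := by
  intro s h1 h2
  refine ⟨hσ, fun i => ?_⟩
  rcases Nat.eq_zero_or_pos (i : ℕ) with h5 | h5
  · rw [h1 i h5]
    exact ⟨by linarith, fun h => absurd h (by omega)⟩
  · obtain ⟨j, hj1, hj2, hj3⟩ := h2 i h5
    rw [hj3]
    obtain ⟨h6, h7⟩ := hτ (ix l j) (by unfold ix; split_ifs <;> omega)
      (ix_le (l := l) hj2) (by unfold ix; split_ifs <;> omega)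
    exact ⟨h7, fun _ => h6⟩

variable {S : PCl n} {P : ℝ → ℝ → ℝ} {r : ℝ → ℝ}
  {P' : ℕ → List (Fin n) × Fin n → ℝ → ℝ → ℝ} {Λ : Finset (Fin n) → Fin n → ℝ → ℝ → ℝ}
  {PB : ℕ → List (Fin n) × Fin n → ℝ → ℝ → ℝ}

/-- **The count with no loss** for the static chains, if the rough coordinate has the top slope. -/
theorem hc0_top (H : PkT hn S P r P' Λ PB) (hTop : TopS n) (hF1 : FZX 1) (hF : FZX (n - 1))
    (hn4 : n ≤ 4) (hW : ∀ k, 2 ≤ k → k < n → RW k) (hE : ExV hn hTop hF)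
    (hT : TieO hn hTop hF (TopC n)) {h : ℝ} (hh : 0 ≤ h)
    (hMev : ∀ (o : Od n) (l : ℕ), 1 ≤ l → l < n - 1 →
      ∃ C : ℝ, 1 ≤ C ∧ MevH hn S P r P' Λ o l C) (o : Od n) (l : ℕ) :
    ∀ᵐ g : ℝ, RwH H hTop hF h o g → Pool.Z4.Cfg hn P P' o l g →
      2 < deriv (fun v => LL hn P P' o (l + 1) v v) g →
      (∀ i, 1 ≤ i → i ≤ n - 1 → i ≠ l → 2 ≤ deriv (fun v => LL hn P P' o (i + 1) v v) g ∧
        deriv (fun v => LL hn P P' o (i + 1) v v) g ≤
          deriv (fun v => LL hn P P' o (l + 1) v v) g) → False := by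
  filter_upwards [hc0_c H hTop hF1 hF hn4 hW (topC_meas n) (vAll_top hTop hF hE hT) hh hMev o l]
    with g h1 R hCf h2 hle
  exact h1 R hCf (cok_top (τ := fun i => deriv (fun v => LL hn P P' o (i + 1) v v) g) h2 hle)

end Pool.SW
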