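import Pool.Agent.H19.SW.Zx
import Pool.Agent.H52.SUM.Bsc

/-!
# The numbers of the slots as countably many properties

`slq_x`: the numbers of the slots (`Slq`) of the class of the sheared zooms follow from countably
many properties, each under one requirement.
-/

set_option autoImplicit false

namespace Pool.SW

open Real
open Finset (range univ)
open Pool.Agent.H49.Ent Pool.Agent.H32.Dense Pool.STK Pool.KA Pool.KSAT Pool.K2S Pool.PB Pool.S6C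
open Pool.GEN Pool.ONE Pool.EXW Pool.TOP Pool.ZCL Pool.ZLC Pool.ZCO
open Pool.PKG (Slq)

variable {m n : ℕ}

/-- A stable label does not depend on the probabilities. -/
theorem lbR_free {J : ℕ} {G : Fam n J} {κ : Type} {k : G.Ω → κ} {v : κ}
    (hl : IsLaw (cond G.p k v)) {R : ℝ} {I : Finset (Fin n)} {i : Fin n} {K w P : ℕ}
    {B : G.Ω → Prop} (h : LbR R G I i K w P B) : LbR R (G.res k v hl) I i K w P B := by
  obtain ⟨V, z, z', g, hg⟩ := h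
  exact ⟨V, z, z', g, hg.deg, hg.dep, fun ω hω => hg.cls ω hω, fun ω hω => hg.pos ω hω⟩

/-- There is no part of a given proportion with a stable label. -/
theorem upr_lbR (R : ℝ) (I : Finset (Fin n)) (i : Fin n) (K₁ : ℕ → ℝ) (K : ℕ) (w P : ℕ → ℕ) :
    UPr (fun J (F : Fam n J) A => ∀ B : F.Ω → Prop, Sub B A → Pe F.p A ≤ K₁ J * Pe F.p B →
      ¬ LbR R F I i K (w J) (P J) B) :=
  GPr.upr fun J => gpr_many (P := fun (F : Fam n J) A => LbR R F I i K (w J) (P J) A)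
    (fun F A B hB h => LbR.hered R F _ _ _ _ _ A B hB h)
    (fun _ _ _ _ hl _ h => lbR_free hl h)

theorem LbR_anti {J : ℕ} {F : Fam n J} {A : F.Ω → Prop} {R : ℝ} {I : Finset (Fin n)} {i : Fin n}
    {K w P P' : ℕ} (h : LbR R F I i K w P A) (hP : P' ≤ P) : LbR R F I i K w P' A :=
  h.wk (Finset.Subset.refl _) le_rfl hP

/-- **The numbers of the slots** from countably many properties. -/
theorem slq_x {S : PCl m} {w₁ : ℝ} {e : Fin n → Fin m} {Req : Type*} {R : Req → DtP m}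
    {Rr b₁ : ℝ} {q : ℕ → ℝ → ℝ}
    (hno : ∀ i : Fin n, 1 ≤ (i : ℕ) → (i : ℕ) < n - 1 → ∀ x : ℚ, 0 < x → (x : ℝ) < b₁ →
      ∀ h : ℝ, 0 < h → q i x + h ≤ 1 → ∀ K : ℕ, ∃ r : Req, ZPr S w₁ e (R r) (fun J G B =>
        ¬ LbR Rr G (univ.filter fun j : Fin n => (j : ℕ) < i) i K ⌊(x : ℝ) * J⌋₊
          ⌊(q i x + h) * J⌋₊ B))
    (hatt : ∀ i : Fin n, 1 ≤ (i : ℕ) → (i : ℕ) < n - 1 → ∀ x : ℚ, 0 < x → (x : ℝ) < b₁ →
      ∀ h : ℝ, 0 < h → ∃ K : ℕ, ∀ τ : ℝ, 0 < τ → ∃ r : Req, ZPr S w₁ e (R r) (fun J G A =>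
        ∃ B : G.Ω → Prop, Sub B A ∧ Real.exp (-(τ * J)) * Pe G.p A ≤ Pe G.p B ∧
        LbR 1 G (univ.filter fun j : Fin n => (j : ℕ) < i) i K ⌊(x : ℝ) * J⌋₊
          ⌊(q i x - h) * J⌋₊ B)) :
    ∃ (X : Type) (_ : Countable X) (Ψ : X → Stat n), (∀ x, UPr (Ψ x)) ∧
      (∀ x, ∃ r : Req, ZPr S w₁ e (R r) (fun J G B => ¬ Ψ x J G B)) ∧
      ∀ S' : PCl n, (∀ x, Bas S' (fun J F A => ¬ Ψ x J F A)) → Slq S' Rr b₁ q := by
  classical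
  have hk : ∀ k : ℕ, (0 : ℝ) < 1 / ((k : ℝ) + 1) := fun k => by positivity
  choose! Kf hatt using hatt
  let I₁ : Type := {p : Fin n × ℚ × ℕ × ℕ // 1 ≤ (p.1 : ℕ) ∧ (p.1 : ℕ) < n - 1 ∧ 0 < p.2.1 ∧
    (p.2.1 : ℝ) < b₁ ∧ q p.1 p.2.1 + 1 / ((p.2.2.2 : ℝ) + 1) ≤ 1}
  let I₂ : Type := {p : Fin n × ℚ × ℕ × ℕ // 1 ≤ (p.1 : ℕ) ∧ (p.1 : ℕ) < n - 1 ∧ 0 < p.2.1 ∧
    (p.2.1 : ℝ) < b₁}
  have : Countable I₁ := inferInstance
  have : Countable I₂ := inferInstance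
  have hexp : ∀ (x : ℝ) (a b : ℝ), a ≤ Real.exp x * b ↔ Real.exp (-x) * a ≤ b := by
    intro x a b
    rw [Real.exp_neg, inv_mul_le_iff₀ (Real.exp_pos x)]
  obtain ⟨Ψ, hΨ⟩ : ∃ Ψ : I₁ ⊕ I₂ → Stat n, Ψ = fun i => match i with
    | Sum.inl p => fun J G B => LbR Rr G (univ.filter fun j : Fin n => (j : ℕ) < p.1.1) p.1.1
        p.1.2.2.1 ⌊(p.1.2.1 : ℝ) * J⌋₊ ⌊(q p.1.1 p.1.2.1 + 1 / ((p.1.2.2.2 : ℝ) + 1)) * J⌋₊ B
    | Sum.inr p => fun J G A => ∀ B : G.Ω → Prop, Sub B A →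
        Pe G.p A ≤ Real.exp (1 / ((p.1.2.2.2 : ℝ) + 1) * J) * Pe G.p B →
        ¬ LbR 1 G (univ.filter fun j : Fin n => (j : ℕ) < p.1.1) p.1.1
          (Kf p.1.1 p.1.2.1 (1 / ((p.1.2.2.1 : ℝ) + 1))) ⌊(p.1.2.1 : ℝ) * J⌋₊
          ⌊(q p.1.1 p.1.2.1 - 1 / ((p.1.2.2.1 : ℝ) + 1)) * J⌋₊ B := ⟨_, rfl⟩
  refine ⟨I₁ ⊕ I₂, inferInstance, Ψ, ?_, ?_, ?_⟩
  · rw [hΨ]
    rintro (p | p)
    · exact GPr.upr fun J => gpr_lbR _ _ _ _ _ _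
    · exact upr_lbR 1 _ p.1.1 (fun J => Real.exp (1 / ((p.1.2.2.2 : ℝ) + 1) * J)) _
        (fun J => ⌊(p.1.2.1 : ℝ) * J⌋₊)
        (fun J => ⌊(q p.1.1 p.1.2.1 - 1 / ((p.1.2.2.1 : ℝ) + 1)) * J⌋₊)
  · rw [hΨ]
    rintro (p | p)
    · exact hno p.1.1 p.2.1 p.2.2.1 p.1.2.1 p.2.2.2.1 p.2.2.2.2.1 _ (hk _) p.2.2.2.2.2 p.1.2.2.1
    · obtain ⟨r, hr⟩ := hatt p.1.1 p.2.1 p.2.2.1 p.1.2.1 p.2.2.2.1 p.2.2.2.2 _ (hk p.1.2.2.1)
        _ (hk p.1.2.2.2)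
      refine ⟨r, hr.mono fun J G A h1 h2 => ?_⟩
      obtain ⟨B, k1, k2, k3⟩ := h1
      exact h2 B k1 ((hexp _ _ _).2 k2) k3
  · intro S' hno'
    rw [hΨ] at hno'
    have hfl : ∀ {x y : ℝ} (J : ℕ), x ≤ y → ⌊x * J⌋₊ ≤ ⌊y * J⌋₊ := fun J h =>
      Nat.floor_le_floor (mul_le_mul_of_nonneg_right h (Nat.cast_nonneg J))
    refine ⟨fun i h1 h2 x h3 h4 h h5 h6 K => ?_, fun i h1 h2 x h3 h4 h h5 => ?_⟩
    · obtain ⟨k, hkh⟩ := exists_inv h5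
      refine (hno' (Sum.inl ⟨(i, x, K, k), h1, h2, h3, h4, by
        change q i x + 1 / ((k : ℝ) + 1) ≤ 1
        linarith⟩)).mono 0 fun J _ F A k1 k2 => ?_
      exact k1 (LbR_anti k2 (hfl J (by
        change q i x + 1 / ((k : ℝ) + 1) ≤ q i x + h
        linarith)))
    · obtain ⟨k, hkh⟩ := exists_inv h5
      refine ⟨Kf i x (1 / ((k : ℝ) + 1)), fun τ hτ => ?_⟩
      obtain ⟨t, htτ⟩ := exists_inv hτ
      refine (hno' (Sum.inr ⟨(i, x, k, t), h1, h2, h3, h4⟩)).mono 0 fun J _ F A k1 => ?_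
      push Not at k1
      obtain ⟨B, j1, j2, j3⟩ := k1
      refine ⟨B, j1, ?_, LbR_anti j3 (hfl J (by
        change q i x - h ≤ q i x - 1 / ((k : ℝ) + 1)
        linarith))⟩
      have k4 := (hexp _ _ _).1 j2
      refine le_trans (mul_le_mul_of_nonneg_right (Real.exp_le_exp.2 (neg_le_neg ?_))
        (Pe_nonneg F.isLaw A)) k4
      exact mul_le_mul_of_nonneg_right htτ (Nat.cast_nonneg J)

end Pool.SW
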